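import Pool.Agent.helper39.FreeKernel

set_option autoImplicit false

namespace Pool.Agent.helper39

open FreeGroup

noncomputable section

/-- universal version of Schur multipliers, stable under pulling back -/
def IsSchurU {X Y : Type} (κ : X → Y → ℂ) (C : ℝ) : Prop :=
  ∀ (Z : Type) (f : Z → X) (g : Z → Y), IsSchur (fun a b => κ (f a) (g b)) C

theorem isSchurU_inter {X Y I : Type} [DecidableEq I] (A : X → Finset I) (B : Y → Finset I) (n : ℕ)
    (hA : ∀ x, (A x).card ≤ n) (hB : ∀ x, (B x).card ≤ n) :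
    IsSchurU (fun x y => (((A x ∩ B y).card : ℕ) : ℂ)) n := by
  intro Z f g
  exact isSchur_inter (fun z => A (f z)) (fun z => B (g z)) n (fun z => hA _) (fun z => hB _)

theorem IsSchurU.add {X Y : Type} {κ₁ κ₂ : X → Y → ℂ} {C₁ C₂ : ℝ} (h₁ : IsSchurU κ₁ C₁)
    (h₂ : IsSchurU κ₂ C₂) : IsSchurU (fun x y => κ₁ x y + κ₂ x y) (C₁ + C₂) :=
  fun Z f g => (h₁ Z f g).add (h₂ Z f g)

theorem IsSchurU.smul {X Y : Type} {κ : X → Y → ℂ} {C : ℝ} (h : IsSchurU κ C) (c : ℂ) :
    IsSchurU (fun x y => c * κ x y) (‖c‖ * C) :=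
  fun Z f g => (h Z f g).smul c

theorem IsSchurU.sum {X Y : Type} {ι : Type*} (s : Finset ι) (κ : ι → X → Y → ℂ) (C : ι → ℝ)
    (h : ∀ i ∈ s, IsSchurU (κ i) (C i)) :
    IsSchurU (fun x y => ∑ i ∈ s, κ i x y) (∑ i ∈ s, C i) :=
  fun Z f g => IsSchur.sum s _ C fun i hi => h i hi Z f g

variable {α : Type} [DecidableEq α]

theorem isSchurU_kapg (R T : Set α) (N : ℕ) (hN : 0 < N) :
    IsSchurU (fun g h : FreeGroup α => (kapg R T N g h : ℂ) / N) 2 := by
  classical
  -- first summand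
  have h1 : IsSchurU (fun g h : FreeGroup α =>
      (cnt N (fun i => Q1 T N (tw R h.toWord) (pt T g.toWord i)) : ℂ)) N := by
    have := isSchurU_inter (X := FreeGroup α) (Y := FreeGroup α)
      (fun g => (Finset.range N).image (pt T g.toWord))
      (fun h => if 1 ≤ pLen T (tw R h.toWord) then (Finset.Ico 1 N).image (pt T (tw R h.toWord)) else ∅) N
      (fun g => Finset.card_image_le.trans (by simp)) (fun h => by
        split_ifs
        · exact Finset.card_image_le.trans (by simp)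
        · simp)
    convert this using 4 with g h
    unfold cnt
    have e : ((Finset.range N).image (pt T g.toWord)) ∩ (if 1 ≤ pLen T (tw R h.toWord) then
        (Finset.Ico 1 N).image (pt T (tw R h.toWord)) else ∅) =
        ((Finset.range N).filter fun i => Q1 T N (tw R h.toWord) (pt T g.toWord i)).image (pt T g.toWord) := by
      ext p
      simp only [Finset.mem_inter, Finset.mem_image, Finset.mem_range, Finset.mem_filter]
      constructor
      · rintro ⟨⟨i, hi, rfl⟩, h2⟩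
        refine ⟨i, ⟨hi, ?_⟩, rfl⟩
        split_ifs at h2 with hc
        · obtain ⟨j, hj, hj2⟩ := Finset.mem_image.1 h2
          rw [Finset.mem_Ico] at hj
          exact ⟨j, hj.1, hj.2, hc, hj2.symm⟩
        · simp at h2
      · rintro ⟨i, ⟨hi, j, hj1, hj2, hj3, hj4⟩, rfl⟩
        refine ⟨⟨i, hi, rfl⟩, ?_⟩
        rw [if_pos hj3, hj4]
        exact Finset.mem_image.2 ⟨j, Finset.mem_Ico.2 ⟨hj1, hj2⟩, rfl⟩
    rw [e, Finset.card_image_of_injective _ (fun i j hij => pt_inj hij)]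
  -- second summand
  have h2 : IsSchurU (fun g h : FreeGroup α =>
      (cnt N (fun i => Q2 R (tw R h.toWord) (pt T g.toWord i)) : ℂ)) N := by
    have := IsSchurU.sum (X := FreeGroup α) (Y := FreeGroup α) (Finset.range N)
      (fun i g h => (((({tw R (pt T g.toWord i).1} : Finset (Wd α)) ∩ {tw R h.toWord}).card : ℕ) : ℂ))
      (fun _ => ((1 : ℕ) : ℝ)) (fun i _ => isSchurU_inter (X := FreeGroup α) (Y := FreeGroup α)
        (fun g => {tw R (pt T g.toWord i).1}) (fun h => {tw R h.toWord}) 1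
        (fun g => by simp) (fun h => by simp))
    have e2 : ∑ i ∈ Finset.range N, ((1 : ℕ) : ℝ) = N := by simp
    rw [e2] at this
    convert this using 4 with g h
    unfold cnt
    rw [Finset.card_filter]
    push_cast
    refine Finset.sum_congr rfl fun i _ => ?_
    unfold Q2
    by_cases hc : tw R (pt T g.toWord i).1 = tw R h.toWord
    · rw [if_pos hc, hc]; simp
    · rw [if_neg hc, Finset.singleton_inter_of_notMem (by simpa using hc)]; simp
  have h3 := (h1.add h2).smul ((N : ℂ)⁻¹)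
  have e3 : ‖((N : ℂ)⁻¹)‖ * ((N : ℝ) + N) = 2 := by
    rw [norm_inv, Complex.norm_natCast]
    have : (N : ℝ) ≠ 0 := by positivity
    field_simp
    norm_num
  rw [e3] at h3
  convert h3 using 4 with g h
  unfold kapg kap
  push_cast
  rw [div_eq_inv_mul]

/-- Relative approximation property of a subgroup. -/
def Approx {G : Type} [Group G] (P : Subgroup G) (C : ℝ) : Prop :=
  ∀ (D : Finset G) (ε : ℝ), 0 < ε → ∃ κ : G → G → ℂ, IsSchurU κ C ∧ (∀ g h, ‖κ g h‖ ≤ C) ∧
    (∀ g ∈ D, ∀ h, ‖κ (g * h) h - 1‖ ≤ ε) ∧ (∀ g h, ∀ p ∈ P, κ g (p * h) = κ g h) ∧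
    ∃ W : Finset G, ∀ g h, κ g h ≠ 0 → ∃ w ∈ W, w⁻¹ * (g * h⁻¹) ∈ P

theorem approx_FR (R : Set α) : Approx (FR R) 2 := by
  classical
  intro D ε hε
  -- letters of D
  set T : Set α := ⋃ g ∈ D, {a | ∃ l ∈ g.toWord, l.1 = a} with hT
  have hTfin : T.Finite := by
    refine D.finite_toSet.biUnion fun g _ => ?_
    have : {a | ∃ l ∈ g.toWord, l.1 = a} = Prod.fst '' {l | l ∈ g.toWord} := by
      ext a; simp
    rw [this]
    exact (List.finite_toSet _).image _
  set M : ℕ := D.sup fun g => g.toWord.length with hM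
  obtain ⟨N, hN⟩ := exists_nat_gt (2 * M / ε)
  have hN0 : 0 < N + 1 := Nat.succ_pos _
  refine ⟨fun g h => (kapg R T (N + 1) g h : ℂ) / ((N + 1 : ℕ) : ℂ), isSchurU_kapg R T (N + 1) hN0, ?_, ?_, ?_, ?_⟩
  · intro g h
    rw [norm_div, Complex.norm_natCast, Complex.norm_natCast, div_le_iff₀ (by positivity)]
    exact_mod_cast kapg_le R T (N + 1) g h
  · intro g hg h
    have h1 := kapg_near (R := R) (T := T) (g := g) (by
      intro l hl
      rw [hT]
      exact Set.mem_biUnion hg ⟨l, hl, rfl⟩) (N + 1) h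
    have h2 : g.toWord.length ≤ M := Finset.le_sup (f := fun g : FreeGroup α => g.toWord.length) hg
    have h3 : |(kapg R T (N + 1) (g * h) h : ℝ) - (N + 1 : ℕ)| ≤ 2 * M := by
      rw [abs_le]
      have h4 : kapg R T (N + 1) (g * h) h ≤ (N + 1) + 2 * M := by omega
      have h5 : (N + 1) ≤ kapg R T (N + 1) (g * h) h + 2 * M := by omega
      have h6 : (kapg R T (N + 1) (g * h) h : ℝ) ≤ ((N + 1 : ℕ) : ℝ) + 2 * M := by exact_mod_cast h4
      have h7 : ((N + 1 : ℕ) : ℝ) ≤ (kapg R T (N + 1) (g * h) h : ℝ) + 2 * M := by exact_mod_cast h5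
      constructor <;> linarith
    have h8 : ((kapg R T (N + 1) (g * h) h : ℂ) / ((N + 1 : ℕ) : ℂ) - 1) =
        ((((kapg R T (N + 1) (g * h) h : ℝ) - (N + 1 : ℕ)) / ((N + 1 : ℕ) : ℝ) : ℝ) : ℂ) := by
      have : ((N + 1 : ℕ) : ℂ) ≠ 0 := by exact_mod_cast hN0.ne'
      push_cast
      push_cast at this
      field_simp
    rw [h8, Complex.norm_real, Real.norm_eq_abs, abs_div, abs_of_pos (a := ((N + 1 : ℕ) : ℝ)) (by positivity),
      div_le_iff₀ (by positivity)]
    refine h3.trans ?_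
    rw [div_lt_iff₀ hε] at hN
    push_cast
    nlinarith
  · intro g h p hp
    simp only [kapg_right hp]
  · have hfin := finite_words T hTfin (N + 1)
    refine ⟨(hfin.toFinset ×ˢ hfin.toFinset).image fun q => q.1 * q.2⁻¹, ?_⟩
    intro g h hgh
    have hk : kapg R T (N + 1) g h ≠ 0 := by
      intro h0
      apply hgh
      simp only [h0]; simp
    obtain ⟨u, v, hu, hv, hu2, hv2, hmem⟩ := kapg_support hk
    refine ⟨mk u * (mk v)⁻¹, ?_, hmem⟩
    rw [Finset.mem_image]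
    exact ⟨(mk u, mk v), Finset.mem_product.2 ⟨hfin.mem_toFinset.2 ⟨u, hu, hu2, rfl⟩,
      hfin.mem_toFinset.2 ⟨v, hv, hv2, rfl⟩⟩, rfl⟩

/-- products of kernels -/
theorem Approx.prod {G G' : Type} [Group G] [Group G'] {P : Subgroup G} {P' : Subgroup G'} {C C' : ℝ}
    (hC : 0 < C) (_hC' : 0 < C') (h : Approx P C) (h' : Approx P' C') : Approx (P.prod P') (C * C') := by
  classical
  intro D ε hε
  -- choose ε'
  set δ : ℝ := ε / (2 * (C + 1)) with hδ
  have hδ0 : 0 < δ := by positivity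
  obtain ⟨κ, k1, k2, k3, k4, W, k5⟩ := h (D.image Prod.fst) (ε / 2) (by positivity)
  obtain ⟨κ', k1', k2', k3', k4', W', k5'⟩ := h' (D.image Prod.snd) δ hδ0
  refine ⟨fun g h => κ g.1 h.1 * κ' g.2 h.2, ?_, ?_, ?_, ?_, W ×ˢ W', ?_⟩
  · intro Z f g
    exact IsSchur.mul hC.le (k1 Z (fun z => (f z).1) (fun z => (g z).1))
      (k1' Z (fun z => (f z).2) (fun z => (g z).2))
  · intro g h
    rw [norm_mul]
    exact mul_le_mul (k2 _ _) (k2' _ _) (norm_nonneg _) hC.le
  · intro g hg h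
    have a1 := k3 g.1 (Finset.mem_image_of_mem _ hg) h.1
    have a2 := k3' g.2 (Finset.mem_image_of_mem _ hg) h.2
    have e : κ (g * h).1 h.1 * κ' (g * h).2 h.2 - 1 =
        κ (g.1 * h.1) h.1 * (κ' (g.2 * h.2) h.2 - 1) + (κ (g.1 * h.1) h.1 - 1) := by
      rw [Prod.fst_mul, Prod.snd_mul]; ring
    rw [e]
    refine (norm_add_le _ _).trans ?_
    rw [norm_mul]
    have a3 : ‖κ (g.1 * h.1) h.1‖ ≤ C := k2 _ _
    have a4 : ‖κ (g.1 * h.1) h.1‖ * ‖κ' (g.2 * h.2) h.2 - 1‖ ≤ C * δ :=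
      mul_le_mul a3 a2 (norm_nonneg _) hC.le
    have a5 : C * δ ≤ ε / 2 := by
      rw [hδ]
      rw [mul_div_assoc', div_le_div_iff₀ (by positivity) (by positivity)]
      nlinarith
    linarith
  · rintro g h ⟨p, p'⟩ hp
    obtain ⟨hp1, hp2⟩ := Subgroup.mem_prod.1 hp
    simp only [Prod.fst_mul, Prod.snd_mul]
    rw [k4 _ _ _ hp1, k4' _ _ _ hp2]
  · intro g h hgh
    obtain ⟨w, hw, hw2⟩ := k5 _ _ (left_ne_zero_of_mul hgh)
    obtain ⟨w', hw', hw2'⟩ := k5' _ _ (right_ne_zero_of_mul hgh)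
    exact ⟨(w, w'), Finset.mem_product.2 ⟨hw, hw'⟩, Subgroup.mem_prod.2 ⟨hw2, hw2'⟩⟩

end

end Pool.Agent.helper39
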