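import Pool.Agent.helper39.LemmaB

set_option autoImplicit false

namespace Pool.Agent.helper39

open FreeGroup Filter Topology

noncomputable section

section free

variable {α : Type*} [DecidableEq α]

/-- words whose first letter outside `S0` lies in `S1` -/
def Fset (S0 S1 : Set α) : Set (FreeGroup α) := {a | ∃ l t, tw S0 a.toWord = l :: t ∧ l.1 ∈ S1}

omit [DecidableEq α] in
theorem tw_of_mem {S0 S1 : Set α} (h01 : Disjoint S0 S1) (v c : Wd α) (hv : ∀ l ∈ v, l.1 ∈ S0 ∪ S1)
    (hv1 : ∃ l ∈ v, l.1 ∈ S1) : ∃ l t, tw S0 (v ++ c) = l :: t ∧ l.1 ∈ S1 := by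
  classical
  induction v with
  | nil => obtain ⟨l, hl, _⟩ := hv1; simp at hl
  | cons x v ih =>
    by_cases hx : x.1 ∈ S0
    · rw [List.cons_append, tw_cons hx]
      apply ih fun l hl => hv l (List.mem_cons_of_mem _ hl)
      obtain ⟨l, hl, hl1⟩ := hv1
      rcases List.mem_cons.1 hl with rfl | hl
      · exact absurd hl1 (Set.disjoint_left.1 h01 hx)
      · exact ⟨l, hl, hl1⟩
    · refine ⟨x, v ++ c, ?_, ?_⟩
      · unfold tw
        rw [List.cons_append, List.dropWhile_cons_of_neg]
        simpa using hx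
      · rcases hv x List.mem_cons_self with h | h
        · exact absurd h hx
        · exact h

theorem pp_free {S0 S1 : Set α} (h01 : Disjoint S0 S1) {g : FreeGroup α}
    (hg : ∀ l ∈ g.toWord, l.1 ∈ S0 ∪ S1) (hg1 : ∃ l ∈ g.toWord, l.1 ∈ S1) (a : FreeGroup α)
    (ha : a ∉ Fset S0 S1) : g * a ∈ Fset S0 S1 := by
  classical
  set p : α × Bool → Bool := fun l => decide (l.1 ∈ S0) with hp
  set v1 := g.toWord.rdropWhile p with hv1
  set v2 := g.toWord.rtakeWhile p with hv2
  have hw : v1 ++ v2 = g.toWord := List.rdropWhile_append_rtakeWhile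
  have hv2S : ∀ l ∈ v2, l.1 ∈ S0 := by
    intro l hl
    have := List.mem_rtakeWhile_imp hl
    simpa [hp] using this
  have hv1ne : v1 ≠ [] := by
    intro h
    rw [hv1, List.rdropWhile_eq_nil_iff] at h
    obtain ⟨l, hl, hl1⟩ := hg1
    have := h l hl
    simp only [hp, decide_eq_true_eq] at this
    exact Set.disjoint_left.1 h01 this hl1
  have hlast : (v1.getLast hv1ne).1 ∉ S0 := by
    have := List.rdropWhile_last_not p g.toWord hv1ne
    simpa [hp] using this
  set b : FreeGroup α := mk v2 * a with hb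
  have hbtw : tw S0 b.toWord = tw S0 a.toWord := tw_mk_mul v2 hv2S a
  have hbF : b ∉ Fset S0 S1 := by
    rintro ⟨l, t, h1, h2⟩
    exact ha ⟨l, t, by rw [← hbtw, h1], h2⟩
  have hred : IsReduced (v1 ++ b.toWord) := by
    have r1 : IsReduced v1 := by
      have r0 : IsReduced (v1 ++ v2) := by
        rw [hw]
        exact isReduced_toWord (x := g)
      exact List.IsChain.left_of_append r0
    have r2 : IsReduced b.toWord := isReduced_toWord
    refine List.IsChain.append r1 r2 ?_
    intro x hx y hy hxy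
    exfalso
    rw [List.getLast?_eq_getLast_of_ne_nil hv1ne, Option.mem_some_iff] at hx
    rw [hx] at hlast
    have hxS1 : x.1 ∈ S1 := by
      have hmem : x ∈ g.toWord := by
        rw [← hw]
        exact List.mem_append_left _ (hx ▸ List.getLast_mem hv1ne)
      rcases hg x hmem with h | h
      · exact absurd h hlast
      · exact h
    obtain ⟨t, ht⟩ : ∃ t, b.toWord = y :: t := by
      rcases hbw : b.toWord with _ | ⟨z, t⟩
      · rw [hbw] at hy; simp at hy
      · rw [hbw] at hy
        simp only [List.head?_cons, Option.mem_some_iff] at hy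
        exact ⟨t, by rw [hy]⟩
    apply hbF
    refine ⟨y, t, ?_, by rw [← hxy]; exact hxS1⟩
    rw [ht]
    unfold tw
    rw [List.dropWhile_cons_of_neg]
    simpa [← hxy] using hlast
  have hmul : g * a = mk (v1 ++ b.toWord) := by
    rw [mk_append, mk_toWord, hb, ← mul_assoc, ← mk_append, hw, mk_toWord]
  have hword : (g * a).toWord = v1 ++ b.toWord := by
    rw [hmul, toWord_mk, hred.reduce_eq]
  show ∃ l t, tw S0 (g * a).toWord = l :: t ∧ l.1 ∈ S1
  rw [hword]
  refine tw_of_mem h01 v1 b.toWord ?_ ?_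
  · intro l hl
    exact hg l (by rw [← hw]; exact List.mem_append_left _ hl)
  · obtain ⟨l, hl, hl1⟩ := hg1
    rw [← hw] at hl
    rcases List.mem_append.1 hl with hl | hl
    · exact ⟨l, hl, hl1⟩
    · exact absurd hl1 (Set.disjoint_left.1 h01 (hv2S l hl))

theorem disjoint_Fset {S0 S1 S2 : Set α} (h : Disjoint S1 S2) : Disjoint (Fset S0 S1) (Fset S0 S2) := by
  rw [Set.disjoint_left]
  rintro a ⟨l, t, h1, h2⟩ ⟨l', t', h1', h2'⟩
  rw [h1] at h1'
  obtain ⟨rfl, _⟩ := List.cons.inj h1'
  exact Set.disjoint_left.1 h h2 h2'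

end free

section avg

variable {G : Type*} [Group G]

theorem norm_avg_le (F : ℕ → Set G) (hF : ∀ i j, i ≠ j → Disjoint (F i) (F j)) (g : ℕ → G)
    (hg : ∀ i a, a ∉ F i → g i * a ∈ F i) (n : ℕ) :
    ‖∑ i ∈ Finset.range n, (lam (g i) : Op G)‖ ≤ 2 * Real.sqrt n := by
  have := pingpong (Finset.range n) (fun i => MulAction.toPermHom G G (g i)) F
    (fun i _ j _ hij => hF i j hij) (fun i _ x hx => hg i x hx)
  rw [Finset.card_range] at this
  exact this

theorem tendsto_avg_zero (F : ℕ → Set G) (hF : ∀ i j, i ≠ j → Disjoint (F i) (F j)) (g : ℕ → G)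
    (hg : ∀ i a, a ∉ F i → g i * a ∈ F i) :
    Tendsto (fun n : ℕ => ((n : ℂ)⁻¹) • ∑ i ∈ Finset.range n, (lam (g i) : Op G)) atTop (𝓝 0) := by
  rw [tendsto_zero_iff_norm_tendsto_zero]
  have h1 : Tendsto (fun n : ℕ => 2 * (Real.sqrt n)⁻¹) atTop (𝓝 0) := by
    have : Tendsto (fun n : ℕ => Real.sqrt n) atTop atTop :=
      Real.tendsto_sqrt_atTop.comp tendsto_natCast_atTop_atTop
    simpa using (this.inv_tendsto_atTop).const_mul 2
  refine squeeze_zero (fun n => norm_nonneg _) (fun n => ?_) h1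
  rw [norm_smul, norm_inv, Complex.norm_natCast]
  rcases Nat.eq_zero_or_pos n with rfl | hn
  · simp
  · have hn' : (0 : ℝ) < n := by exact_mod_cast hn
    calc (n : ℝ)⁻¹ * ‖∑ i ∈ Finset.range n, (lam (g i) : Op G)‖ ≤ (n : ℝ)⁻¹ * (2 * Real.sqrt n) := by
          gcongr
          exact norm_avg_le F hF g hg n
      _ = 2 * (Real.sqrt n)⁻¹ := by
          have h2 : Real.sqrt n * Real.sqrt n = n := Real.mul_self_sqrt hn'.le
          have h3 : Real.sqrt n ≠ 0 := by positivity
          field_simp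
          linarith

omit [Group G] in
theorem tendsto_avg_const (x : Op G) :
    Tendsto (fun n : ℕ => ((n : ℂ)⁻¹) • ∑ _i ∈ Finset.range n, x) atTop (𝓝 x) := by
  apply tendsto_const_nhds.congr'
  filter_upwards [eventually_gt_atTop 0] with n hn
  have hn' : (n : ℂ) ≠ 0 := by exact_mod_cast hn.ne'
  rw [Finset.sum_const, Finset.card_range, ← Nat.cast_smul_eq_nsmul ℂ, smul_smul, inv_mul_cancel₀ hn', one_smul]

end avg

section EPlam

variable {G : Type} [Group G]

open Classical in
theorem EP_lam (P : Subgroup G) (g : G) : EP P (lam g) = if g ∈ P then lam g else 0 := by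
  apply op_ext'
  intro h k
  rw [EP_entry]
  by_cases hk : k = g * h
  · subst hk
    simp only [mul_inv_cancel_right]
    split_ifs <;> simp
  · have h0 : (lam g (dl h) : E G) k = 0 := by rw [lam_dl]; exact dl_ne hk
    have h1 : ((if g ∈ P then lam g else 0 : Op G) (dl h)) k = 0 := by
      split_ifs
      · exact h0
      · simp
    rw [h0, h1]
    simp

end EPlam

end

end Pool.Agent.helper39
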