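import Pool.Agent.helper39.LemmaA

set_option autoImplicit false

namespace Pool.Agent.helper39

open FreeGroup Filter Topology

noncomputable section

section Cr

variable {G : Type} [Group G]

/-- the reduced group algebra as a closed subalgebra -/
def CrS (G : Type) [Group G] : Subalgebra ℂ (Op G) := (lamA (G := G)).range.topologicalClosure

theorem coe_CrS : ((CrS G : Subalgebra ℂ (Op G)) : Set (Op G)) = Cr G := by
  unfold CrS Cr
  rw [Subalgebra.topologicalClosure_coe, AlgHom.coe_range]

theorem mem_CrS {x : Op G} : x ∈ CrS G ↔ x ∈ Cr G := by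
  rw [← SetLike.mem_coe, coe_CrS]

theorem lam_mem_Cr (g : G) : (lam g : Op G) ∈ Cr G := by
  apply subset_closure
  exact ⟨MonoidAlgebra.single g 1, by simp⟩

theorem mul_mem_Cr {x y : Op G} (hx : x ∈ Cr G) (hy : y ∈ Cr G) : x * y ∈ Cr G :=
  mem_CrS.1 (mul_mem (mem_CrS.2 hx) (mem_CrS.2 hy))

/-- the image of the conditional expectation is generated by the subgroup -/
theorem EP_mem_closure (P : Subgroup G) {x : Op G} (hx : x ∈ Cr G) :
    EP P x ∈ closure ((Submodule.span ℂ (lam '' (P : Set G)) : Submodule ℂ (Op G)) : Set (Op G)) := by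
  classical
  rw [Metric.mem_closure_iff]
  intro ε hε
  obtain ⟨z, hz⟩ := exists_near hx hε
  refine ⟨EP P (lamA z), ?_, ?_⟩
  · have hlz : lamA z = ∑ g ∈ z.coeff.support, z.coeff g • (lam g : Op G) := by
      unfold lamA
      rw [MonoidAlgebra.lift_apply, Finsupp.sum]
    have : EP P (lamA z) = ∑ g ∈ z.coeff.support, z.coeff g • EP P (lam g) := by
      rw [hlz]
      unfold EP
      rw [SK_sum]
      exact Finset.sum_congr rfl fun g _ => SK_smul _ _ _
    rw [this]
    refine Submodule.sum_mem _ fun g _ => Submodule.smul_mem _ _ ?_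
    rw [EP_lam]
    split_ifs with h
    · exact Submodule.subset_span ⟨g, h, rfl⟩
    · exact Submodule.zero_mem _
  · rw [dist_eq_norm, ← EP_sub]
    exact (norm_EP_le _ _).trans_lt hz

end Cr

/-- an element of the closed left ideal generated by `L` is in the closed left ideal generated by
a countable subset -/
theorem exists_countable_of_mem_closure {A : Type*} [NormedRing A] (L : Set A) {t : A}
    (ht : t ∈ closure ((Ideal.span L : Ideal A) : Set A)) :
    ∃ L' ⊆ L, L'.Countable ∧ t ∈ closure ((Ideal.span L' : Ideal A) : Set A) := by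
  have h : ∀ n : ℕ, ∃ T : Finset A, (T : Set A) ⊆ L ∧ ∃ y ∈ Ideal.span (T : Set A), dist t y < 1 / ((n : ℝ) + 1) := by
    intro n
    obtain ⟨y, hy, hty⟩ := Metric.mem_closure_iff.1 ht (1 / ((n : ℝ) + 1)) (by positivity)
    obtain ⟨T, hT, hyT⟩ := Submodule.mem_span_finite_of_mem_span hy
    exact ⟨T, hT, y, hyT, hty⟩
  choose T hT y hy hty using h
  refine ⟨⋃ n, (T n : Set A), Set.iUnion_subset hT, Set.countable_iUnion fun n => (T n).finite_toSet.countable, ?_⟩
  rw [Metric.mem_closure_iff]
  intro ε hε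
  obtain ⟨n, hn⟩ := exists_nat_one_div_lt hε
  exact ⟨y n, Ideal.span_mono (Set.subset_iUnion (fun n => (T n : Set A)) n) (hy n), (hty n).trans hn⟩

theorem span_le_closure {A : Type*} [NormedRing A] {L : Set A} {S : Set A}
    (h : S ⊆ closure ((Ideal.span L : Ideal A) : Set A)) :
    closure ((Ideal.span S : Ideal A) : Set A) ⊆ closure ((Ideal.span L : Ideal A) : Set A) := by
  have h1 : Ideal.span S ≤ (Ideal.span L).closure := Ideal.span_le.2 (by
    rw [Ideal.coe_closure]; exact h)
  apply closure_minimal _ isClosed_closure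
  intro x hx
  have := h1 hx
  rwa [← SetLike.mem_coe, Ideal.coe_closure] at this

variable {α : Type} [DecidableEq α]

theorem FR_countable {R : Set α} (hR : R.Countable) : ((FR R : Subgroup (FreeGroup α)) : Set (FreeGroup α)).Countable := by
  have hc : Countable ↥R := hR.to_subtype
  refine (Set.countable_range (FreeGroup.map (Subtype.val : ↥R → α))).mono ?_
  intro g hg
  obtain ⟨e, he⟩ := exists_map_eq (f := (Subtype.val : ↥R → α)) (g := g) (fun l hl => by
    rw [Subtype.range_coe]; exact hg l hl)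
  exact ⟨e, he⟩

theorem PR_countable {R : Set α} (hR : R.Countable) : ((PR R : Subgroup (GG α)) : Set (GG α)).Countable := by
  have := (FR_countable hR).prod (FR_countable hR)
  unfold PR
  rw [Subgroup.coe_prod]
  exact this

/-- **Fibre theorem**: every subset of the reduced group algebra of the square of a free group is
contained in a closed left ideal generated by a countable subset. -/
theorem fibre (L : Set (Op (GG α))) (hL : L ⊆ Cr (GG α)) :
    ∃ L0 ⊆ L, L0.Countable ∧ ∀ x ∈ L, x ∈ closure ((Ideal.span L0 : Ideal (Op (GG α))) : Set (Op (GG α))) := by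
  classical
  set M0 : Submodule ℂ (Op (GG α)) := Submodule.span ℂ {y | ∃ g : GG α, ∃ l ∈ L, y = lam g * l} with hM0
  set M : Submodule ℂ (Op (GG α)) := M0.topologicalClosure with hM
  have hMclosed : IsClosed (M : Set (Op (GG α))) := M0.isClosed_topologicalClosure
  have hM0C : M0 ≤ Subalgebra.toSubmodule (CrS (GG α)) := by
    rw [hM0, Submodule.span_le]
    rintro _ ⟨g, l, hl, rfl⟩
    exact mem_CrS.2 (mul_mem_Cr (lam_mem_Cr g) (hL hl))
  have hMC : (M : Set (Op (GG α))) ⊆ Cr (GG α) := by
    rw [hM, Submodule.topologicalClosure_coe]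
    apply closure_minimal _ isClosed_Cr
    intro x hx
    exact mem_CrS.1 (hM0C hx)
  have hML : (M : Set (Op (GG α))) ⊆ closure ((Ideal.span L : Ideal (Op (GG α))) : Set (Op (GG α))) := by
    rw [hM, Submodule.topologicalClosure_coe]
    apply closure_mono
    intro x hx
    rw [SetLike.mem_coe, hM0] at hx
    induction hx using Submodule.span_induction with
    | mem x hx =>
      obtain ⟨g, l, hl, rfl⟩ := hx
      exact Ideal.mul_mem_left _ _ (Ideal.subset_span hl)
    | zero => exact Ideal.zero_mem _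
    | add x y _ _ hx hy => exact Ideal.add_mem _ hx hy
    | smul c x _ hx =>
      have : c • x = (c • (1 : Op (GG α))) * x := by rw [smul_mul_assoc, one_mul]
      rw [this]
      exact Ideal.mul_mem_left _ _ hx
  obtain ⟨R, hR, hRM⟩ := lemmaA M hMclosed hMC
  -- the separable set
  set E0 : Set (Op (GG α)) := {y | ∃ x ∈ M, y = EP (PR R) x} with hE0
  have hsep : TopologicalSpace.IsSeparable E0 := by
    have h1 : TopologicalSpace.IsSeparable (lam '' ((PR R : Subgroup (GG α)) : Set (GG α)) : Set (Op (GG α))) :=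
      ((PR_countable hR).image _).isSeparable
    have h2 := (h1.span (R := ℂ)).closure
    refine h2.mono ?_
    rintro _ ⟨x, hx, rfl⟩
    exact EP_mem_closure (PR R) (hMC hx)
  obtain ⟨T, hTE, hTc, hTd⟩ := hsep.exists_countable_dense_subset
  have hTM : ∀ t ∈ T, t ∈ closure ((Ideal.span L : Ideal (Op (GG α))) : Set (Op (GG α))) := by
    intro t ht
    obtain ⟨x, hx, rfl⟩ := hTE ht
    exact hML (hRM x hx)
  have hch : ∀ t : Op (GG α), ∃ L' ⊆ L, L'.Countable ∧ (t ∈ T → t ∈ closure ((Ideal.span L' : Ideal (Op (GG α))) : Set (Op (GG α)))) := by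
    intro t
    by_cases ht : t ∈ T
    · obtain ⟨L', h1, h2, h3⟩ := exists_countable_of_mem_closure L (hTM t ht)
      exact ⟨L', h1, h2, fun _ => h3⟩
    · exact ⟨∅, Set.empty_subset _, Set.countable_empty, fun h => absurd h ht⟩
  choose L' hL'1 hL'2 hL'3 using hch
  refine ⟨⋃ t ∈ T, L' t, Set.iUnion₂_subset fun t _ => hL'1 t, hTc.biUnion fun t _ => hL'2 t, ?_⟩
  intro x hx
  have hTspan : T ⊆ closure ((Ideal.span (⋃ t ∈ T, L' t) : Ideal (Op (GG α))) : Set (Op (GG α))) := by
    intro t ht
    refine closure_mono ?_ (hL'3 t ht)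
    exact Ideal.span_mono (Set.subset_biUnion_of_mem (u := fun t => L' t) ht)
  have hEspan : E0 ⊆ closure ((Ideal.span (⋃ t ∈ T, L' t) : Ideal (Op (GG α))) : Set (Op (GG α))) := by
    refine hTd.trans ?_
    exact closure_minimal hTspan isClosed_closure
  have hxC : x ∈ Cr (GG α) := hL hx
  have hB := lemmaB (PR R) (C := 2 * 2) (by norm_num)
    (Approx.prod (by norm_num) (by norm_num) (approx_FR R) (approx_FR R)) hxC
  refine span_le_closure (S := {y | ∃ w, y = EP (PR R) (lam w⁻¹ * x)}) ?_ hB
  rintro _ ⟨w, rfl⟩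
  apply hEspan
  refine ⟨lam w⁻¹ * x, ?_, rfl⟩
  rw [← SetLike.mem_coe, hM, Submodule.topologicalClosure_coe]
  exact subset_closure (Submodule.subset_span ⟨w⁻¹, x, hx, rfl⟩)

end

end Pool.Agent.helper39
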