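import Pool.Agent.helper39.Pos
import Pool.Agent.helper39.Fibre

set_option autoImplicit false

namespace Pool.Agent.helper39

open Filter Topology

noncomputable section

universe v w

theorem tendsto_closure_span {A : Type*} [NormedRing A] {g : ℕ → A} (hg : ∀ k, ‖g k‖ ≤ 1) (D : Set A)
    (hD : ∀ l ∈ D, Tendsto (fun k => l * g k) atTop (𝓝 0)) {y : A}
    (hy : y ∈ closure ((Ideal.span D : Ideal A) : Set A)) : Tendsto (fun k => y * g k) atTop (𝓝 0) := by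
  have hspan : ∀ z ∈ Ideal.span D, Tendsto (fun k => z * g k) atTop (𝓝 0) := by
    intro z hz
    induction hz using Submodule.span_induction with
    | mem z hz => exact hD z hz
    | zero => simp
    | add z z' _ _ h h' =>
      have := h.add h'
      simpa [add_mul] using this
    | smul c z _ h =>
      have := h.const_mul c
      simpa [mul_assoc] using this
  rw [Metric.tendsto_atTop]
  intro ε hε
  obtain ⟨z, hz, hyz⟩ := Metric.mem_closure_iff.1 hy (ε / 2) (by positivity)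
  obtain ⟨N, hN⟩ := Metric.tendsto_atTop.1 (hspan z hz) (ε / 2) (by positivity)
  refine ⟨N, fun k hk => ?_⟩
  have h1 := hN k hk
  rw [dist_zero_right] at h1 ⊢
  rw [dist_eq_norm] at hyz
  calc ‖y * g k‖ = ‖(y - z) * g k + z * g k‖ := by congr 1; noncomm_ring
    _ ≤ ‖(y - z) * g k‖ + ‖z * g k‖ := norm_add_le _ _
    _ ≤ ‖y - z‖ * ‖g k‖ + ‖z * g k‖ := by gcongr; exact norm_mul_le _ _
    _ ≤ ‖y - z‖ * 1 + ‖z * g k‖ := by gcongr; exact hg k
    _ < ε := by linarith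

/-- **Patching theorem.** -/
theorem HL_of_fibres {A : Type v} [CStarAlgebra A] {Ω : Type w} [TopologicalSpace Ω] [CompactSpace Ω]
    [Countable Ω] {α : Type} [DecidableEq α] (Θ : Ω → A →⋆ₐ[ℂ] Op (GG α))
    (hC : ∀ ω a, Θ ω a ∈ Cr (GG α)) (hcont : ∀ a, Continuous fun ω => ‖Θ ω a‖)
    (hnorm : ∀ (a : A) (ε : ℝ), 0 ≤ ε → (∀ ω, ‖Θ ω a‖ ≤ ε) → ‖a‖ ≤ ε) : HL A := by
  classical
  intro L hLc hL
  have hω : ∀ ω, ∃ D : Set A, D ⊆ (L : Set A) ∧ D.Countable ∧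
      ∀ x ∈ L, Θ ω x ∈ closure ((Ideal.span (Θ ω '' D) : Ideal (Op (GG α))) : Set (Op (GG α))) := by
    intro ω
    obtain ⟨L0, h1, h2, h3⟩ := fibre (Θ ω '' (L : Set A)) (by
      rintro _ ⟨x, _, rfl⟩
      exact hC ω x)
    have h4 : ∀ y : L0, ∃ x, x ∈ (L : Set A) ∧ Θ ω x = y := fun y => h1 y.2
    choose p hp1 hp2 using h4
    have hcL0 : Countable L0 := h2.to_subtype
    refine ⟨Set.range p, ?_, Set.countable_range p, ?_⟩
    · rintro _ ⟨y, rfl⟩
      exact hp1 y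
    · intro x hx
      have h5 : L0 ⊆ Θ ω '' Set.range p := by
        intro y hy
        exact ⟨p ⟨y, hy⟩, ⟨⟨y, hy⟩, rfl⟩, hp2 ⟨y, hy⟩⟩
      exact closure_mono (Ideal.span_mono h5) (h3 _ ⟨x, hx, rfl⟩)
  choose D hD1 hD2 hD3 using hω
  have hDc : (insert 0 (⋃ ω, D ω)).Countable := (Set.countable_iUnion hD2).insert 0
  obtain ⟨l, hl⟩ := hDc.exists_eq_range ⟨0, Set.mem_insert _ _⟩
  have hlL : ∀ n, l n ∈ L := by
    intro n
    have : l n ∈ insert 0 (⋃ ω, D ω) := by rw [hl]; exact ⟨n, rfl⟩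
    rcases this with h | h
    · rw [h]; exact L.zero_mem
    · obtain ⟨ω, hω⟩ := Set.mem_iUnion.1 h
      exact hD1 ω hω
  obtain ⟨h, hhL, hsa, hsp, hlim⟩ := exists_positive L hLc hL l hlL
  refine ⟨h, hhL, hsa, hsp, ?_⟩
  intro x hx
  have hg1 : ∀ ω k, ‖Θ ω ((1 - h) ^ k)‖ ≤ 1 := fun ω k =>
    (NonUnitalStarAlgHom.norm_apply_le (Θ ω) _).trans (norm_one_sub_pow_le hsa hsp k)
  -- pointwise convergence
  have hpt : ∀ ω, Tendsto (fun k : ℕ => ‖Θ ω (x * (1 - h) ^ k)‖) atTop (𝓝 0) := by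
    intro ω
    rw [← tendsto_zero_iff_norm_tendsto_zero]
    simp only [map_mul]
    apply tendsto_closure_span (hg1 ω) (Θ ω '' D ω) _ (hD3 ω x hx)
    rintro _ ⟨d, hd, rfl⟩
    obtain ⟨n, hn⟩ : ∃ n, l n = d := by
      have : d ∈ insert 0 (⋃ ω, D ω) := Set.mem_insert_of_mem _ (Set.mem_iUnion.2 ⟨ω, hd⟩)
      rw [hl] at this
      exact this
    have h1 := hlim n
    rw [hn] at h1
    simp only [← map_mul]
    rw [tendsto_zero_iff_norm_tendsto_zero] at h1 ⊢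
    exact squeeze_zero (fun _ => norm_nonneg _)
      (fun k => NonUnitalStarAlgHom.norm_apply_le (Θ ω) _) h1
  have hanti : Antitone (fun (k : ℕ) ω => ‖Θ ω (x * (1 - h) ^ k)‖) := by
    apply antitone_nat_of_succ_le
    intro k ω
    have e : Θ ω (x * (1 - h) ^ (k + 1)) = Θ ω (x * (1 - h) ^ k) * Θ ω ((1 - h) ^ 1) := by
      rw [← map_mul, pow_one, pow_succ, mul_assoc]
    show ‖Θ ω (x * (1 - h) ^ (k + 1))‖ ≤ ‖Θ ω (x * (1 - h) ^ k)‖
    rw [e]
    calc ‖Θ ω (x * (1 - h) ^ k) * Θ ω ((1 - h) ^ 1)‖ ≤ ‖Θ ω (x * (1 - h) ^ k)‖ * ‖Θ ω ((1 - h) ^ 1)‖ := norm_mul_le _ _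
      _ ≤ ‖Θ ω (x * (1 - h) ^ k)‖ * 1 := by gcongr; exact hg1 ω 1
      _ = _ := mul_one _
  have hunif := hanti.tendstoUniformly_of_forall_tendsto (f := fun _ => (0:ℝ))
    (fun k => hcont _) continuous_const hpt
  rw [Metric.tendsto_atTop]
  intro ε hε
  rw [Metric.tendstoUniformly_iff] at hunif
  obtain ⟨N, hN⟩ := eventually_atTop.1 (hunif (ε / 2) (by positivity))
  refine ⟨N, fun k hk => ?_⟩
  rw [dist_zero_right]
  have h1 : ‖x * (1 - h) ^ k‖ ≤ ε / 2 := by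
    apply hnorm _ _ (by positivity)
    intro ω
    have := hN k hk ω
    rw [dist_comm, dist_zero_right, norm_norm] at this
    exact this.le
  linarith

end

end Pool.Agent.helper39
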