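import Pool.Agent.helper39.Rel
import Pool.Agent.helper39.Patch

set_option autoImplicit false

namespace Pool.Agent.helper39

open FreeGroup Filter Topology

noncomputable section

theorem Sec.sub {T S : Om → Op (GG ℝ)} (hT : Sec T) (hS : Sec S) : Sec (fun ω => T ω - S ω) := by
  have h := hT.add ((Sec.algMap (-1)).mul hS)
  convert h using 2 with ω
  simp [sub_eq_add_neg]

theorem Rel.add {T T' : KK →L[ℂ] KK} {S S' : Om → Op (GG ℝ)} (h : Rel T S) (h' : Rel T' S') :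
    Rel (T + T') (fun ω => S ω + S' ω) := by
  intro i
  refine ⟨fun ξ => ?_, fun ξ => ?_⟩
  · rw [_root_.add_apply, _root_.map_add, (h i).1, (h' i).1, _root_.add_apply]
  · rw [star_add, star_add, _root_.add_apply, _root_.map_add, (h i).2, (h' i).2, _root_.add_apply]

theorem Rel.mul {T T' : KK →L[ℂ] KK} {S S' : Om → Op (GG ℝ)} (h : Rel T S) (h' : Rel T' S') :
    Rel (T * T') (fun ω => S ω * S' ω) := by
  intro i
  refine ⟨fun ξ => ?_, fun ξ => ?_⟩
  · rw [mul_apply_eq_comp, (h i).1, (h' i).1]; rfl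
  · rw [star_mul, star_mul, mul_apply_eq_comp, (h' i).2, (h i).2]; rfl

theorem Rel.star {T : KK →L[ℂ] KK} {S : Om → Op (GG ℝ)} (h : Rel T S) :
    Rel (star T) (fun ω => star (S ω)) := by
  intro i
  refine ⟨(h i).2, fun ξ => ?_⟩
  rw [star_star, star_star]
  exact (h i).1 ξ

theorem Rel.algMap (c : ℂ) : Rel (algebraMap ℂ (KK →L[ℂ] KK) c) (fun _ => algebraMap ℂ (Op (GG ℝ)) c) := by
  intro i
  have key : ∀ (c : ℂ) (ξ : KK), Wi i (algebraMap ℂ (KK →L[ℂ] KK) c ξ) = algebraMap ℂ (Op (GG ℝ)) c (Wi i ξ) := by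
    intro c ξ
    rw [Algebra.algebraMap_eq_smul_one, Algebra.algebraMap_eq_smul_one, _root_.smul_apply, _root_.smul_apply,
      one_apply_eq_self, one_apply_eq_self, _root_.map_smul]
  refine ⟨key c, ?_⟩
  rw [← algebraMap_star_comm, ← algebraMap_star_comm]
  exact key _

theorem Rel.sub {T T' : KK →L[ℂ] KK} {S S' : Om → Op (GG ℝ)} (h : Rel T S) (h' : Rel T' S') :
    Rel (T - T') (fun ω => S ω - S' ω) := by
  intro i
  refine ⟨fun ξ => ?_, fun ξ => ?_⟩
  · rw [_root_.sub_apply, _root_.map_sub, (h i).1, (h' i).1, _root_.sub_apply]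
  · rw [star_sub, star_sub, _root_.sub_apply, _root_.map_sub, (h i).2, (h' i).2, _root_.sub_apply]

/-- the algebra of all operators having a section -/
def BP : StarSubalgebra ℂ (KK →L[ℂ] KK) where
  carrier := {T | ∃ S, Sec S ∧ Rel T S}
  mul_mem' := by
    rintro T T' ⟨S, h1, h2⟩ ⟨S', h1', h2'⟩
    exact ⟨_, h1.mul h1', h2.mul h2'⟩
  add_mem' := by
    rintro T T' ⟨S, h1, h2⟩ ⟨S', h1', h2'⟩
    exact ⟨_, h1.add h1', h2.add h2'⟩
  algebraMap_mem' c := ⟨_, Sec.algMap c, Rel.algMap c⟩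
  star_mem' := by
    rintro T ⟨S, h1, h2⟩
    exact ⟨_, h1.star, h2.star⟩

theorem mem_BP {T : KK →L[ℂ] KK} : T ∈ BP ↔ ∃ S, Sec S ∧ Rel T S := Iff.rfl

theorem sec_unique {T : KK →L[ℂ] KK} {S S' : Om → Op (GG ℝ)} (h1 : Sec S) (h2 : Rel T S) (h1' : Sec S')
    (h2' : Rel T S') (ω : Om) : S ω = S' ω := by
  have h := norm_sec_le (h1.sub h1') (h2.sub h2') ω
  rw [sub_self, norm_zero] at h
  exact sub_eq_zero.1 (norm_le_zero_iff.1 h)

theorem isClosed_BP : IsClosed (BP : Set (KK →L[ℂ] KK)) := by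
  apply isClosed_of_closure_subset
  intro T hT
  obtain ⟨Tk, hTk, hlim⟩ := mem_closure_iff_seq_limit.1 hT
  choose Sk hSk hRk using hTk
  have hcau : ∀ ω, CauchySeq (fun k => Sk k ω) := by
    intro ω
    rw [Metric.cauchySeq_iff]
    intro ε hε
    obtain ⟨N, hN⟩ := Metric.cauchySeq_iff.1 hlim.cauchySeq ε hε
    refine ⟨N, fun m hm n hn => ?_⟩
    have := hN m hm n hn
    rw [dist_eq_norm] at this ⊢
    exact (norm_sec_le ((hSk m).sub (hSk n)) ((hRk m).sub (hRk n)) ω).trans_lt this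
  have hex : ∀ ω, ∃ y, Tendsto (fun k => Sk k ω) atTop (𝓝 y) := fun ω =>
    cauchySeq_tendsto_of_complete (hcau ω)
  choose S hS using hex
  have hbound : ∀ ω k, ‖S ω - Sk k ω‖ ≤ ‖T - Tk k‖ := by
    intro ω k
    have h1 : Tendsto (fun l => ‖Sk l ω - Sk k ω‖) atTop (𝓝 ‖S ω - Sk k ω‖) :=
      ((hS ω).sub_const _).norm
    have h2 : Tendsto (fun l => ‖Tk l - Tk k‖) atTop (𝓝 ‖T - Tk k‖) := (hlim.sub_const _).norm
    exact le_of_tendsto_of_tendsto' h1 h2 fun l =>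
      norm_sec_le ((hSk l).sub (hSk k)) ((hRk l).sub (hRk k)) ω
  refine ⟨S, ?_, ?_⟩
  · apply Sec.limit
    intro ε hε
    have h3 : Tendsto (fun k => ‖T - Tk k‖) atTop (𝓝 0) := by
      have := (tendsto_const_nhds (x := T)).sub hlim
      rw [sub_self] at this
      simpa using this.norm
    obtain ⟨k, hk⟩ := (h3.eventually (gt_mem_nhds hε)).exists
    exact ⟨Sk k, hSk k, fun ω => (hbound ω k).trans hk.le⟩
  · intro i
    refine ⟨fun ξ => ?_, fun ξ => ?_⟩
    · have h1 : Tendsto (fun k => Wi i (Tk k ξ)) atTop (𝓝 (Wi i (T ξ))) := by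
        apply ((Wi i).continuous.tendsto _).comp
        exact ((ContinuousLinearMap.apply ℂ KK ξ).continuous.tendsto _).comp hlim
      have h2 : Tendsto (fun k => Sk k (om i) (Wi i ξ)) atTop (𝓝 (S (om i) (Wi i ξ))) :=
        ((ContinuousLinearMap.apply ℂ (E (GG ℝ)) (Wi i ξ)).continuous.tendsto _).comp (hS (om i))
      refine tendsto_nhds_unique h1 (h2.congr fun k => ?_)
      exact ((hRk k i).1 ξ).symm
    · have hlim' : Tendsto (fun k => star (Tk k)) atTop (𝓝 (star T)) := (continuous_star.tendsto _).comp hlim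
      have h1 : Tendsto (fun k => Wi i (star (Tk k) ξ)) atTop (𝓝 (Wi i (star T ξ))) := by
        apply ((Wi i).continuous.tendsto _).comp
        exact ((ContinuousLinearMap.apply ℂ KK ξ).continuous.tendsto _).comp hlim'
      have h2 : Tendsto (fun k => star (Sk k (om i)) (Wi i ξ)) atTop (𝓝 (star (S (om i)) (Wi i ξ))) :=
        ((ContinuousLinearMap.apply ℂ (E (GG ℝ)) (Wi i ξ)).continuous.tendsto _).comp
          ((continuous_star.tendsto _).comp (hS (om i)))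
      refine tendsto_nhds_unique h1 (h2.congr fun k => ?_)
      exact ((hRk k i).2 ξ).symm

/-- the section of an element of `BP` -/
def scn (T : KK →L[ℂ] KK) (hT : T ∈ BP) : Om → Op (GG ℝ) := Classical.choose hT

theorem scn_sec (T : KK →L[ℂ] KK) (hT : T ∈ BP) : Sec (scn T hT) := (Classical.choose_spec hT).1

theorem scn_rel (T : KK →L[ℂ] KK) (hT : T ∈ BP) : Rel T (scn T hT) := (Classical.choose_spec hT).2

theorem scn_eq {T : KK →L[ℂ] KK} (hT : T ∈ BP) {S : Om → Op (GG ℝ)} (h1 : Sec S) (h2 : Rel T S) (ω : Om) :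
    scn T hT ω = S ω :=
  sec_unique (scn_sec T hT) (scn_rel T hT) h1 h2 ω

theorem scn_mul {T T' : KK →L[ℂ] KK} (hT : T ∈ BP) (hT' : T' ∈ BP) (h : T * T' ∈ BP) (ω : Om) :
    scn (T * T') h ω = scn T hT ω * scn T' hT' ω :=
  scn_eq h ((scn_sec T hT).mul (scn_sec T' hT')) ((scn_rel T hT).mul (scn_rel T' hT')) ω

theorem scn_add {T T' : KK →L[ℂ] KK} (hT : T ∈ BP) (hT' : T' ∈ BP) (h : T + T' ∈ BP) (ω : Om) :
    scn (T + T') h ω = scn T hT ω + scn T' hT' ω :=
  scn_eq h ((scn_sec T hT).add (scn_sec T' hT')) ((scn_rel T hT).add (scn_rel T' hT')) ω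

theorem scn_star {T : KK →L[ℂ] KK} (hT : T ∈ BP) (h : star T ∈ BP) (ω : Om) :
    scn (star T) h ω = star (scn T hT ω) :=
  scn_eq h (scn_sec T hT).star (scn_rel T hT).star ω

theorem scn_algMap (c : ℂ) (h : algebraMap ℂ (KK →L[ℂ] KK) c ∈ BP) (ω : Om) :
    scn (algebraMap ℂ (KK →L[ℂ] KK) c) h ω = algebraMap ℂ (Op (GG ℝ)) c :=
  scn_eq h (Sec.algMap c) (Rel.algMap c) ω

theorem scn_one (h : (1 : KK →L[ℂ] KK) ∈ BP) (ω : Om) : scn (1 : KK →L[ℂ] KK) h ω = 1 := by
  refine scn_eq h (S := fun _ => 1) ?_ ?_ ω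
  · have := Sec.algMap 1
    rwa [_root_.map_one] at this
  · have := Rel.algMap 1
    rwa [_root_.map_one, _root_.map_one] at this

theorem scn_zero (h : (0 : KK →L[ℂ] KK) ∈ BP) (ω : Om) : scn (0 : KK →L[ℂ] KK) h ω = 0 := by
  refine scn_eq h (S := fun _ => 0) ?_ ?_ ω
  · have := Sec.algMap 0
    rwa [_root_.map_zero] at this
  · have := Rel.algMap 0
    rwa [_root_.map_zero, _root_.map_zero] at this

theorem scn_congr {T T' : KK →L[ℂ] KK} (e : T = T') (hT : T ∈ BP) (hT' : T' ∈ BP) (ω : Om) :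
    scn T hT ω = scn T' hT' ω := by
  subst e; rfl

section

variable (B : StarSubalgebra ℂ (KK →L[ℂ] KK)) (h : B ≤ BP)

theorem th_one (ω : Om) : scn ((1 : B) : KK →L[ℂ] KK) (h (1 : B).2) ω = 1 := by
  rw [scn_congr (OneMemClass.coe_one B) _ (one_mem _)]
  exact scn_one _ _

theorem th_zero (ω : Om) : scn ((0 : B) : KK →L[ℂ] KK) (h (0 : B).2) ω = 0 := by
  rw [scn_congr (ZeroMemClass.coe_zero B) _ (zero_mem _)]
  exact scn_zero _ _

theorem th_mul (ω : Om) (a b : B) : scn ((a * b : B) : KK →L[ℂ] KK) (h (a * b).2) ω =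
    scn (a : KK →L[ℂ] KK) (h a.2) ω * scn (b : KK →L[ℂ] KK) (h b.2) ω := by
  have e : ((a * b : B) : KK →L[ℂ] KK) = (a : KK →L[ℂ] KK) * (b : KK →L[ℂ] KK) := rfl
  rw [scn_congr e _ (mul_mem (h a.2) (h b.2))]
  exact scn_mul _ _ _ _

theorem th_add (ω : Om) (a b : B) : scn ((a + b : B) : KK →L[ℂ] KK) (h (a + b).2) ω =
    scn (a : KK →L[ℂ] KK) (h a.2) ω + scn (b : KK →L[ℂ] KK) (h b.2) ω := by
  have e : ((a + b : B) : KK →L[ℂ] KK) = (a : KK →L[ℂ] KK) + (b : KK →L[ℂ] KK) := rfl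
  rw [scn_congr e _ (add_mem (h a.2) (h b.2))]
  exact scn_add _ _ _ _

theorem th_star (ω : Om) (a : B) : scn ((star a : B) : KK →L[ℂ] KK) (h (star a).2) ω =
    star (scn (a : KK →L[ℂ] KK) (h a.2) ω) := by
  have e : ((star a : B) : KK →L[ℂ] KK) = star (a : KK →L[ℂ] KK) := rfl
  rw [scn_congr e _ (star_mem (h a.2))]
  exact scn_star _ _ _

theorem th_algMap (ω : Om) (c : ℂ) : scn ((algebraMap ℂ B c : B) : KK →L[ℂ] KK) (h (algebraMap ℂ B c).2) ω =
    algebraMap ℂ (Op (GG ℝ)) c := by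
  have e : ((algebraMap ℂ B c : B) : KK →L[ℂ] KK) = algebraMap ℂ (KK →L[ℂ] KK) c := rfl
  rw [scn_congr e _ (algebraMap_mem BP c)]
  exact scn_algMap _ _ _

/-- the fibre maps as star homomorphisms -/
def Th (ω : Om) : B →⋆ₐ[ℂ] Op (GG ℝ) where
  toFun T := scn T (h T.2) ω
  map_one' := th_one B h ω
  map_mul' := th_mul B h ω
  map_zero' := th_zero B h ω
  map_add' := th_add B h ω
  commutes' := th_algMap B h ω
  map_star' := th_star B h ω

theorem Th_apply (ω : Om) (T : B) : Th B h ω T = scn T (h T.2) ω := rfl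

end

instance : Countable Om := by
  have : Countable (OnePoint ℕ) := inferInstanceAs (Countable (Option ℕ))
  infer_instance

/-- Every closed star subalgebra of `BP` has the good elements. -/
theorem HL_of_le (B : StarSubalgebra ℂ (KK →L[ℂ] KK)) [hB : IsClosed (B : Set (KK →L[ℂ] KK))] (h : B ≤ BP) :
    HL B := by
  apply HL_of_fibres (Ω := Om) (α := ℝ) (fun ω => Th B h ω)
  · intro ω a
    exact (scn_sec _ (h a.2)).mem_Cr ω
  · intro a
    exact (scn_sec _ (h a.2)).continuous_norm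
  · intro a ε hε hω
    exact (scn_rel _ (h a.2)).norm_le hε fun i => hω (om i)

end

end Pool.Agent.helper39
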