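import Mathlib

set_option autoImplicit false

namespace Pool.Agent.helper39

noncomputable section

variable {α : Type*}

theorem countable_finsets {R : Set α} (hR : R.Countable) : {r : Finset α | (r : Set α) ⊆ R}.Countable := by
  have h := Set.countable_ofPred_finite_subset hR
  have h2 := h.preimage (f := fun r : Finset α => (r : Set α)) Finset.coe_injective
  refine h2.mono ?_
  intro r hr
  exact ⟨r.finite_toSet, hr⟩

theorem finset_subset_iUnion_mono (R : ℕ → Set α) (hR : Monotone R) (r : Finset α)
    (h : (r : Set α) ⊆ ⋃ n, R n) : ∃ n, (r : Set α) ⊆ R n := by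
  classical
  induction r using Finset.induction_on with
  | empty => exact ⟨0, by simp⟩
  | insert a s ha ih =>
    rw [Finset.coe_insert] at h
    obtain ⟨n, hn⟩ := ih ((Set.subset_insert _ _).trans h)
    obtain ⟨m, hm⟩ := Set.mem_iUnion.1 (h (Set.mem_insert _ _))
    refine ⟨max n m, ?_⟩
    rw [Finset.coe_insert, Set.insert_subset_iff]
    exact ⟨hR (le_max_right _ _) hm, hn.trans (hR (le_max_left _ _))⟩

/-- Closing off a countable set under a countable valued function of finite subsets. -/
theorem exists_closed_countable (F : Finset α → Set α) (hF : ∀ r, (F r).Countable) :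
    ∃ R : Set α, R.Countable ∧ ∀ r : Finset α, (r : Set α) ⊆ R → F r ⊆ R := by
  classical
  set step : Set α → Set α := fun R => R ∪ ⋃ r ∈ {r : Finset α | (r : Set α) ⊆ R}, F r with hstep
  set S : ℕ → Set α := fun n => step^[n] ∅ with hS
  have hsucc : ∀ n, S (n + 1) = step (S n) := fun n => Function.iterate_succ_apply' step n ∅
  have hcount : ∀ n, (S n).Countable := by
    intro n
    induction n with
    | zero => simp [hS]
    | succ n ih =>
      rw [hsucc]
      refine ih.union ?_
      exact (countable_finsets ih).biUnion fun r _ => hF r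
  have hmono : Monotone S := monotone_nat_of_le_succ fun n => by
    rw [hsucc]; exact Set.subset_union_left
  refine ⟨⋃ n, S n, Set.countable_iUnion hcount, ?_⟩
  intro r hr
  obtain ⟨n, hn⟩ := finset_subset_iUnion_mono S hmono r hr
  refine Set.Subset.trans ?_ (Set.subset_iUnion S (n + 1))
  rw [hsucc]
  refine Set.Subset.trans ?_ Set.subset_union_right
  exact Set.subset_biUnion_of_mem (u := fun r => F r) hn

/-- Either infinitely many pairwise disjoint tuples, or a finite set meeting all of them. -/
theorem exists_seq_or_hit {k : ℕ} (S : Set (Fin k → α)) :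
    (∃ s : ℕ → Fin k → α, (∀ i, s i ∈ S) ∧ ∀ i j, i ≠ j → Disjoint (Set.range (s i)) (Set.range (s j))) ∨
    ∃ V : Finset α, ∀ s ∈ S, ∃ j, s j ∈ V := by
  classical
  by_cases h : ∃ V : Finset α, ∀ s ∈ S, ∃ j, s j ∈ V
  · exact Or.inr h
  · left
    push Not at h
    obtain ⟨s, h1, h2⟩ := exists_seq_of_forall_finset_exists (fun s : Fin k → α => s ∈ S)
      (fun s t => Disjoint (Set.range s) (Set.range t)) (by
        intro A hA
        obtain ⟨t, ht, ht2⟩ := h (A.biUnion fun s => Finset.univ.image s)
        refine ⟨t, ht, ?_⟩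
        intro s hs
        rw [Set.disjoint_left]
        rintro _ ⟨j, rfl⟩ ⟨i, hi⟩
        apply ht2 i
        rw [Finset.mem_biUnion]
        exact ⟨s, hs, Finset.mem_image.2 ⟨j, Finset.mem_univ _, hi.symm⟩⟩)
    refine ⟨s, h1, ?_⟩
    intro i j hij
    rcases lt_or_gt_of_ne hij with h | h
    · exact h2 i j h
    · exact (h2 j i h).symm

end

end Pool.Agent.helper39
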