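import Mathlib

set_option autoImplicit false

namespace Pool.Agent.helper39

noncomputable section

/-- cut-off functions -/
def gf (n : ℕ) (t : ℝ) : ℝ := max 0 (min 1 (2 ^ n * t - 1))

/-- differences of the cut-off functions -/
def Ff (n : ℕ) (t : ℝ) : ℝ := gf (n + 1) t - gf n t

theorem continuous_gf (n : ℕ) : Continuous (gf n) := by unfold gf; fun_prop

theorem continuous_Ff (n : ℕ) : Continuous (Ff n) :=
  (continuous_gf (n + 1)).sub (continuous_gf n)

theorem gf_nonneg (n : ℕ) (t : ℝ) : 0 ≤ gf n t := le_max_left _ _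

theorem gf_le_one (n : ℕ) (t : ℝ) : gf n t ≤ 1 := max_le zero_le_one (min_le_left _ _)

theorem gf_zero {t : ℝ} (ht : t ≤ 1) : gf 0 t = 0 := by
  unfold gf
  apply max_eq_left
  apply (min_le_right _ _).trans
  simp only [pow_zero, one_mul]; linarith

theorem gf_mono {t : ℝ} (ht : 0 ≤ t) {n m : ℕ} (hnm : n ≤ m) : gf n t ≤ gf m t := by
  unfold gf
  have : (2 : ℝ) ^ n ≤ 2 ^ m := pow_le_pow_right₀ (by norm_num) hnm
  gcongr

theorem Ff_nonneg (n : ℕ) {t : ℝ} (ht : 0 ≤ t) : 0 ≤ Ff n t :=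
  sub_nonneg.2 (gf_mono ht (Nat.le_succ n))

theorem Ff_ne_zero {n : ℕ} {t : ℝ} (h : Ff n t ≠ 0) (ht : 0 ≤ t) :
    1 < 2 ^ (n + 1) * t ∧ 2 ^ n * t < 2 := by
  unfold Ff gf at h
  constructor
  · by_contra hc
    push Not at hc
    apply h
    have h1 : (2:ℝ) ^ n * t ≤ 1 := by
      have : (2:ℝ) ^ (n + 1) * t = 2 * (2 ^ n * t) := by ring
      have h0 : 0 ≤ (2:ℝ) ^ n * t := by positivity
      linarith
    rw [max_eq_left, max_eq_left, sub_zero]
    · exact (min_le_right _ _).trans (by linarith)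
    · exact (min_le_right _ _).trans (by linarith)
  · by_contra hc
    push Not at hc
    apply h
    have h1 : (2:ℝ) ≤ 2 ^ (n + 1) * t := by
      have : (2:ℝ) ^ (n + 1) * t = 2 * (2 ^ n * t) := by ring
      linarith
    rw [min_eq_left (by linarith), min_eq_left (by linarith), sub_self]

theorem sum_Ff (N : ℕ) (t : ℝ) : ∑ n ∈ Finset.range N, Ff n t = gf N t - gf 0 t :=
  Finset.sum_range_sub (fun n => gf n t) N

theorem one_sub_gf_ne_zero {N : ℕ} {t : ℝ} (h : 1 - gf N t ≠ 0) : 2 ^ N * t < 2 := by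
  by_contra hc
  push Not at hc
  apply h
  unfold gf
  rw [min_eq_left (by linarith)]
  norm_num

theorem card_support_le (s : Finset ℕ) {t : ℝ} (ht : 0 ≤ t) : (s.filter fun n => Ff n t ≠ 0).card ≤ 2 := by
  classical
  by_cases he : (s.filter fun n => Ff n t ≠ 0).Nonempty
  · set k := (s.filter fun n => Ff n t ≠ 0).min' he with hk
    have hsub : (s.filter fun n => Ff n t ≠ 0) ⊆ {k, k + 1} := by
      intro n hn
      have hkn : k ≤ n := Finset.min'_le _ _ hn
      have hkm := Finset.min'_mem _ he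
      rw [← hk] at hkm
      obtain ⟨h1, _⟩ := Ff_ne_zero (Finset.mem_filter.1 hkm).2 ht
      obtain ⟨_, h2⟩ := Ff_ne_zero (Finset.mem_filter.1 hn).2 ht
      by_contra hc
      simp only [Finset.mem_insert, Finset.mem_singleton, not_or] at hc
      have h3 : k + 2 ≤ n := by omega
      have h4 : (2:ℝ) ^ (k + 2) * t ≤ 2 ^ n * t := by
        gcongr
        norm_num
      have h5 : (2:ℝ) ^ (k + 2) * t = 2 * (2 ^ (k + 1) * t) := by ring
      linarith
    exact (Finset.card_le_card hsub).trans Finset.card_le_two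
  · rw [Finset.not_nonempty_iff_eq_empty] at he
    rw [he]; simp

/-- signed sums of square roots -/
def Sf (s : Finset ℕ) (ε : ℕ → ℝ) (t : ℝ) : ℝ := ∑ n ∈ s, ε n * Real.sqrt (Ff n t)

theorem continuous_Sf (s : Finset ℕ) (ε : ℕ → ℝ) : Continuous (Sf s ε) := by
  unfold Sf
  refine continuous_finsetSum _ fun n _ => ?_
  exact continuous_const.mul (Real.continuous_sqrt.comp (continuous_Ff n))

theorem abs_Sf_le (s : Finset ℕ) (ε : ℕ → ℝ) (hε : ∀ n, ε n = 1 ∨ ε n = -1) {t : ℝ} (ht : 0 ≤ t)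
    (_ht1 : t ≤ 1) : |Sf s ε t| ≤ Real.sqrt 2 := by
  classical
  apply Real.abs_le_sqrt
  have h1 : Sf s ε t = ∑ n ∈ s.filter (fun n => Ff n t ≠ 0), ε n * Real.sqrt (Ff n t) := by
    unfold Sf
    rw [Finset.sum_filter]
    refine Finset.sum_congr rfl fun n _ => ?_
    split_ifs with h
    · rfl
    · push Not at h
      rw [h]; simp
  have hsq : ∀ n, (ε n * Real.sqrt (Ff n t)) ^ 2 = Ff n t := by
    intro n
    rw [mul_pow, Real.sq_sqrt (Ff_nonneg n ht)]
    rcases hε n with h | h <;> rw [h] <;> norm_num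
  have h2 : ∑ n ∈ s.filter (fun n => Ff n t ≠ 0), Ff n t ≤ 1 := by
    obtain ⟨N, hN⟩ : ∃ N, s ⊆ Finset.range N := ⟨s.sup id + 1, fun n hn => by
      rw [Finset.mem_range]
      exact Nat.lt_succ_of_le (Finset.le_sup (f := id) hn)⟩
    calc ∑ n ∈ s.filter (fun n => Ff n t ≠ 0), Ff n t ≤ ∑ n ∈ Finset.range N, Ff n t := by
          refine Finset.sum_le_sum_of_subset_of_nonneg ?_ fun n _ _ => Ff_nonneg n ht
          exact (Finset.filter_subset _ _).trans hN
      _ = gf N t - gf 0 t := sum_Ff N t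
      _ ≤ 1 := by
          have := gf_nonneg 0 t
          have := gf_le_one N t
          linarith
  calc Sf s ε t ^ 2 = (∑ n ∈ s.filter (fun n => Ff n t ≠ 0), ε n * Real.sqrt (Ff n t)) ^ 2 := by rw [h1]
    _ ≤ (s.filter fun n => Ff n t ≠ 0).card * ∑ n ∈ s.filter (fun n => Ff n t ≠ 0), (ε n * Real.sqrt (Ff n t)) ^ 2 :=
        sq_sum_le_card_mul_sum_sq
    _ = (s.filter fun n => Ff n t ≠ 0).card * ∑ n ∈ s.filter (fun n => Ff n t ≠ 0), Ff n t := by
        simp only [hsq]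
    _ ≤ 2 * 1 := by
        refine mul_le_mul ?_ h2 (Finset.sum_nonneg fun n _ => Ff_nonneg n ht) (by norm_num)
        exact_mod_cast card_support_le s ht
    _ = 2 := by norm_num

theorem Sf_tail (s : Finset ℕ) (ε : ℕ → ℝ) (N : ℕ) (hs : ∀ n ∈ s, N + 1 ≤ n) {t : ℝ} (ht : 0 ≤ t) :
    Sf s ε t = (1 - gf N t) * Sf s ε t := by
  by_cases h : Sf s ε t = 0
  · rw [h]; simp
  · have : ∃ n ∈ s, Ff n t ≠ 0 := by
      by_contra hc
      push Not at hc
      apply h
      unfold Sf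
      refine Finset.sum_eq_zero fun n hn => ?_
      rw [hc n hn]; simp
    obtain ⟨n, hn, hne⟩ := this
    obtain ⟨_, h2⟩ := Ff_ne_zero hne ht
    have h3 : (2:ℝ) ^ (N + 1) * t ≤ 2 ^ n * t := by
      have := hs n hn
      gcongr
      norm_num
    have h4 : (2:ℝ) ^ (N + 1) * t = 2 * (2 ^ N * t) := by ring
    have h5 : gf N t = 0 := by
      unfold gf
      apply max_eq_left
      exact (min_le_right _ _).trans (by linarith)
    rw [h5]; ring

/-- quotient of the square root by `t` -/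
def kf (n : ℕ) (t : ℝ) : ℝ := Real.sqrt (Ff n t) / max t (1 / 2 ^ (n + 1))

theorem continuous_kf (n : ℕ) : Continuous (kf n) := by
  unfold kf
  refine (Real.continuous_sqrt.comp (continuous_Ff n)).div (by fun_prop) fun t => ?_
  have : 0 < max t (1 / 2 ^ (n + 1)) := lt_max_of_lt_right (by positivity)
  exact this.ne'

theorem kf_mul {n : ℕ} {t : ℝ} (ht : 0 ≤ t) : kf n t * t = Real.sqrt (Ff n t) := by
  unfold kf
  by_cases h : Ff n t = 0
  · rw [h]; simp
  · obtain ⟨h1, _⟩ := Ff_ne_zero h ht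
    have hmax : max t (1 / 2 ^ (n + 1)) = t := by
      apply max_eq_left
      rw [div_le_iff₀ (by positivity)]
      linarith
    have ht0 : 0 < t := by
      by_contra hc
      have : t = 0 := le_antisymm (not_lt.1 hc) ht
      rw [this] at h1
      norm_num at h1
    rw [hmax]
    field_simp

/-- quotient of `1 - gf N` by a power of `1 - t` -/
def cf (k N : ℕ) (t : ℝ) : ℝ := (1 - gf N t) / (max (1 - t) (1 / 2)) ^ k

theorem continuous_cf (k N : ℕ) : Continuous (cf k N) := by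
  unfold cf
  refine (continuous_const.sub (continuous_gf N)).div (by fun_prop) fun t => ?_
  have : 0 < max (1 - t) (1 / 2) := lt_max_of_lt_right (by norm_num)
  exact (pow_pos this k).ne'

theorem cf_mul {k N : ℕ} (hN : 2 ≤ N) {t : ℝ} (ht : 0 ≤ t) : 1 - gf N t = (1 - t) ^ k * cf k N t := by
  by_cases h : 1 - gf N t = 0
  · unfold cf; rw [h]; simp
  · have h1 := one_sub_gf_ne_zero h
    have h2 : (4:ℝ) ≤ 2 ^ N := by
      calc (4:ℝ) = 2 ^ 2 := by norm_num
        _ ≤ 2 ^ N := pow_le_pow_right₀ (by norm_num) hN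
    have h3 : 4 * t < 2 := lt_of_le_of_lt (by gcongr) h1
    have h4 : max (1 - t) (1 / 2) = 1 - t := max_eq_left (by linarith)
    unfold cf
    rw [h4]
    have : (1 - t) ^ k ≠ 0 := pow_ne_zero _ (by linarith)
    field_simp

theorem abs_cf_le {k N : ℕ} (hN : 2 ≤ N) (hk : 4 * (k : ℝ) ≤ 2 ^ N) {t : ℝ} (ht : 0 ≤ t) :
    |cf k N t| ≤ 2 := by
  by_cases h : 1 - gf N t = 0
  · unfold cf; rw [h]; simp
  · have h1 := one_sub_gf_ne_zero h
    have h2 : (4:ℝ) ≤ 2 ^ N := by
      calc (4:ℝ) = 2 ^ 2 := by norm_num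
        _ ≤ 2 ^ N := pow_le_pow_right₀ (by norm_num) hN
    have h3 : 4 * t < 2 := lt_of_le_of_lt (by gcongr) h1
    have h4 : max (1 - t) (1 / 2) = 1 - t := max_eq_left (by linarith)
    have h5 : 1 + (k : ℝ) * (-t) ≤ (1 + -t) ^ k := one_add_mul_le_pow (by linarith) k
    have h6 : (k : ℝ) * t ≤ 1 / 2 := by
      have : 4 * (k : ℝ) * t ≤ 2 ^ N * t := by gcongr
      linarith
    have h7 : 1 / 2 ≤ (1 - t) ^ k := by
      have e : (1 + -t) = 1 - t := by ring
      rw [e] at h5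
      linarith
    unfold cf
    rw [h4, abs_div, abs_of_nonneg (sub_nonneg.2 (gf_le_one N t)), abs_of_pos (by linarith),
      div_le_iff₀ (by linarith)]
    have := gf_nonneg N t
    linarith

end

end Pool.Agent.helper39
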