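import Pool.Agent.helper39.Hered
import Pool.Agent.helper39.Part

set_option autoImplicit false

namespace Pool.Agent.helper39

open Filter Topology

noncomputable section

universe u v

theorem sign_key {E3 : Type*} [NormedAddCommGroup E3] [NormedSpace ℂ E3] {s : Finset ℕ} {k : ℕ}
    (hk : k ∉ s) (c : ℕ → E3) (c0 : E3) (C : ℝ)
    (h : ∀ ε : ℕ → ℝ, (∀ n, ε n = 1 ∨ ε n = -1) → ‖c0 + ∑ n ∈ insert k s, (ε n : ℂ) • c n‖ ≤ C)
    (δ : ℝ) (hδ : δ = 1 ∨ δ = -1) (ε : ℕ → ℝ) (hε : ∀ n, ε n = 1 ∨ ε n = -1) :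
    ‖(c0 + (δ : ℂ) • c k) + ∑ n ∈ s, (ε n : ℂ) • c n‖ ≤ C := by
  classical
  have h1 := h (Function.update ε k δ) (fun n => by
    by_cases hn : n = k
    · subst hn; simpa using hδ
    · simpa [hn] using hε n)
  rw [Finset.sum_insert hk, Function.update_self] at h1
  have h2 : ∑ n ∈ s, ((Function.update ε k δ n : ℝ) : ℂ) • c n = ∑ n ∈ s, (ε n : ℂ) • c n := by
    refine Finset.sum_congr rfl fun n hn => ?_
    have : n ≠ k := fun h => hk (h ▸ hn)
    rw [Function.update_of_ne this]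
  rw [h2] at h1
  rwa [add_assoc]

/-- averaging over signs -/
theorem sign_avg {E1 E2 X : Type*} [NormedAddCommGroup E1] [NormedSpace ℂ E1]
    [NormedAddCommGroup E2] [NormedSpace ℂ E2] [NormedAddCommGroup X] [NormedSpace ℂ X]
    (β : E1 →L[ℂ] E2 →L[ℂ] X) (s : Finset ℕ) (a : ℕ → E1) (b : ℕ → E2) {A B : ℝ} :
    ∀ (a0 : E1) (b0 : E2),
      (∀ ε : ℕ → ℝ, (∀ n, ε n = 1 ∨ ε n = -1) → ‖a0 + ∑ n ∈ s, (ε n : ℂ) • a n‖ ≤ A) →
      (∀ ε : ℕ → ℝ, (∀ n, ε n = 1 ∨ ε n = -1) → ‖b0 + ∑ n ∈ s, (ε n : ℂ) • b n‖ ≤ B) →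
      ‖β a0 b0 + ∑ n ∈ s, β (a n) (b n)‖ ≤ ‖β‖ * A * B := by
  classical
  induction s using Finset.induction_on with
  | empty =>
    intro a0 b0 hA hB
    have h1 := hA (fun _ => 1) (fun _ => Or.inl rfl)
    have h2 := hB (fun _ => 1) (fun _ => Or.inl rfl)
    simp only [Finset.sum_empty, add_zero] at h1 h2 ⊢
    calc ‖β a0 b0‖ ≤ ‖β‖ * ‖a0‖ * ‖b0‖ := β.le_opNorm₂ a0 b0
      _ ≤ ‖β‖ * A * B := by
        have : 0 ≤ A := (norm_nonneg _).trans h1
        gcongr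
  | insert k s hk ih =>
    intro a0 b0 hA hB
    have p := ih (a0 + ((1:ℝ) : ℂ) • a k) (b0 + ((1:ℝ) : ℂ) • b k) (sign_key hk a a0 A hA 1 (Or.inl rfl)) (sign_key hk b b0 B hB 1 (Or.inl rfl))
    have m := ih (a0 + ((-1:ℝ) : ℂ) • a k) (b0 + ((-1:ℝ) : ℂ) • b k) (sign_key hk a a0 A hA (-1) (Or.inr rfl)) (sign_key hk b b0 B hB (-1) (Or.inr rfl))
    rw [Finset.sum_insert hk]
    have e : (2 : ℂ) • (β a0 b0 + (β (a k) (b k) + ∑ n ∈ s, β (a n) (b n))) =
        (β (a0 + ((1:ℝ) : ℂ) • a k) (b0 + ((1:ℝ) : ℂ) • b k) + ∑ n ∈ s, β (a n) (b n)) +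
        (β (a0 + ((-1:ℝ) : ℂ) • a k) (b0 + ((-1:ℝ) : ℂ) • b k) + ∑ n ∈ s, β (a n) (b n)) := by
      simp only [map_add, map_smul, _root_.add_apply, _root_.smul_apply]
      push_cast
      module
    have h3 : 2 * ‖β a0 b0 + (β (a k) (b k) + ∑ n ∈ s, β (a n) (b n))‖ ≤ 2 * (‖β‖ * A * B) := by
      calc 2 * ‖β a0 b0 + (β (a k) (b k) + ∑ n ∈ s, β (a n) (b n))‖
          = ‖(2 : ℂ) • (β a0 b0 + (β (a k) (b k) + ∑ n ∈ s, β (a n) (b n)))‖ := by
            rw [norm_smul]; norm_num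
        _ = ‖(β (a0 + ((1:ℝ) : ℂ) • a k) (b0 + ((1:ℝ) : ℂ) • b k) + ∑ n ∈ s, β (a n) (b n)) +
              (β (a0 + ((-1:ℝ) : ℂ) • a k) (b0 + ((-1:ℝ) : ℂ) • b k) + ∑ n ∈ s, β (a n) (b n))‖ := by
            rw [e]
        _ ≤ ‖β (a0 + ((1:ℝ) : ℂ) • a k) (b0 + ((1:ℝ) : ℂ) • b k) + ∑ n ∈ s, β (a n) (b n)‖ +
              ‖β (a0 + ((-1:ℝ) : ℂ) • a k) (b0 + ((-1:ℝ) : ℂ) • b k) + ∑ n ∈ s, β (a n) (b n)‖ :=
            norm_add_le _ _
        _ ≤ 2 * (‖β‖ * A * B) := by linarith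
    linarith

section cstar

variable {A : Type v} [CStarAlgebra A]

/-- square roots of the partition functions, evaluated at `h` -/
def ph (h : A) (n : ℕ) : A := cfc (fun t => Real.sqrt (Ff n t)) h

/-- the tail -/
def tl (h : A) (N : ℕ) : A := cfc (fun t => 1 - gf N t) h

variable {h : A} (hsa : IsSelfAdjoint h) (hsp : spectrum ℝ h ⊆ Set.Icc 0 1)

theorem continuous_sqrtFf (n : ℕ) : Continuous fun t => Real.sqrt (Ff n t) :=
  Real.continuous_sqrt.comp (continuous_Ff n)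

include hsa hsp in
theorem ph_eq (n : ℕ) : ph h n = cfc (kf n) h * h := by
  have h1 : cfc (kf n) h * h = cfc (kf n) h * cfc (fun t : ℝ => t) h := by rw [cfc_id' ℝ h]
  rw [h1, ← cfc_mul (kf n) (fun t => t) h (continuous_kf n).continuousOn (by fun_prop)]
  unfold ph
  apply cfc_congr
  intro t ht
  exact (kf_mul (hsp ht).1).symm

include hsp in
theorem ph_mul_self (n : ℕ) : ph h n * ph h n = cfc (Ff n) h := by
  unfold ph
  rw [← cfc_mul _ _ h (continuous_sqrtFf n).continuousOn (continuous_sqrtFf n).continuousOn]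
  apply cfc_congr
  intro t ht
  exact Real.mul_self_sqrt (Ff_nonneg n (hsp ht).1)

theorem sum_ph (s : Finset ℕ) (ε : ℕ → ℝ) : ∑ n ∈ s, (ε n : ℂ) • ph h n = cfc (Sf s ε) h := by
  unfold ph
  have h1 : Sf s ε = ∑ n ∈ s, fun t => ε n * Real.sqrt (Ff n t) := by
    funext t
    rw [Finset.sum_apply]; rfl
  rw [h1, cfc_sum (fun n t => ε n * Real.sqrt (Ff n t)) h s
    (fun n _ => (continuous_const.mul (continuous_sqrtFf n)).continuousOn)]
  refine Finset.sum_congr rfl fun n _ => ?_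
  rw [cfc_const_mul (ε n) _ h (continuous_sqrtFf n).continuousOn, Complex.coe_smul]

include hsp in
theorem norm_sum_ph_le (s : Finset ℕ) (ε : ℕ → ℝ) (hε : ∀ n, ε n = 1 ∨ ε n = -1) :
    ‖∑ n ∈ s, (ε n : ℂ) • ph h n‖ ≤ Real.sqrt 2 := by
  rw [sum_ph]
  apply norm_cfc_le (Real.sqrt_nonneg _)
  intro t ht
  exact abs_Sf_le s ε hε (hsp ht).1 (hsp ht).2

include hsp in
theorem norm_mul_sum_ph_le (x : A) (s : Finset ℕ) (ε : ℕ → ℝ) (hε : ∀ n, ε n = 1 ∨ ε n = -1) (N : ℕ)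
    (hs : ∀ n ∈ s, N + 1 ≤ n) :
    ‖∑ n ∈ s, (ε n : ℂ) • (x * ph h n)‖ ≤ ‖x * tl h N‖ * Real.sqrt 2 := by
  have h1 : ∑ n ∈ s, (ε n : ℂ) • (x * ph h n) = x * tl h N * ∑ n ∈ s, (ε n : ℂ) • ph h n := by
    have h2 : ∑ n ∈ s, (ε n : ℂ) • ph h n = tl h N * ∑ n ∈ s, (ε n : ℂ) • ph h n := by
      rw [sum_ph]
      unfold tl
      rw [← cfc_mul (fun t => 1 - gf N t) (Sf s ε) h (continuous_const.sub (continuous_gf N)).continuousOn
        (continuous_Sf s ε).continuousOn]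
      apply cfc_congr
      intro t ht
      exact Sf_tail s ε N hs (hsp ht).1
    rw [mul_assoc, ← h2, Finset.mul_sum]
    refine Finset.sum_congr rfl fun n _ => ?_
    rw [mul_smul_comm]
  rw [h1]
  refine (norm_mul_le _ _).trans ?_
  gcongr
  exact norm_sum_ph_le hsp s ε hε

include hsa hsp in
theorem tendsto_tl {x : A} (hx : Tendsto (fun n : ℕ => x * (1 - h) ^ n) atTop (𝓝 0)) :
    Tendsto (fun N => ‖x * tl h N‖) atTop (𝓝 0) := by
  rw [Metric.tendsto_atTop]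
  intro ε hε
  obtain ⟨k, hk⟩ := (Metric.tendsto_nhds.1 hx (ε / 2) (by positivity)).exists
  rw [dist_zero_right] at hk
  obtain ⟨N0, hN0⟩ := pow_unbounded_of_one_lt (4 * (k : ℝ)) (show (1:ℝ) < 2 by norm_num)
  refine ⟨max 2 N0, fun N hN => ?_⟩
  have hN2 : 2 ≤ N := (le_max_left _ _).trans hN
  have hNk : 4 * (k : ℝ) ≤ 2 ^ N := hN0.le.trans
    (pow_le_pow_right₀ (by norm_num) ((le_max_right _ _).trans hN))
  have e : tl h N = (1 - h) ^ k * cfc (cf k N) h := by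
    have e1 : (1 - h) ^ k = cfc (fun t : ℝ => (1 - t) ^ k) h := by
      rw [cfc_pow (fun t : ℝ => 1 - t) k h (by fun_prop) hsa,
        cfc_sub (fun _ : ℝ => (1:ℝ)) (fun t => t) h, cfc_const_one ℝ h, cfc_id' ℝ h]
    rw [e1, ← cfc_mul _ _ h (by fun_prop) (continuous_cf k N).continuousOn]
    unfold tl
    apply cfc_congr
    intro t ht
    exact cf_mul hN2 (hsp ht).1
  rw [dist_zero_right, norm_norm, e, ← mul_assoc]
  calc ‖x * (1 - h) ^ k * cfc (cf k N) h‖ ≤ ‖x * (1 - h) ^ k‖ * ‖cfc (cf k N) h‖ := norm_mul_le _ _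
    _ ≤ ‖x * (1 - h) ^ k‖ * 2 := by
        gcongr
        apply norm_cfc_le (by norm_num)
        intro t ht
        exact abs_cf_le hN2 hNk (hsp ht).1
    _ < ε := by linarith

include hsa hsp in
theorem sum_ph_sq (N : ℕ) : ∑ n ∈ Finset.range (N + 1), ph h n * ph h n = 1 - tl h (N + 1) := by
  simp only [ph_mul_self hsp]
  have h1 : ∑ n ∈ Finset.range (N + 1), cfc (Ff n) h = cfc (gf (N + 1)) h := by
    rw [← cfc_sum _ h _ (fun n _ => (continuous_Ff n).continuousOn)]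
    apply cfc_congr
    intro t ht
    rw [Finset.sum_apply, sum_Ff, gf_zero (hsp ht).2, sub_zero]
  rw [h1]
  unfold tl
  rw [cfc_sub (fun _ : ℝ => (1:ℝ)) (gf (N + 1)) h (by fun_prop) (continuous_gf (N + 1)).continuousOn,
    cfc_const_one ℝ h]
  simp

end cstar

/-- **Projectivity of closed left ideals** with a good positive element. The left ideal is the
image of `j`. -/
theorem proj_core (A : Type v) [CStarAlgebra A] {P : Type v} [NormedAddCommGroup P] [NormedSpace ℂ P]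
    [CompleteSpace P] (j : P →L[ℂ] A) (hj : ∀ p, ‖j p‖ = ‖p‖) (actP : A →L[ℂ] P →L[ℂ] P)
    (hact : ∀ b p, j (actP b p) = b * j p) (ph' : P) (hsa : IsSelfAdjoint (j ph'))
    (hsp : spectrum ℝ (j ph') ⊆ Set.Icc 0 1)
    (hlim : ∀ p, Tendsto (fun n : ℕ => j p * (1 - j ph') ^ n) atTop (𝓝 0)) :
    IsProjectiveModule.{u} A actP := by
  intro X Y _ _ _ _ _ _ actX actY hactX hactY σ hσ _ ⟨ρ, hρ⟩ φ hφ
  set h : A := j ph' with hh
  have hjinj : Function.Injective j := by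
    intro p q hpq
    have h1 : ‖p - q‖ = 0 := by rw [← hj, map_sub, hpq, sub_self, norm_zero]
    exact sub_eq_zero.1 (norm_eq_zero.1 h1)
  set pL : ℕ → P := fun n => actP (cfc (kf n) h) ph' with hpL
  have hjp : ∀ n, j (pL n) = ph h n := by
    intro n
    rw [ph_eq hsa hsp]
    exact hact _ _
  set β : A →L[ℂ] P →L[ℂ] X := ((ContinuousLinearMap.compL ℂ P X X).flip (ρ.comp φ)).comp actX with hβ
  have hβa : ∀ a l, β a l = actX a (ρ (φ l)) := fun a l => rfl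
  -- the approximating maps
  set S : ℕ → P →L[ℂ] X := fun N => ∑ n ∈ Finset.range (N + 1),
    ((β.flip (pL n)).comp (((ContinuousLinearMap.mul ℂ A).flip (ph h n)).comp j)) with hS
  have hSa : ∀ N (x : P), S N x = ∑ n ∈ Finset.range (N + 1), β (j x * ph h n) (pL n) := by
    intro N x
    simp only [hS, _root_.sum_apply]
    rfl
  have hbound : ∀ (x : P) (N M : ℕ), N ≤ M → dist (S N x) (S M x) ≤ ‖β‖ * (‖j x * tl h N‖ * Real.sqrt 2) * Real.sqrt 2 := by
    intro x N M hNM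
    rw [dist_comm, dist_eq_norm, hSa, hSa, ← Finset.sum_Ico_eq_sub _ (by omega : N + 1 ≤ M + 1)]
    have := sign_avg β (Finset.Ico (N + 1) (M + 1)) (fun n => j x * ph h n) pL
      (A := ‖j x * tl h N‖ * Real.sqrt 2) (B := Real.sqrt 2) 0 0 ?_ ?_
    · simpa using this
    · intro ε hε
      rw [zero_add]
      exact norm_mul_sum_ph_le hsp (j x) _ ε hε N fun n hn => (Finset.mem_Ico.1 hn).1
    · intro ε hε
      rw [zero_add]
      have e : ‖∑ n ∈ Finset.Ico (N + 1) (M + 1), (ε n : ℂ) • pL n‖ =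
          ‖∑ n ∈ Finset.Ico (N + 1) (M + 1), (ε n : ℂ) • ph h n‖ := by
        rw [← hj, map_sum]
        simp only [map_smul, hjp]
      rw [e]
      exact norm_sum_ph_le hsp _ ε hε
  have htl : ∀ x : P, Tendsto (fun N => ‖j x * tl h N‖) atTop (𝓝 0) :=
    fun x => tendsto_tl hsa hsp (hlim x)
  have hb0 : ∀ x : P, Tendsto (fun N => ‖β‖ * (‖j x * tl h N‖ * Real.sqrt 2) * Real.sqrt 2) atTop (𝓝 0) := by
    intro x
    have := (((htl x).mul_const (Real.sqrt 2)).const_mul ‖β‖).mul_const (Real.sqrt 2)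
    simpa using this
  have hcauchy : ∀ x : P, CauchySeq (fun N => S N x) := fun x =>
    cauchySeq_of_le_tendsto_0' _ (fun N M hNM => hbound x N M hNM) (hb0 x)
  have hex : ∀ x : P, ∃ y, Tendsto (fun N => S N x) atTop (𝓝 y) := fun x =>
    cauchySeq_tendsto_of_complete (hcauchy x)
  choose f hf using hex
  set ψ : P →L[ℂ] X := continuousLinearMapOfTendsto S (tendsto_pi_nhds.2 hf) with hψ
  have hψa : ∀ x, ψ x = f x := fun x => rfl
  refine ⟨ψ, ?_, ?_⟩
  · intro b x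
    have h1 : ∀ N, S N (actP b x) = actX b (S N x) := by
      intro N
      rw [hSa, hSa, map_sum]
      refine Finset.sum_congr rfl fun n _ => ?_
      rw [hact, hβa, hβa, mul_assoc, hactX]
    have h2 := hf (actP b x)
    simp only [h1] at h2
    have h3 := ((actX b).continuous.tendsto _).comp (hf x)
    rw [hψa, hψa]
    exact tendsto_nhds_unique h2 h3
  · intro x
    rw [hψa]
    -- an element of `P` representing `j x * tl`
    have h1 : ∀ N, σ (S N x) = φ (∑ n ∈ Finset.range (N + 1), actP (j x * ph h n) (pL n)) := by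
      intro N
      rw [hSa, map_sum, map_sum]
      refine Finset.sum_congr rfl fun n _ => ?_
      rw [hβa, hσ, hρ]
      exact (hφ _ _).symm
    have h3 : Tendsto (fun N => σ (S N x)) atTop (𝓝 (φ x)) := by
      simp only [h1]
      apply (φ.continuous.tendsto _).comp
      rw [tendsto_iff_norm_sub_tendsto_zero]
      have h4 : ∀ N, ‖∑ n ∈ Finset.range (N + 1), actP (j x * ph h n) (pL n) - x‖ = ‖j x * tl h (N + 1)‖ := by
        intro N
        rw [← hj, map_sub, map_sum]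
        have h5 : ∑ n ∈ Finset.range (N + 1), j (actP (j x * ph h n) (pL n)) = j x * (1 - tl h (N + 1)) := by
          rw [← sum_ph_sq hsa hsp, Finset.mul_sum]
          refine Finset.sum_congr rfl fun n _ => ?_
          rw [hact, hjp, mul_assoc]
        rw [h5, ← norm_neg]
        congr 1
        noncomm_ring
      simp only [h4]
      exact (htl x).comp (tendsto_add_atTop_nat 1)
    exact tendsto_nhds_unique ((σ.continuous.tendsto _).comp (hf x)) h3

theorem isHereditary_of_HL (A : Type v) [CStarAlgebra A] (hA : HL A) : IsHereditary.{u} A := by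
  intro L hL hLc
  obtain ⟨h, hhL, hsa, hsp, hlim⟩ := hA L hLc hL
  have hcomplete : CompleteSpace L := hLc.completeSpace_coe
  exact proj_core A L.subtypeL (fun p => rfl) (leftIdealAction L hL) (fun b p => rfl) ⟨h, hhL⟩ hsa hsp
    (fun p => hlim p p.2)

end

end Pool.Agent.helper39
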