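import Pool.Agent.helper39.BigAlg
import Pool.Agent.helper39.Proj

set_option autoImplicit false

namespace Pool.Agent.helper39

open FreeGroup Filter Topology

noncomputable section

/-- the permutation of the index set given by the letter `x` -/
def pm (x : ℝ) : Equiv.Perm XX where
  toFun p := (p.1, FreeGroup.of (flr p.1 x) * p.2)
  invFun p := (p.1, (FreeGroup.of (flr p.1 x))⁻¹ * p.2)
  left_inv p := by simp
  right_inv p := by simp

/-- the unitary given by the letter `x` -/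
def vv (x : ℝ) : Op XX := U (pm x)

theorem vv_dl (x : ℝ) (n : ℕ) (c : FreeGroup ℤ) : vv x (dl (n, c)) = dl (n, FreeGroup.of (flr n x) * c) := by
  unfold vv
  rw [U_dl]; rfl

theorem star_vv_dl (x : ℝ) (n : ℕ) (c : FreeGroup ℤ) :
    star (vv x) (dl (n, c)) = dl (n, (FreeGroup.of (flr n x))⁻¹ * c) := by
  unfold vv
  rw [star_U, U_dl]; rfl

theorem rel_of_dl {T : KK →L[ℂ] KK} {S : Om → Op (GG ℝ)}
    (h1 : ∀ i n m c d, Wi i (T (tm (dl (n, c)) (dl (m, d)))) = S (om i) (Wi i (tm (dl (n, c)) (dl (m, d)))))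
    (h2 : ∀ i n m c d, Wi i (star T (tm (dl (n, c)) (dl (m, d)))) =
      star (S (om i)) (Wi i (tm (dl (n, c)) (dl (m, d))))) : Rel T S := by
  intro i
  have e1 : (Wi i).comp T = (S (om i)).comp (Wi i) := by
    apply HT_ext_dl
    rintro ⟨n, c⟩ ⟨m, d⟩
    exact h1 i n m c d
  have e2 : (Wi i).comp (star T) = (star (S (om i))).comp (Wi i) := by
    apply HT_ext_dl
    rintro ⟨n, c⟩ ⟨m, d⟩
    exact h2 i n m c d
  exact ⟨fun ξ => DFunLike.congr_fun e1 ξ, fun ξ => DFunLike.congr_fun e2 ξ⟩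

theorem sec_lam (g : GG ℝ) : Sec (fun ω => lam (qh ω g)) := by
  intro ω0 ε hε
  refine ⟨MonoidAlgebra.single g 1, Eventually.of_forall fun ω => ?_⟩
  have : lq ω (MonoidAlgebra.single g 1) = lam (qh ω g) := by
    rw [lq_eq, MonoidAlgebra.mapDomain_single, lamA_single, one_smul]
  rw [this, sub_self, norm_zero]
  exact hε.le

theorem qh_om_left (i : ℕ × ℕ) (x : ℝ) : qh (om i) (FreeGroup.of x, 1) =
    (FreeGroup.of (((flr i.1 x : ℤ)) : ℝ), 1) := by
  unfold qh
  rw [mp2_apply]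
  simp only [FreeGroup.map.of, _root_.map_one]
  rfl

theorem qh_om_right (i : ℕ × ℕ) (x : ℝ) : qh (om i) (1, FreeGroup.of x) =
    (1, FreeGroup.of (((flr i.2 x : ℤ)) : ℝ)) := by
  unfold qh
  rw [mp2_apply]
  simp only [FreeGroup.map.of, _root_.map_one]
  rfl

theorem opL_vv_mem (x : ℝ) : (opL (vv x) : KK →L[ℂ] KK) ∈ BP := by
  refine ⟨_, sec_lam (FreeGroup.of x, 1), rel_of_dl ?_ ?_⟩
  · intro i n m c d
    rw [opL_apply, opTensor_tm, vv_dl]
    show Wi i (tm (dl (n, FreeGroup.of (flr n x) * c)) (dl (m, d))) = _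
    by_cases h : (n, m) = i
    · subst h
      rw [Wi_tm_self, Wi_tm_self, qh_om_left, lam_dl, _root_.map_mul, FreeGroup.map.of]
      simp
    · rw [Wi_tm_ne h, Wi_tm_ne h, _root_.map_zero]
  · intro i n m c d
    rw [← map_star, opL_apply, opTensor_tm, star_vv_dl, star_lam]
    show Wi i (tm (dl (n, (FreeGroup.of (flr n x))⁻¹ * c)) (dl (m, d))) = _
    by_cases h : (n, m) = i
    · subst h
      rw [Wi_tm_self, Wi_tm_self, qh_om_left, lam_dl, _root_.map_mul, _root_.map_inv, FreeGroup.map.of]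
      simp
    · rw [Wi_tm_ne h, Wi_tm_ne h, _root_.map_zero]

theorem opR_vv_mem (x : ℝ) : (opR (vv x) : KK →L[ℂ] KK) ∈ BP := by
  refine ⟨_, sec_lam (1, FreeGroup.of x), rel_of_dl ?_ ?_⟩
  · intro i n m c d
    rw [opR_apply, opTensor_tm, vv_dl]
    show Wi i (tm (dl (n, c)) (dl (m, FreeGroup.of (flr m x) * d))) = _
    by_cases h : (n, m) = i
    · subst h
      rw [Wi_tm_self, Wi_tm_self, qh_om_right, lam_dl, _root_.map_mul, FreeGroup.map.of]
      simp
    · rw [Wi_tm_ne h, Wi_tm_ne h, _root_.map_zero]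
  · intro i n m c d
    rw [← map_star, opR_apply, opTensor_tm, star_vv_dl, star_lam]
    show Wi i (tm (dl (n, c)) (dl (m, (FreeGroup.of (flr m x))⁻¹ * d))) = _
    by_cases h : (n, m) = i
    · subst h
      rw [Wi_tm_self, Wi_tm_self, qh_om_right, lam_dl, _root_.map_mul, _root_.map_inv, FreeGroup.map.of]
      simp
    · rw [Wi_tm_ne h, Wi_tm_ne h, _root_.map_zero]

/-- the example -/
def AA : StarSubalgebra ℂ (Op XX) := (StarAlgebra.adjoin ℂ (Set.range vv)).topologicalClosure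

theorem isClosed_AA : IsClosed (AA : Set (Op XX)) := StarSubalgebra.isClosed_topologicalClosure _

theorem vv_mem_AA (x : ℝ) : vv x ∈ AA :=
  StarSubalgebra.le_topologicalClosure _ (StarAlgebra.subset_adjoin ℂ _ ⟨x, rfl⟩)

theorem opL_mem_BP {a : Op XX} (ha : a ∈ AA) : (opL a : KK →L[ℂ] KK) ∈ BP := by
  have h : AA ≤ BP.comap opL := by
    apply StarSubalgebra.topologicalClosure_minimal
    · apply StarAlgebra.adjoin_le
      rintro _ ⟨x, rfl⟩
      exact opL_vv_mem x
    · exact isClosed_BP.preimage continuous_opL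
  exact h ha

theorem opR_mem_BP {a : Op XX} (ha : a ∈ AA) : (opR a : KK →L[ℂ] KK) ∈ BP := by
  have h : AA ≤ BP.comap opR := by
    apply StarSubalgebra.topologicalClosure_minimal
    · apply StarAlgebra.adjoin_le
      rintro _ ⟨x, rfl⟩
      exact opR_vv_mem x
    · exact isClosed_BP.preimage continuous_opR
  exact h ha

theorem minTensor_AA_le : minTensor AA AA ≤ BP := by
  apply StarSubalgebra.topologicalClosure_minimal
  · apply StarAlgebra.adjoin_le
    rintro _ ⟨a, ha, b, hb, rfl⟩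
    rw [opTensor_eq]
    exact mul_mem (opL_mem_BP ha) (opR_mem_BP hb)
  · exact isClosed_BP

theorem flr_ne {x y : ℝ} (h : x ≠ y) : ∃ n, flr n x ≠ flr n y := by
  have h1 := eventually_injOn {x, y}
  obtain ⟨n, hn⟩ := h1.exists
  refine ⟨n, fun e => h ?_⟩
  apply hn (by simp) (by simp)
  rw [rho_coe, rho_coe]
  unfold flr at e
  rw [e]

theorem one_le_norm_vv_sub {x y : ℝ} (h : x ≠ y) : 1 ≤ ‖vv x - vv y‖ := by
  obtain ⟨n, hn⟩ := flr_ne h
  have h1 : ((vv x - vv y) (dl (n, 1))) (n, FreeGroup.of (flr n x)) = (1 : ℂ) := by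
    rw [_root_.sub_apply, vv_dl, vv_dl, mul_one, mul_one, lp.coeFn_sub, Pi.sub_apply, dl_self, dl_ne, sub_zero]
    intro e
    exact hn (FreeGroup.of_injective (Prod.ext_iff.1 e).2)
  calc (1:ℝ) = ‖((vv x - vv y) (dl (n, 1))) (n, FreeGroup.of (flr n x))‖ := by rw [h1, NormOneClass.norm_one]
    _ ≤ ‖(vv x - vv y) (dl (n, 1))‖ := lp.norm_apply_le_norm (by norm_num) _ _
    _ ≤ ‖vv x - vv y‖ * ‖(dl (n, 1) : E XX)‖ := ContinuousLinearMap.le_opNorm _ _
    _ = ‖vv x - vv y‖ := by rw [norm_dl, mul_one]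

theorem not_isSeparable_AA : ¬ TopologicalSpace.IsSeparable (AA : Set (Op XX)) := by
  rintro ⟨c, hc, hAc⟩
  have h1 : ∀ x : ℝ, ∃ y ∈ c, dist (vv x) y < 1 / 2 := by
    intro x
    exact Metric.mem_closure_iff.1 (hAc (vv_mem_AA x)) (1 / 2) (by norm_num)
  choose f hf1 hf2 using h1
  have hinj : Function.Injective (fun x : ℝ => (⟨f x, hf1 x⟩ : c)) := by
    intro x y hxy
    by_contra hne
    have e : f x = f y := congrArg Subtype.val hxy
    have h2 := one_le_norm_vv_sub hne
    have h3 : dist (vv x) (vv y) < 1 := by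
      calc dist (vv x) (vv y) ≤ dist (vv x) (f x) + dist (vv y) (f x) := dist_triangle_right _ _ _
        _ < 1 / 2 + 1 / 2 := by
            gcongr
            · exact hf2 x
            · rw [e]; exact hf2 y
        _ = 1 := by norm_num
    rw [dist_eq_norm] at h3
    linarith
  have : Countable c := hc.to_subtype
  have h4 : Countable ℝ := hinj.countable
  exact not_countable h4

end

end Pool.Agent.helper39
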