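import Pool.Agent.helper39.Words

set_option autoImplicit false

namespace Pool.Agent.helper39

open FreeGroup

noncomputable section

variable {α : Type*} [DecidableEq α]

/-- Multiplying by a letter either adds a letter or cancels one. -/
theorem letter_mul (x : α × Bool) (g : FreeGroup α) :
    (mk [x] * g).toWord = x :: g.toWord ∨ g.toWord = (x.1, !x.2) :: (mk [x] * g).toWord := by
  have h : (mk [x] * g).toWord = reduce (x :: g.toWord) := by
    rw [toWord_mul, toWord_mk, reduce_singleton]; rfl
  rw [reduce.cons, reduce_toWord] at h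
  rcases hg : g.toWord with _ | ⟨y, l⟩
  · left
    rw [hg] at h
    exact h
  · rw [hg] at h
    simp only at h
    split_ifs at h with hc
    · right
      rw [h]
      obtain ⟨h1, h2⟩ := hc
      have : y = (x.1, !x.2) := by
        apply Prod.ext
        · exact h1.symm
        · simp only; rw [h2]; simp
      rw [this]
    · left
      exact h

/-- The subgroup generated by the letters in `R`, described by words. -/
def FR (R : Set α) : Subgroup (FreeGroup α) where
  carrier := {g | ∀ l ∈ g.toWord, l.1 ∈ R}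
  one_mem' := by simp
  mul_mem' := by
    intro a b ha hb l hl
    have h := (toWord_mul_sublist a b).subset hl
    rcases List.mem_append.1 h with h | h
    · exact ha l h
    · exact hb l h
  inv_mem' := by
    intro a ha l hl
    rw [toWord_inv] at hl
    unfold invRev at hl
    rw [List.mem_reverse, List.mem_map] at hl
    obtain ⟨m, hm, rfl⟩ := hl
    exact ha m hm

theorem mem_FR {R : Set α} {g : FreeGroup α} : g ∈ FR R ↔ ∀ l ∈ g.toWord, l.1 ∈ R := Iff.rfl

theorem mk_mem_FR {R : Set α} {L : Wd α} (hL : ∀ l ∈ L, l.1 ∈ R) : mk L ∈ FR R := by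
  intro l hl
  rw [toWord_mk] at hl
  have h1 : List.Sublist (reduce L) L := Red.sublist reduce.red
  exact hL l (h1.subset hl)

theorem tw_letter_mul {R : Set α} {x : α × Bool} (hx : x.1 ∈ R) (g : FreeGroup α) :
    tw R (mk [x] * g).toWord = tw R g.toWord := by
  rcases letter_mul x g with h | h
  · rw [h, tw_cons hx]
  · rw [h, tw_cons]
    exact hx

omit [DecidableEq α] in
theorem mk_cons (x : α × Bool) (L : Wd α) : (mk (x :: L) : FreeGroup α) = mk [x] * mk L := by
  rw [mul_mk]; rfl

theorem tw_mk_mul {R : Set α} (L : Wd α) (hL : ∀ l ∈ L, l.1 ∈ R) (g : FreeGroup α) :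
    tw R (mk L * g).toWord = tw R g.toWord := by
  induction L with
  | nil => rw [← one_eq_mk, one_mul]
  | cons x L ih =>
    rw [mk_cons, mul_assoc, tw_letter_mul (hL x List.mem_cons_self),
      ih fun l hl => hL l (List.mem_cons_of_mem _ hl)]

theorem tw_mul {R : Set α} {p : FreeGroup α} (hp : p ∈ FR R) (g : FreeGroup α) :
    tw R (p * g).toWord = tw R g.toWord := by
  conv_lhs => rw [← mk_toWord (x := p)]
  exact tw_mk_mul _ hp g

omit [DecidableEq α] in
theorem mk_append (L M : Wd α) : (mk (L ++ M) : FreeGroup α) = mk L * mk M := by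
  rw [mul_mk]

/-- the kernel, real valued -/
def kapg (R T : Set α) (N : ℕ) (g h : FreeGroup α) : ℕ := kap R T N g.toWord h.toWord

theorem kapg_self (R T : Set α) (N : ℕ) (g : FreeGroup α) : kapg R T N g g = N := kap_self _ _ _ _

theorem kapg_right {R T : Set α} {N : ℕ} {g h p : FreeGroup α} (hp : p ∈ FR R) :
    kapg R T N g (p * h) = kapg R T N g h := by
  unfold kapg kap
  rw [tw_mul hp]

theorem kapg_letter {R T : Set α} {x : α × Bool} (hx : x.1 ∈ T) (N : ℕ) (g h : FreeGroup α) :
    kapg R T N (mk [x] * g) h ≤ kapg R T N g h + 2 ∧ kapg R T N g h ≤ kapg R T N (mk [x] * g) h + 2 := by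
  unfold kapg
  rcases letter_mul x g with h1 | h1
  · rw [h1]
    exact kap_cons hx N _ _
  · rw [h1]
    have := kap_cons (R := R) (T := T) (x := (x.1, !x.2)) hx N (mk [x] * g).toWord h.toWord
    exact ⟨this.2, this.1⟩

theorem kapg_mk {R T : Set α} (L : Wd α) (hL : ∀ l ∈ L, l.1 ∈ T) (N : ℕ) (g h : FreeGroup α) :
    kapg R T N (mk L * g) h ≤ kapg R T N g h + 2 * L.length ∧
      kapg R T N g h ≤ kapg R T N (mk L * g) h + 2 * L.length := by
  induction L with
  | nil => rw [← one_eq_mk, one_mul]; simp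
  | cons x L ih =>
    rw [mk_cons, mul_assoc]
    have h1 := kapg_letter (R := R) (hL x List.mem_cons_self) N (mk L * g) h
    have h2 := ih fun l hl => hL l (List.mem_cons_of_mem _ hl)
    rw [List.length_cons]
    omega

theorem kapg_near {R T : Set α} {g : FreeGroup α} (hg : ∀ l ∈ g.toWord, l.1 ∈ T) (N : ℕ)
    (h : FreeGroup α) : kapg R T N (g * h) h ≤ N + 2 * g.toWord.length ∧
      N ≤ kapg R T N (g * h) h + 2 * g.toWord.length := by
  have h1 := kapg_mk (R := R) g.toWord hg N h h
  rw [mk_toWord, kapg_self] at h1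
  exact h1

theorem kapg_le (R T : Set α) (N : ℕ) (g h : FreeGroup α) : kapg R T N g h ≤ 2 * N := by
  unfold kapg kap
  have h1 := cnt_le N (fun i => Q1 T N (tw R h.toWord) (pt T g.toWord i))
  have h2 := cnt_le N (fun i => Q2 R (tw R h.toWord) (pt T g.toWord i))
  omega

theorem cnt_pos {N : ℕ} {Q : ℕ → Prop} (h : cnt N Q ≠ 0) : ∃ i < N, Q i := by
  classical
  unfold cnt at h
  obtain ⟨i, hi⟩ := Finset.card_ne_zero.1 h
  obtain ⟨h1, h2⟩ := Finset.mem_filter.1 hi
  exact ⟨i, Finset.mem_range.1 h1, h2⟩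

/-- Support of the kernel. -/
theorem kapg_support {R T : Set α} {N : ℕ} {g h : FreeGroup α} (hk : kapg R T N g h ≠ 0) :
    ∃ u v : Wd α, u.length ≤ N ∧ v.length ≤ N ∧ (∀ l ∈ u, l.1 ∈ T) ∧ (∀ l ∈ v, l.1 ∈ T) ∧
      (mk u * (mk v)⁻¹)⁻¹ * (g * h⁻¹) ∈ FR R := by
  have hh : (mk (hw R h.toWord) : FreeGroup α) * mk (tw R h.toWord) = h := by
    rw [← mk_append, hw_append_tw, mk_toWord]
  have hr : (mk (hw R h.toWord) : FreeGroup α) ∈ FR R := mk_mem_FR fun l hl => mem_hw hl
  have hsplit : ∀ k, (mk (g.toWord.take k) : FreeGroup α) * mk (g.toWord.drop k) = g := by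
    intro k
    rw [← mk_append, List.take_append_drop, mk_toWord]
  unfold kapg kap at hk
  have hk' : cnt N (fun i => Q1 T N (tw R h.toWord) (pt T g.toWord i)) ≠ 0 ∨
      cnt N (fun i => Q2 R (tw R h.toWord) (pt T g.toWord i)) ≠ 0 := by omega
  rcases hk' with hk | hk
  · obtain ⟨i, hi, j, hj1, hj2, hj3, hj4⟩ := cnt_pos hk
    have e := congrArg Prod.fst hj4
    simp only [pt] at e
    set k := min i (pLen T g.toWord) with hkd
    set t := tw R h.toWord with htd
    set m := min j (pLen T t) with hmd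
    have ht : (mk (t.take m) : FreeGroup α) * mk (t.drop m) = mk t := by
      rw [← mk_append, List.take_append_drop]
    refine ⟨g.toWord.take k, t.take m, ?_, ?_, ?_, ?_, ?_⟩
    · rw [List.length_take]; omega
    · rw [List.length_take]; omega
    · intro l hl
      exact take_pLen_mem (by omega) hl
    · intro l hl
      exact take_pLen_mem (by omega) hl
    · have hg := hsplit k
      rw [e] at hg
      have : (mk (g.toWord.take k) * (mk (t.take m))⁻¹)⁻¹ * (g * h⁻¹) =
          (mk (hw R h.toWord) : FreeGroup α)⁻¹ := by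
        conv_lhs =>
          rw [← hh]
          enter [2, 1]
          rw [← hg]
        rw [← ht]
        group
      rw [this]
      exact inv_mem hr
  · obtain ⟨i, hi, hj⟩ := cnt_pos hk
    unfold Q2 pt at hj
    simp only at hj
    set k := min i (pLen T g.toWord) with hkd
    set t := tw R h.toWord with htd
    refine ⟨g.toWord.take k, [], ?_, by simp, ?_, by simp, ?_⟩
    · rw [List.length_take]; omega
    · intro l hl
      exact take_pLen_mem (by omega) hl
    · have hg := hsplit k
      have hv : (mk (hw R (g.toWord.drop k)) : FreeGroup α) * mk t = mk (g.toWord.drop k) := by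
        rw [← hj, ← mk_append, hw_append_tw]
      have hr' : (mk (hw R (g.toWord.drop k)) : FreeGroup α) ∈ FR R := mk_mem_FR fun l hl => mem_hw hl
      have : (mk (g.toWord.take k) * (mk [])⁻¹)⁻¹ * (g * h⁻¹) =
          (mk (hw R (g.toWord.drop k)) : FreeGroup α) * (mk (hw R h.toWord))⁻¹ := by
        conv_lhs =>
          rw [← hh]
          enter [2, 1]
          rw [← hg, ← hv]
        rw [← one_eq_mk]
        group
      rw [this]
      exact mul_mem hr' (inv_mem hr)

omit [DecidableEq α] in
/-- the words of bounded length in finitely many letters form a finite set -/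
theorem finite_words (T : Set α) (hT : T.Finite) (N : ℕ) :
    {g : FreeGroup α | ∃ u : Wd α, u.length ≤ N ∧ (∀ l ∈ u, l.1 ∈ T) ∧ mk u = g}.Finite := by
  have h1 : (T ×ˢ (Set.univ : Set Bool)).Finite := hT.prod Set.finite_univ
  have h2 : {u : Wd α | u.length ≤ N ∧ ∀ l ∈ u, l ∈ T ×ˢ (Set.univ : Set Bool)}.Finite := by
    haveI : Finite ↥(T ×ˢ (Set.univ : Set Bool)) := h1
    have h3 := List.finite_length_le (↥(T ×ˢ (Set.univ : Set Bool))) N
    refine (h3.image (List.map Subtype.val)).subset ?_
    rintro u ⟨hu1, hu2⟩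
    have h4 : u ∈ Set.range (List.map (Subtype.val : ↥(T ×ˢ (Set.univ : Set Bool)) → α × Bool)) := by
      rw [Set.range_list_map_coe]
      exact hu2
    obtain ⟨v, rfl⟩ := h4
    exact ⟨v, by simpa using hu1, rfl⟩
  refine (h2.image mk).subset ?_
  rintro g ⟨u, hu1, hu2, rfl⟩
  exact ⟨u, ⟨hu1, fun l hl => ⟨hu2 l hl, trivial⟩⟩, rfl⟩

end

end Pool.Agent.helper39
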