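import Pool.Agent.helper39.GDMom

set_option autoImplicit false

namespace Pool.Agent.helper39.GD

open Finset

theorem sum_blocks (m n : ℕ) (f : ℕ → ℝ) :
    ∑ i ∈ range (m * n), f i = ∑ k ∈ range m, ∑ s ∈ range n, f (k * n + s) := by
  induction m with
  | zero => simp
  | succ m ih => rw [Nat.succ_mul, sum_range_add, ih, sum_range_succ]

/-- sign given by `r` binary digits above position `c` -/
def S (r c i : ℕ) : ℝ := sg r (i / 2 ^ c % 2 ^ r)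

/-- the leading digits -/
def pre (r c i : ℕ) : ℕ := i / 2 ^ (c + r)

theorem abs_S (r c i : ℕ) : |S r c i| = 1 := abs_sg _ _

theorem pre_block {r c k s : ℕ} (hs : s < 2 ^ (c + r)) : pre r c (k * 2 ^ (c + r) + s) = k := by
  unfold pre
  rw [mul_comm, Nat.mul_add_div (by positivity), Nat.div_eq_of_lt hs, add_zero]

theorem S_block {r c k q s : ℕ} (hq : q < 2 ^ r) (hs : s < 2 ^ c) :
    S r c (k * 2 ^ (c + r) + (q * 2 ^ c + s)) = sg r q := by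
  unfold S
  have h : k * 2 ^ (c + r) + (q * 2 ^ c + s) = 2 ^ c * (k * 2 ^ r + q) + s := by
    rw [pow_add]; ring
  rw [h, Nat.mul_add_div (by positivity), Nat.div_eq_of_lt hs, add_zero, Nat.mul_add_mod', Nat.mod_eq_of_lt hq]

theorem sum_level {r c n : ℕ} (hc : c ≤ n) (f : ℕ → ℝ) :
    ∑ i ∈ range (2 ^ (n + r)), f i =
      ∑ k ∈ range (2 ^ (n - c)), ∑ s ∈ range (2 ^ (c + r)), f (k * 2 ^ (c + r) + s) := by
  rw [← sum_blocks, ← pow_add]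
  congr 3
  omega

theorem block_gen (r c k j : ℕ) (N x0 : ℝ) :
    ∑ s ∈ range (2 ^ (c + r)), S r c (k * 2 ^ (c + r) + s) * (((k * 2 ^ (c + r) + s : ℕ) : ℝ) / N - x0) ^ j =
      ∑ s ∈ range (2 ^ c), mom r j (((k * 2 ^ (c + r) + s : ℕ) : ℝ) / N - x0) (2 ^ c / N) := by
  have e : 2 ^ (c + r) = 2 ^ r * 2 ^ c := by rw [← pow_add, add_comm]
  conv_lhs => rw [show range (2 ^ (c + r)) = range (2 ^ r * 2 ^ c) by rw [e]]
  rw [sum_blocks, sum_comm]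
  apply sum_congr rfl
  intro s hs
  unfold mom
  apply sum_congr rfl
  intro q hq
  rw [S_block (mem_range.1 hq) (mem_range.1 hs)]
  congr 2
  push_cast
  ring

/-- the truncated power -/
noncomputable def bb (r : ℕ) (t x : ℝ) : ℝ := if x < t then (t - x) ^ (r - 1) / ((r - 1).factorial : ℝ) else 0

theorem block_bb {r c k : ℕ} (hr : 1 ≤ r) {N ξ : ℝ} (hN : 0 < N)
    (hk : pre r c ⌊ξ * N⌋₊ ≠ k) :
    ∑ s ∈ range (2 ^ (c + r)), S r c (k * 2 ^ (c + r) + s) *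
      bb r (((k * 2 ^ (c + r) + s : ℕ) : ℝ) / N) ξ = 0 := by
  have hP : 0 < 2 ^ (c + r) := by positivity
  rcases lt_or_gt_of_ne hk with h | h
  · -- the knot is to the left
    have h1 : ∀ s ∈ range (2 ^ (c + r)), S r c (k * 2 ^ (c + r) + s) *
        bb r (((k * 2 ^ (c + r) + s : ℕ) : ℝ) / N) ξ =
        (S r c (k * 2 ^ (c + r) + s) * (((k * 2 ^ (c + r) + s : ℕ) : ℝ) / N - ξ) ^ (r - 1)) *
          (((r - 1).factorial : ℝ))⁻¹ := by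
      intro s _
      have h2 : ⌊ξ * N⌋₊ < k * 2 ^ (c + r) + s := by
        unfold pre at h
        have := (Nat.div_lt_iff_lt_mul hP).1 h
        omega
      have h3 : ξ * N < ((k * 2 ^ (c + r) + s : ℕ) : ℝ) := Nat.lt_of_floor_lt h2
      have h4 : ξ < ((k * 2 ^ (c + r) + s : ℕ) : ℝ) / N := by
        rw [lt_div_iff₀ hN]; exact h3
      unfold bb
      rw [if_pos h4]
      ring
    rw [sum_congr rfl h1, ← sum_mul, block_gen, sum_eq_zero, zero_mul]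
    intro s _
    exact mom_lt r (r - 1) _ _ (by omega)
  · apply sum_eq_zero
    intro s hs
    have h2 : k * 2 ^ (c + r) + s < ⌊ξ * N⌋₊ := by
      unfold pre at h
      have h5 : (k + 1) * 2 ^ (c + r) ≤ ⌊ξ * N⌋₊ := by
        have := (Nat.le_div_iff_mul_le hP).1 (show k + 1 ≤ ⌊ξ * N⌋₊ / 2 ^ (c + r) from h)
        exact this
      have := mem_range.1 hs
      have h6 : (k + 1) * 2 ^ (c + r) = k * 2 ^ (c + r) + 2 ^ (c + r) := by ring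
      omega
    have h3 : ((k * 2 ^ (c + r) + s : ℕ) : ℝ) < ξ * N := by
      have h7 : (0:ℝ) ≤ ξ * N := by
        by_contra hneg
        rw [Nat.floor_of_nonpos (le_of_lt (not_le.1 hneg))] at h2
        omega
      calc ((k * 2 ^ (c + r) + s : ℕ) : ℝ) < (⌊ξ * N⌋₊ : ℝ) := by exact_mod_cast h2
        _ ≤ ξ * N := Nat.floor_le h7
    have h4 : ¬ ξ < ((k * 2 ^ (c + r) + s : ℕ) : ℝ) / N := by
      rw [not_lt, div_le_iff₀ hN]; exact h3.le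
    unfold bb
    rw [if_neg h4, mul_zero]

/-- the value on the main term -/
noncomputable def tau (r c : ℕ) (N : ℝ) : ℝ := 2 ^ c * ((-1) ^ r * kap r * (2 ^ c / N) ^ r)

theorem block_pow (r c k : ℕ) (N : ℝ) :
    ∑ s ∈ range (2 ^ (c + r)), S r c (k * 2 ^ (c + r) + s) *
      ((((k * 2 ^ (c + r) + s : ℕ) : ℝ) / N) ^ r / (r.factorial : ℝ)) = tau r c N := by
  have h1 : ∀ s ∈ range (2 ^ (c + r)), S r c (k * 2 ^ (c + r) + s) *
      ((((k * 2 ^ (c + r) + s : ℕ) : ℝ) / N) ^ r / (r.factorial : ℝ)) =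
      (S r c (k * 2 ^ (c + r) + s) * (((k * 2 ^ (c + r) + s : ℕ) : ℝ) / N - 0) ^ r) * ((r.factorial : ℝ))⁻¹ := by
    intro s _
    rw [sub_zero]; ring
  rw [sum_congr rfl h1, ← sum_mul, block_gen]
  have h2 : ∀ s ∈ range (2 ^ c), mom r r (((k * 2 ^ (c + r) + s : ℕ) : ℝ) / N - 0) (2 ^ c / N) =
      (-1) ^ r * (r.factorial : ℝ) * kap r * (2 ^ c / N) ^ r := fun s _ => mom_self _ _ _
  rw [sum_congr rfl h2, sum_const, card_range, nsmul_eq_mul]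
  unfold tau
  have h3 : (r.factorial : ℝ) ≠ 0 := by exact_mod_cast Nat.factorial_ne_zero r
  push_cast
  field_simp

theorem block_one {r : ℕ} (hr : 1 ≤ r) (c k : ℕ) :
    ∑ s ∈ range (2 ^ (c + r)), S r c (k * 2 ^ (c + r) + s) = 0 := by
  have h := block_gen r c k 0 1 0
  simp only [pow_zero, mul_one] at h
  rw [h, sum_eq_zero]
  intro s _
  exact mom_lt r 0 _ _ (by omega)

section key

variable {m : ℕ} (r n : ℕ) (ξ₁ ξ₂ w : Fin m → ℝ)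

/-- the error function at grid points -/
noncomputable def EE (i j : ℕ) : ℝ :=
  (∑ μ, w μ * (bb r ((i : ℝ) / 2 ^ (n + r)) (ξ₁ μ) * bb r ((j : ℝ) / 2 ^ (n + r)) (ξ₂ μ))) -
    (((i : ℝ) / 2 ^ (n + r)) ^ r / (r.factorial : ℝ)) * (((j : ℝ) / 2 ^ (n + r)) ^ r / (r.factorial : ℝ))

/-- index of a knot coordinate in the grid -/
noncomputable def uu (ξ : ℝ) : ℕ := ⌊ξ * 2 ^ (n + r)⌋₊

theorem box_sum (hr : 1 ≤ r) (c₁ c₂ k l : ℕ)
    (hemp : ∀ μ, ¬ (pre r c₁ (uu r n (ξ₁ μ)) = k ∧ pre r c₂ (uu r n (ξ₂ μ)) = l)) :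
    ∑ s ∈ range (2 ^ (c₁ + r)), ∑ t ∈ range (2 ^ (c₂ + r)),
      EE r n ξ₁ ξ₂ w (k * 2 ^ (c₁ + r) + s) (l * 2 ^ (c₂ + r) + t) *
        (S r c₁ (k * 2 ^ (c₁ + r) + s) * S r c₂ (l * 2 ^ (c₂ + r) + t)) =
      - (tau r c₁ (2 ^ (n + r)) * tau r c₂ (2 ^ (n + r))) := by
  have hN : (0:ℝ) < 2 ^ (n + r) := by positivity
  set A : ℕ → ℕ → Fin m → ℝ := fun s t μ => (S r c₁ (k * 2 ^ (c₁ + r) + s) *
    bb r (((k * 2 ^ (c₁ + r) + s : ℕ) : ℝ) / 2 ^ (n + r)) (ξ₁ μ)) *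
    (S r c₂ (l * 2 ^ (c₂ + r) + t) * bb r (((l * 2 ^ (c₂ + r) + t : ℕ) : ℝ) / 2 ^ (n + r)) (ξ₂ μ)) with hA
  have h1 : ∀ s t, EE r n ξ₁ ξ₂ w (k * 2 ^ (c₁ + r) + s) (l * 2 ^ (c₂ + r) + t) *
        (S r c₁ (k * 2 ^ (c₁ + r) + s) * S r c₂ (l * 2 ^ (c₂ + r) + t)) =
      ∑ μ, w μ * A s t μ - (S r c₁ (k * 2 ^ (c₁ + r) + s) *
        ((((k * 2 ^ (c₁ + r) + s : ℕ) : ℝ) / 2 ^ (n + r)) ^ r / (r.factorial : ℝ))) *
        (S r c₂ (l * 2 ^ (c₂ + r) + t) *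
        ((((l * 2 ^ (c₂ + r) + t : ℕ) : ℝ) / 2 ^ (n + r)) ^ r / (r.factorial : ℝ))) := by
    intro s t
    unfold EE
    rw [sub_mul, sum_mul]
    congr 1
    · apply sum_congr rfl
      intro μ _
      simp only [hA]
      ring
    · ring
  simp only [h1, sum_sub_distrib]
  have h2 : ∑ s ∈ range (2 ^ (c₁ + r)), ∑ t ∈ range (2 ^ (c₂ + r)), ∑ μ, w μ * A s t μ = 0 := by
    have h3 : ∑ s ∈ range (2 ^ (c₁ + r)), ∑ t ∈ range (2 ^ (c₂ + r)), ∑ μ, w μ * A s t μ =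
        ∑ μ, w μ * ((∑ s ∈ range (2 ^ (c₁ + r)), S r c₁ (k * 2 ^ (c₁ + r) + s) *
          bb r (((k * 2 ^ (c₁ + r) + s : ℕ) : ℝ) / 2 ^ (n + r)) (ξ₁ μ)) *
          (∑ t ∈ range (2 ^ (c₂ + r)), S r c₂ (l * 2 ^ (c₂ + r) + t) *
          bb r (((l * 2 ^ (c₂ + r) + t : ℕ) : ℝ) / 2 ^ (n + r)) (ξ₂ μ))) := by
      calc _ = ∑ s ∈ range (2 ^ (c₁ + r)), ∑ μ, ∑ t ∈ range (2 ^ (c₂ + r)), w μ * A s t μ :=
            sum_congr rfl fun s _ => sum_comm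
        _ = ∑ μ, ∑ s ∈ range (2 ^ (c₁ + r)), ∑ t ∈ range (2 ^ (c₂ + r)), w μ * A s t μ := sum_comm
        _ = _ := by
            apply sum_congr rfl
            intro μ _
            rw [sum_mul_sum, mul_sum]
            apply sum_congr rfl
            intro s _
            rw [mul_sum]
    rw [h3]
    apply sum_eq_zero
    intro μ _
    have h4 := hemp μ
    rw [not_and_or] at h4
    rcases h4 with h4 | h4
    · rw [block_bb hr hN h4]; ring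
    · rw [block_bb hr hN h4]; ring
  rw [h2, ← sum_mul_sum, block_pow, block_pow]
  ring

theorem key_sum (hr : 1 ≤ r) {c₁ c₂ : ℕ} (hc₁ : c₁ ≤ n) (hc₂ : c₂ ≤ n) (G : ℕ → ℕ → ℝ)
    (hG : ∀ μ, G (pre r c₁ (uu r n (ξ₁ μ))) (pre r c₂ (uu r n (ξ₂ μ))) = 0) :
    ∑ i ∈ range (2 ^ (n + r)), ∑ j ∈ range (2 ^ (n + r)),
      EE r n ξ₁ ξ₂ w i j * (G (pre r c₁ i) (pre r c₂ j) * (S r c₁ i * S r c₂ j)) =
    - (tau r c₁ (2 ^ (n + r)) * tau r c₂ (2 ^ (n + r))) *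
      ∑ k ∈ range (2 ^ (n - c₁)), ∑ l ∈ range (2 ^ (n - c₂)), G k l := by
  rw [sum_level hc₁]
  have h1 : ∀ k ∈ range (2 ^ (n - c₁)), ∑ s ∈ range (2 ^ (c₁ + r)), ∑ j ∈ range (2 ^ (n + r)),
      EE r n ξ₁ ξ₂ w (k * 2 ^ (c₁ + r) + s) j * (G (pre r c₁ (k * 2 ^ (c₁ + r) + s)) (pre r c₂ j) *
        (S r c₁ (k * 2 ^ (c₁ + r) + s) * S r c₂ j)) =
      ∑ l ∈ range (2 ^ (n - c₂)), - (tau r c₁ (2 ^ (n + r)) * tau r c₂ (2 ^ (n + r))) * G k l := by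
    intro k _
    have h2 : ∀ s ∈ range (2 ^ (c₁ + r)), ∑ j ∈ range (2 ^ (n + r)),
        EE r n ξ₁ ξ₂ w (k * 2 ^ (c₁ + r) + s) j * (G (pre r c₁ (k * 2 ^ (c₁ + r) + s)) (pre r c₂ j) *
        (S r c₁ (k * 2 ^ (c₁ + r) + s) * S r c₂ j)) =
        ∑ l ∈ range (2 ^ (n - c₂)), ∑ t ∈ range (2 ^ (c₂ + r)), G k l *
          (EE r n ξ₁ ξ₂ w (k * 2 ^ (c₁ + r) + s) (l * 2 ^ (c₂ + r) + t) *
            (S r c₁ (k * 2 ^ (c₁ + r) + s) * S r c₂ (l * 2 ^ (c₂ + r) + t))) := by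
      intro s hs
      rw [sum_level hc₂]
      apply sum_congr rfl
      intro l _
      apply sum_congr rfl
      intro t ht
      rw [pre_block (mem_range.1 hs), pre_block (mem_range.1 ht)]
      ring
    rw [sum_congr rfl h2, sum_comm]
    apply sum_congr rfl
    intro l _
    simp only [← mul_sum]
    by_cases hkl : ∀ μ, ¬ (pre r c₁ (uu r n (ξ₁ μ)) = k ∧ pre r c₂ (uu r n (ξ₂ μ)) = l)
    · rw [box_sum r n ξ₁ ξ₂ w hr c₁ c₂ k l hkl]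
      ring
    · push Not at hkl
      obtain ⟨μ, h3, h4⟩ := hkl
      have h5 := hG μ
      rw [h3, h4] at h5
      rw [h5]; ring
  rw [sum_congr rfl h1, mul_sum]
  apply sum_congr rfl
  intro k _
  rw [mul_sum]

end key

end Pool.Agent.helper39.GD
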