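import Pool.Agent.helper39.GDRiesz

set_option autoImplicit false

namespace Pool.Agent.helper39.GD

open Finset

theorem geo_sum (s : ℕ) :
    ∑ x ∈ range s, ((5 / 4 : ℝ) ^ (s - (x + 1)) * (1 / 2) ^ (s - x)) ≤ 4 / 3 := by
  have h : ∀ s : ℕ, ∑ x ∈ range s, ((5 / 4 : ℝ) ^ (s - (x + 1)) * (1 / 2) ^ (s - x)) =
      4 / 3 * (1 - (5 / 8) ^ s) := by
    intro s
    rw [← sum_range_reflect]
    have h1 : ∀ x ∈ range s, ((5 / 4 : ℝ) ^ (s - ((s - 1 - x) + 1)) * (1 / 2) ^ (s - (s - 1 - x))) =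
        1 / 2 * (5 / 8) ^ x := by
      intro x hx
      have hx' := mem_range.1 hx
      have e1 : s - ((s - 1 - x) + 1) = x := by omega
      have e2 : s - (s - 1 - x) = x + 1 := by omega
      rw [e1, e2, pow_succ, show (5 / 8 : ℝ) = 5 / 4 * (1 / 2) by norm_num, mul_pow]
      ring
    rw [sum_congr rfl h1, ← mul_sum, geom_sum_eq (by norm_num)]
    ring
  rw [h]
  have : (0:ℝ) ≤ (5 / 8) ^ s := by positivity
  linarith

/-- testing against a function on the grid -/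
def tst (N : ℕ) (E F : ℕ → ℕ → ℝ) : ℝ := ∑ i ∈ range N, ∑ j ∈ range N, E i j * F i j

theorem tst_add (N : ℕ) (E F G : ℕ → ℕ → ℝ) :
    tst N E (fun i j => F i j + G i j) = tst N E F + tst N E G := by
  unfold tst
  simp only [mul_add, sum_add_distrib]

theorem tst_mul (N : ℕ) (E F : ℕ → ℕ → ℝ) (c : ℝ) :
    tst N E (fun i j => c * F i j) = c * tst N E F := by
  unfold tst
  rw [mul_sum]
  apply sum_congr rfl
  intro i _
  rw [mul_sum]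
  apply sum_congr rfl
  intro j _
  ring

theorem tst_sum (N K : ℕ) (E : ℕ → ℕ → ℝ) (F : ℕ → ℕ → ℕ → ℝ) :
    tst N E (fun i j => ∑ s ∈ range K, F s i j) = ∑ s ∈ range K, tst N E (F s) := by
  induction K with
  | zero => simp [tst]
  | succ K ih =>
    simp only [sum_range_succ]
    rw [tst_add, ih]

variable {m : ℕ} (r n : ℕ) (ξ₁ ξ₂ w : Fin m → ℝ)

theorem test_sum (hr : 1 ≤ r) {K : ℕ} (hK : ∀ s < K, r * s ≤ n) (hm : 2 * (m : ℝ) ≤ 2 ^ n) :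
    tst (2 ^ (n + r)) (EE r n ξ₁ ξ₂ w) (fun i j => PP r n ξ₁ ξ₂ K i j - 1) ≤ - (K * UU r n / 24) := by
  have h1 : (fun i j => PP r n ξ₁ ξ₂ K i j - 1) = fun i j =>
      ∑ s ∈ range K, 1 / 4 * (rho r n ξ₁ ξ₂ s i j +
        ∑ x ∈ range s, 1 / 4 * (rho r n ξ₁ ξ₂ s i j * (rho r n ξ₁ ξ₂ x i j * QQ r n ξ₁ ξ₂ x s i j))) := by
    funext i j
    rw [PP_sub_one]
    apply sum_congr rfl
    intro s _
    rw [PP_eq, mul_add, mul_one, mul_sum]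
    congr 2
    apply sum_congr rfl
    intro x _
    ring
  rw [h1, tst_sum]
  have h2 : ∀ s ∈ range K, tst (2 ^ (n + r)) (EE r n ξ₁ ξ₂ w) (fun i j => 1 / 4 * (rho r n ξ₁ ξ₂ s i j +
        ∑ x ∈ range s, 1 / 4 * (rho r n ξ₁ ξ₂ s i j * (rho r n ξ₁ ξ₂ x i j * QQ r n ξ₁ ξ₂ x s i j)))) ≤
      - (UU r n / 24) := by
    intro s hs
    have hs' := hK s (mem_range.1 hs)
    rw [tst_mul, tst_add, tst_sum]
    simp only [tst_mul]
    have h3 : tst (2 ^ (n + r)) (EE r n ξ₁ ξ₂ w) (fun i j => rho r n ξ₁ ξ₂ s i j) ≤ - (UU r n / 2) :=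
      first_order r n ξ₁ ξ₂ w hr hs' hm
    have h4 : ∑ x ∈ range s, 1 / 4 * tst (2 ^ (n + r)) (EE r n ξ₁ ξ₂ w)
        (fun i j => rho r n ξ₁ ξ₂ s i j * (rho r n ξ₁ ξ₂ x i j * QQ r n ξ₁ ξ₂ x s i j)) ≤
        1 / 4 * (UU r n * (4 / 3)) := by
      rw [← mul_sum]
      apply mul_le_mul_of_nonneg_left _ (by norm_num)
      calc _ ≤ ∑ x ∈ range s, UU r n * ((5 / 4) ^ (s - (x + 1)) * (1 / 2) ^ (s - x)) := by
            apply sum_le_sum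
            intro x hx
            exact (le_abs_self _).trans (second_order r n ξ₁ ξ₂ w hr (mem_range.1 hx) hs')
        _ = UU r n * ∑ x ∈ range s, ((5 / 4) ^ (s - (x + 1)) * (1 / 2) ^ (s - x)) := by rw [mul_sum]
        _ ≤ UU r n * (4 / 3) := mul_le_mul_of_nonneg_left (geo_sum s) (UU_pos r n).le
    linarith
  calc _ ≤ ∑ s ∈ range K, - (UU r n / 24) := sum_le_sum h2
    _ = _ := by rw [sum_const, card_range, nsmul_eq_mul]; ring

theorem sum_PP (hr : 1 ≤ r) {K : ℕ} (hK : ∀ s < K, r * s ≤ n) :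
    ∑ i ∈ range (2 ^ (n + r)), ∑ j ∈ range (2 ^ (n + r)), (PP r n ξ₁ ξ₂ K i j - 1) = 0 := by
  have h : ∑ i ∈ range (2 ^ (n + r)), ∑ j ∈ range (2 ^ (n + r)), (PP r n ξ₁ ξ₂ K i j - 1) =
      tst (2 ^ (n + r)) (fun _ _ => 1) (fun i j => PP r n ξ₁ ξ₂ K i j - 1) := by
    unfold tst; simp only [one_mul]
  rw [h]
  have h1 : (fun i j => PP r n ξ₁ ξ₂ K i j - 1) = fun i j =>
      ∑ s ∈ range K, 1 / 4 * (rho r n ξ₁ ξ₂ s i j * PP r n ξ₁ ξ₂ s i j) := by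
    funext i j
    rw [PP_sub_one]
  rw [h1, tst_sum]
  apply sum_eq_zero
  intro s hs
  rw [tst_mul]
  have := sum_rho_PP r n ξ₁ ξ₂ hr (hK s (mem_range.1 hs))
  unfold tst
  simp only [one_mul]
  rw [this, mul_zero]

/-- Some grid point has large error. -/
theorem exists_grid (hr : 1 ≤ r) {K : ℕ} (hK : ∀ s < K, r * s ≤ n) (hm : 2 * (m : ℝ) ≤ 2 ^ n) :
    ∃ i < 2 ^ (n + r), ∃ j < 2 ^ (n + r), (K : ℝ) * UU r n / 24 ≤ |EE r n ξ₁ ξ₂ w i j| * (2 * (2 ^ (n + r)) ^ 2) := by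
  by_contra hcon
  push Not at hcon
  set δ : ℝ := (K : ℝ) * UU r n / 24 / (2 * (2 ^ (n + r)) ^ 2) with hδ
  have hN : (0:ℝ) < 2 * (2 ^ (n + r)) ^ 2 := by positivity
  have h1 : ∀ i ∈ range (2 ^ (n + r)), ∀ j ∈ range (2 ^ (n + r)), |EE r n ξ₁ ξ₂ w i j| < δ := by
    intro i hi j hj
    rw [hδ, lt_div_iff₀ hN]
    exact hcon i (mem_range.1 hi) j (mem_range.1 hj)
  have hne : (range (2 ^ (n + r))).Nonempty := by
    rw [nonempty_range_iff]; positivity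
  have h2 : |tst (2 ^ (n + r)) (EE r n ξ₁ ξ₂ w) (fun i j => PP r n ξ₁ ξ₂ K i j - 1)| <
      δ * (2 * (2 ^ (n + r)) ^ 2) := by
    calc _ ≤ ∑ i ∈ range (2 ^ (n + r)), ∑ j ∈ range (2 ^ (n + r)), |EE r n ξ₁ ξ₂ w i j * (PP r n ξ₁ ξ₂ K i j - 1)| :=
          (abs_sum_le_sum_abs _ _).trans (sum_le_sum fun k _ => abs_sum_le_sum_abs _ _)
      _ < ∑ i ∈ range (2 ^ (n + r)), ∑ j ∈ range (2 ^ (n + r)), δ * ((PP r n ξ₁ ξ₂ K i j - 1) + 2) := by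
          apply sum_lt_sum_of_nonempty hne
          intro i hi
          apply sum_lt_sum_of_nonempty hne
          intro j hj
          rw [abs_mul]
          have hP := PP_nonneg r n ξ₁ ξ₂ K i j
          have h3 : |PP r n ξ₁ ξ₂ K i j - 1| ≤ PP r n ξ₁ ξ₂ K i j - 1 + 2 := by
            rw [abs_le]; constructor <;> linarith
          have h4 : 0 < PP r n ξ₁ ξ₂ K i j - 1 + 2 := by linarith
          calc |EE r n ξ₁ ξ₂ w i j| * |PP r n ξ₁ ξ₂ K i j - 1| ≤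
                |EE r n ξ₁ ξ₂ w i j| * (PP r n ξ₁ ξ₂ K i j - 1 + 2) :=
                mul_le_mul_of_nonneg_left h3 (abs_nonneg _)
            _ < δ * (PP r n ξ₁ ξ₂ K i j - 1 + 2) := mul_lt_mul_of_pos_right (h1 i hi j hj) h4
      _ = _ := by
          simp only [← mul_sum, sum_add_distrib]
          rw [sum_PP r n ξ₁ ξ₂ hr hK]
          simp only [sum_const, card_range, nsmul_eq_mul]
          push_cast
          ring
  have h3 := test_sum r n ξ₁ ξ₂ w hr hK hm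
  have h4 : (K : ℝ) * UU r n / 24 ≤ |tst (2 ^ (n + r)) (EE r n ξ₁ ξ₂ w) (fun i j => PP r n ξ₁ ξ₂ K i j - 1)| := by
    rw [le_abs]; right; linarith
  have h5 : δ * (2 * (2 ^ (n + r)) ^ 2) = (K : ℝ) * UU r n / 24 := by
    rw [hδ]; field_simp
  linarith

theorem UU_div : UU r n = 2 ^ (2 * n) * kap r ^ 2 / (2 ^ (n * r) * 2 ^ (2 * r * r)) := by
  unfold UU
  rw [div_pow, mul_div_assoc']
  rw [div_eq_div_iff (by positivity) (by positivity)]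
  have e : ((2:ℝ) ^ (n + r)) ^ 2 = 2 ^ (2 * n + 2 * r) := by rw [← pow_mul]; congr 1; ring
  rw [e]
  have e1 : ((2:ℝ) ^ (2 * n + 2 * r)) ^ r = (2 ^ n) ^ r * (2 ^ (n * r) * 2 ^ (2 * r * r)) := by
    rw [← pow_mul, ← pow_mul, ← pow_add, ← pow_add]; congr 1; ring
  rw [e1]
  ring

theorem planar (r : ℕ) (hr : 1 ≤ r) : ∃ C : ℝ, 0 < C ∧ ∀ m : ℕ, 1 ≤ m → ∀ ξ₁ ξ₂ w : Fin m → ℝ,
    ∃ t₁ t₂ : ℝ, (0 ≤ t₁ ∧ t₁ ≤ 1) ∧ (0 ≤ t₂ ∧ t₂ ≤ 1) ∧ C * Real.log m / m ^ r ≤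
      |∑ μ, w μ * (bb r t₁ (ξ₁ μ) * bb r t₂ (ξ₂ μ)) - (t₁ ^ r / (r.factorial : ℝ)) * (t₂ ^ r / (r.factorial : ℝ))| := by
  refine ⟨1 / (48 * 2 ^ (2 * r) * 2 ^ (2 * r * r) * 4 ^ r * r), by positivity, ?_⟩
  intro m hm ξ₁ ξ₂ w
  set n := Nat.log 2 m + 2 with hn
  have hn1 : 2 * m ≤ 2 ^ n := by
    have := Nat.lt_pow_succ_log_self (b := 2) (by norm_num) m
    rw [hn, show Nat.log 2 m + 2 = (Nat.log 2 m).succ + 1 by omega, pow_succ]
    omega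
  have hn2 : 2 ^ n ≤ 4 * m := by
    have := Nat.pow_log_le_self 2 (show m ≠ 0 by omega)
    rw [hn, pow_add]
    omega
  set K := n / r + 1 with hKdef
  have hK : ∀ s < K, r * s ≤ n := by
    intro s hs
    have : s ≤ n / r := by omega
    calc r * s ≤ r * (n / r) := Nat.mul_le_mul_left r this
      _ ≤ n := Nat.mul_div_le n r
  have hmR : 2 * (m : ℝ) ≤ 2 ^ n := by exact_mod_cast hn1
  obtain ⟨i, hi, j, hj, h⟩ := exists_grid r n ξ₁ ξ₂ w hr hK hmR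
  have hN : (0:ℝ) < 2 ^ (n + r) := by positivity
  refine ⟨(i : ℝ) / 2 ^ (n + r), (j : ℝ) / 2 ^ (n + r), ⟨by positivity, ?_⟩, ⟨by positivity, ?_⟩, ?_⟩
  · rw [div_le_one hN]; exact_mod_cast hi.le
  · rw [div_le_one hN]; exact_mod_cast hj.le
  change _ ≤ |EE r n ξ₁ ξ₂ w i j|
  have hrpos : (0:ℝ) < r := by exact_mod_cast hr
  have hmpos : (0:ℝ) < m := by exact_mod_cast hm
  -- the logarithm
  have hlog : Real.log m ≤ r * K := by
    have h1 : Real.log m ≤ n := by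
      have h2 : (m : ℝ) ≤ 2 ^ n := by linarith
      calc Real.log m ≤ Real.log (2 ^ n) := Real.log_le_log hmpos h2
        _ = n * Real.log 2 := by rw [Real.log_pow]
        _ ≤ n * 1 := by
            gcongr
            have := Real.log_two_lt_d9
            linarith
        _ = n := mul_one _
    have h3 : n < r * K := by
      rw [hKdef]
      exact Nat.lt_mul_div_succ n (by omega)
    have h4 : (n : ℝ) ≤ r * K := by exact_mod_cast h3.le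
    linarith
  have hkap := one_le_kap r
  have hU : 2 ^ (2 * n) / (2 ^ (n * r) * 2 ^ (2 * r * r)) ≤ UU r n := by
    rw [UU_div]
    gcongr
    have : (1:ℝ) ≤ kap r ^ 2 := one_le_pow₀ hkap
    have h0 : (0:ℝ) < 2 ^ (2 * n) := by positivity
    nlinarith
  have h2nr : (2:ℝ) ^ (n * r) ≤ 4 ^ r * m ^ r := by
    rw [pow_mul, ← mul_pow]
    gcongr
    exact_mod_cast hn2
  have hA : (0:ℝ) < 2 ^ (2 * n) := by positivity
  have hB : (0:ℝ) < 2 ^ (n * r) * 2 ^ (2 * r * r) := by positivity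
  have e : ((2:ℝ) ^ (n + r)) ^ 2 = 2 ^ (2 * n) * 2 ^ (2 * r) := by rw [← pow_mul, ← pow_add]; congr 1; ring
  have h5 : (K : ℝ) * (2 ^ (2 * n) / (2 ^ (n * r) * 2 ^ (2 * r * r))) / 24 ≤ |EE r n ξ₁ ξ₂ w i j| *
      (2 * (2 ^ (2 * n) * 2 ^ (2 * r))) := by
    rw [← e]
    refine le_trans ?_ h
    gcongr
  have h6 : (K : ℝ) / (48 * 2 ^ (2 * r) * (2 ^ (n * r) * 2 ^ (2 * r * r))) ≤ |EE r n ξ₁ ξ₂ w i j| := by
    rw [div_le_iff₀ (by positivity)]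
    have h7 : (K : ℝ) * (2 ^ (2 * n) / (2 ^ (n * r) * 2 ^ (2 * r * r))) / 24 =
        (2 ^ (2 * n) / (24 * (2 ^ (n * r) * 2 ^ (2 * r * r)))) * K := by field_simp
    rw [h7, div_mul_eq_mul_div, div_le_iff₀ (by positivity)] at h5
    have h8 : (2:ℝ) ^ (2 * n) * K ≤ 2 ^ (2 * n) * (|EE r n ξ₁ ξ₂ w i j| *
        (48 * 2 ^ (2 * r) * (2 ^ (n * r) * 2 ^ (2 * r * r)))) := by
      refine h5.trans (le_of_eq ?_)
      ring
    exact le_of_mul_le_mul_left h8 hA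
  refine le_trans ?_ h6
  have hmr : (0:ℝ) < (m:ℝ) ^ r := by positivity
  calc 1 / (48 * 2 ^ (2 * r) * 2 ^ (2 * r * r) * 4 ^ r * r) * Real.log m / (m:ℝ) ^ r
      ≤ 1 / (48 * 2 ^ (2 * r) * 2 ^ (2 * r * r) * 4 ^ r * r) * (r * K) / (m:ℝ) ^ r := by gcongr
    _ = K / (48 * 2 ^ (2 * r) * ((4 ^ r * m ^ r) * 2 ^ (2 * r * r))) := by field_simp
    _ ≤ K / (48 * 2 ^ (2 * r) * (2 ^ (n * r) * 2 ^ (2 * r * r))) := by gcongr

end Pool.Agent.helper39.GD
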