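import Mathlib

set_option autoImplicit false

namespace Pool.Agent.helper39.GD

open Finset

/-- the Thue–Morse sign of the last `r` binary digits of `q` -/
def sg (r q : ℕ) : ℝ := ∏ k ∈ range r, if q.testBit k then (-1 : ℝ) else 1

theorem abs_sg (r q : ℕ) : |sg r q| = 1 := by
  unfold sg
  rw [Finset.abs_prod]
  apply Finset.prod_eq_one
  intro k _
  split_ifs <;> simp

theorem sg_succ_of_lt {r q : ℕ} (h : q < 2 ^ r) : sg (r + 1) q = sg r q := by
  unfold sg
  rw [prod_range_succ, Nat.testBit_lt_two_pow h]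
  simp

theorem sg_succ_add {r q : ℕ} (h : q < 2 ^ r) : sg (r + 1) (2 ^ r + q) = - sg r q := by
  unfold sg
  rw [prod_range_succ]
  have h1 : (2 ^ r + q).testBit r = true := by
    rw [Nat.testBit_two_pow_add_eq, Nat.testBit_lt_two_pow h]; rfl
  rw [h1]
  have h2 : ∏ x ∈ range r, (if (2 ^ r + q).testBit x = true then (-1 : ℝ) else 1) =
      ∏ x ∈ range r, if q.testBit x = true then (-1 : ℝ) else 1 := by
    apply prod_congr rfl
    intro x hx
    rw [Nat.testBit_two_pow_add_gt (mem_range.1 hx)]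
  rw [h2]
  simp

/-- signed power sums -/
def mom (r j : ℕ) (x h : ℝ) : ℝ := ∑ q ∈ range (2 ^ r), sg r q * (x + q * h) ^ j

theorem mom_succ (r j : ℕ) (x h : ℝ) : mom (r + 1) j x h =
    - ∑ i ∈ range j, (mom r i x h) * (2 ^ r * h) ^ (j - i) * (j.choose i : ℝ) := by
  unfold mom
  rw [pow_succ, mul_two, sum_range_add]
  rw [← sum_add_distrib]
  have h1 : ∀ q ∈ range (2 ^ r), sg (r + 1) q * (x + q * h) ^ j +
      sg (r + 1) (2 ^ r + q) * (x + ((2 ^ r + q : ℕ) : ℝ) * h) ^ j =
      - ∑ i ∈ range j, (sg r q * (x + q * h) ^ i) * (2 ^ r * h) ^ (j - i) * (j.choose i : ℝ) := by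
    intro q hq
    rw [sg_succ_of_lt (mem_range.1 hq), sg_succ_add (mem_range.1 hq)]
    have e : x + ((2 ^ r + q : ℕ) : ℝ) * h = (x + q * h) + 2 ^ r * h := by push_cast; ring
    have h4 : ((x + q * h) + 2 ^ r * h) ^ j =
        ∑ i ∈ range j, (x + q * h) ^ i * (2 ^ r * h) ^ (j - i) * (j.choose i : ℝ) + (x + q * h) ^ j := by
      rw [add_pow, sum_range_succ]
      simp
    have h5 : ∑ i ∈ range j, (sg r q * (x + q * h) ^ i) * (2 ^ r * h) ^ (j - i) * (j.choose i : ℝ) =
        sg r q * ∑ i ∈ range j, (x + q * h) ^ i * (2 ^ r * h) ^ (j - i) * (j.choose i : ℝ) := by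
      rw [mul_sum]
      exact sum_congr rfl fun i _ => by ring
    rw [e, h4, h5]
    ring
  rw [sum_congr rfl h1, sum_neg_distrib, sum_comm]
  congr 1
  apply sum_congr rfl
  intro i _
  rw [sum_mul, sum_mul]

theorem mom_lt (r : ℕ) : ∀ (j : ℕ) (x h : ℝ), j < r → mom r j x h = 0 := by
  induction r with
  | zero => intro j x h hj; omega
  | succ r ih =>
    intro j x h hj
    rw [mom_succ, neg_eq_zero]
    apply sum_eq_zero
    intro i hi
    rw [ih i x h (by have := mem_range.1 hi; omega)]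
    ring

/-- product of the powers of two below `2 ^ r` -/
def kap (r : ℕ) : ℝ := ∏ k ∈ range r, (2 : ℝ) ^ k

theorem one_le_kap (r : ℕ) : 1 ≤ kap r := by
  unfold kap
  induction r with
  | zero => simp
  | succ r ih =>
    rw [prod_range_succ]
    have : (1:ℝ) ≤ 2 ^ r := one_le_pow₀ (by norm_num)
    nlinarith

theorem mom_self (r : ℕ) (x h : ℝ) : mom r r x h = (-1) ^ r * (r.factorial : ℝ) * kap r * h ^ r := by
  induction r with
  | zero => simp [mom, sg, kap]
  | succ r ih =>
    rw [mom_succ, sum_range_succ, sum_eq_zero, ih]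
    · unfold kap
      rw [prod_range_succ, Nat.factorial_succ, Nat.choose_succ_self_right]
      have : r + 1 - r = 1 := by omega
      rw [this]
      push_cast
      ring
    · intro i hi
      rw [mom_lt r i x h (mem_range.1 hi)]
      ring

end Pool.Agent.helper39.GD
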