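import Pool.Agent.helper39.GDBlock

set_option autoImplicit false

namespace Pool.Agent.helper39.GD

open Finset

theorem pre_rep {r c c' : ℕ} (h : c ≤ c') (i : ℕ) : pre r c' (pre r c i * 2 ^ (c + r)) = pre r c' i := by
  obtain ⟨d, rfl⟩ := Nat.exists_eq_add_of_le h
  unfold pre
  have e : 2 ^ (c + d + r) = 2 ^ (c + r) * 2 ^ d := by rw [← pow_add]; congr 1; omega
  rw [e, ← Nat.div_div_eq_div_mul, ← Nat.div_div_eq_div_mul, Nat.mul_div_cancel _ (by positivity)]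

theorem S_rep {r c c' : ℕ} (h : c + r ≤ c') (i : ℕ) : S r c' (pre r c i * 2 ^ (c + r)) = S r c' i := by
  obtain ⟨d, rfl⟩ := Nat.exists_eq_add_of_le h
  unfold S pre
  have e : 2 ^ (c + r + d) = 2 ^ (c + r) * 2 ^ d := by rw [← pow_add]
  rw [e, ← Nat.div_div_eq_div_mul, ← Nat.div_div_eq_div_mul, Nat.mul_div_cancel _ (by positivity)]

noncomputable section

section riesz

variable {m : ℕ} (r n : ℕ) (ξ₁ ξ₂ w : Fin m → ℝ)

open Classical in
/-- indicator of the boxes of shape `s` without knots -/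
def emp (s i j : ℕ) : ℝ :=
  if ∃ μ, pre r (n - r * s) (uu r n (ξ₁ μ)) = pre r (n - r * s) i ∧
    pre r (r * s) (uu r n (ξ₂ μ)) = pre r (r * s) j then 0 else 1

theorem emp_nonneg (s i j : ℕ) : 0 ≤ emp r n ξ₁ ξ₂ s i j := by
  unfold emp; split_ifs <;> norm_num

theorem emp_le_one (s i j : ℕ) : emp r n ξ₁ ξ₂ s i j ≤ 1 := by
  unfold emp; split_ifs <;> norm_num

theorem abs_emp_le (s i j : ℕ) : |emp r n ξ₁ ξ₂ s i j| ≤ 1 := by
  rw [abs_of_nonneg (emp_nonneg _ _ _ _ _ _ _)]; exact emp_le_one _ _ _ _ _ _ _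

theorem emp_knot (s : ℕ) (μ : Fin m) : emp r n ξ₁ ξ₂ s (uu r n (ξ₁ μ)) (uu r n (ξ₂ μ)) = 0 := by
  unfold emp
  rw [if_pos ⟨μ, rfl, rfl⟩]

theorem emp_rep {s c₁ c₂ : ℕ} (h₁ : c₁ ≤ n - r * s) (h₂ : c₂ ≤ r * s) (i j : ℕ) :
    emp r n ξ₁ ξ₂ s (pre r c₁ i * 2 ^ (c₁ + r)) (pre r c₂ j * 2 ^ (c₂ + r)) = emp r n ξ₁ ξ₂ s i j := by
  unfold emp
  rw [pre_rep h₁, pre_rep h₂]

/-- the functions of the Riesz product -/
def rho (s i j : ℕ) : ℝ := emp r n ξ₁ ξ₂ s i j * (S r (n - r * s) i * S r (r * s) j)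

theorem abs_rho_le (s i j : ℕ) : |rho r n ξ₁ ξ₂ s i j| ≤ 1 := by
  unfold rho
  rw [abs_mul, abs_mul, abs_S, abs_S, mul_one, mul_one]
  exact abs_emp_le _ _ _ _ _ _ _

theorem rho_rep {s c₁ c₂ : ℕ} (h₁ : c₁ + r ≤ n - r * s) (h₂ : c₂ + r ≤ r * s) (i j : ℕ) :
    rho r n ξ₁ ξ₂ s (pre r c₁ i * 2 ^ (c₁ + r)) (pre r c₂ j * 2 ^ (c₂ + r)) = rho r n ξ₁ ξ₂ s i j := by
  unfold rho
  rw [emp_rep r n ξ₁ ξ₂ (by omega) (by omega), S_rep h₁, S_rep h₂]

/-- partial products -/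
def PP (s i j : ℕ) : ℝ := ∏ x ∈ range s, (1 + 1 / 4 * rho r n ξ₁ ξ₂ x i j)

/-- intermediate products -/
def QQ (x s i j : ℕ) : ℝ := ∏ y ∈ Ico (x + 1) s, (1 + 1 / 4 * rho r n ξ₁ ξ₂ y i j)

theorem fac_nonneg (x i j : ℕ) : 0 ≤ 1 + 1 / 4 * rho r n ξ₁ ξ₂ x i j := by
  have := abs_le.1 (abs_rho_le r n ξ₁ ξ₂ x i j)
  linarith [this.1]

theorem fac_le (x i j : ℕ) : |1 + 1 / 4 * rho r n ξ₁ ξ₂ x i j| ≤ 5 / 4 := by
  have := abs_le.1 (abs_rho_le r n ξ₁ ξ₂ x i j)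
  rw [abs_le]; constructor <;> linarith [this.1, this.2]

theorem PP_nonneg (s i j : ℕ) : 0 ≤ PP r n ξ₁ ξ₂ s i j := prod_nonneg fun _ _ => fac_nonneg _ _ _ _ _ _ _

theorem abs_QQ_le (x s i j : ℕ) : |QQ r n ξ₁ ξ₂ x s i j| ≤ (5 / 4) ^ (s - (x + 1)) := by
  unfold QQ
  rw [abs_prod]
  calc ∏ y ∈ Ico (x + 1) s, |1 + 1 / 4 * rho r n ξ₁ ξ₂ y i j| ≤ ∏ y ∈ Ico (x + 1) s, (5 / 4 : ℝ) :=
        prod_le_prod (fun _ _ => abs_nonneg _) fun y _ => fac_le _ _ _ _ _ _ _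
    _ = _ := by rw [prod_const, Nat.card_Ico]

theorem PP_sub_one (s i j : ℕ) : PP r n ξ₁ ξ₂ s i j - 1 =
    ∑ x ∈ range s, 1 / 4 * (rho r n ξ₁ ξ₂ x i j * PP r n ξ₁ ξ₂ x i j) := by
  induction s with
  | zero => simp [PP]
  | succ s ih =>
    rw [sum_range_succ, ← ih]
    have : PP r n ξ₁ ξ₂ (s + 1) i j = PP r n ξ₁ ξ₂ s i j * (1 + 1 / 4 * rho r n ξ₁ ξ₂ s i j) := by
      unfold PP; rw [prod_range_succ]
    rw [this]; ring

theorem PP_eq (s i j : ℕ) : PP r n ξ₁ ξ₂ s i j =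
    1 + ∑ x ∈ range s, 1 / 4 * (rho r n ξ₁ ξ₂ x i j * QQ r n ξ₁ ξ₂ x s i j) := by
  induction s with
  | zero => simp [PP]
  | succ s ih =>
    have h1 : PP r n ξ₁ ξ₂ (s + 1) i j = PP r n ξ₁ ξ₂ s i j * (1 + 1 / 4 * rho r n ξ₁ ξ₂ s i j) := by
      unfold PP; rw [prod_range_succ]
    have h2 : ∀ x ∈ range s, 1 / 4 * (rho r n ξ₁ ξ₂ x i j * QQ r n ξ₁ ξ₂ x (s + 1) i j) =
        (1 / 4 * (rho r n ξ₁ ξ₂ x i j * QQ r n ξ₁ ξ₂ x s i j)) * (1 + 1 / 4 * rho r n ξ₁ ξ₂ s i j) := by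
      intro x hx
      unfold QQ
      rw [prod_Ico_succ_top (by have := mem_range.1 hx; omega)]
      ring
    have h3 : QQ r n ξ₁ ξ₂ s (s + 1) i j = 1 := by
      unfold QQ; simp
    rw [h1, sum_range_succ, sum_congr rfl h2, ← sum_mul, h3, ih]
    ring

/-- The Riesz product has mean one. -/
theorem sum_rho_PP (hr : 1 ≤ r) {s : ℕ} (hs : r * s ≤ n) :
    ∑ i ∈ range (2 ^ (n + r)), ∑ j ∈ range (2 ^ (n + r)), rho r n ξ₁ ξ₂ s i j * PP r n ξ₁ ξ₂ s i j = 0 := by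
  rw [sum_comm]
  apply sum_eq_zero
  intro j _
  set c := n - r * s with hc
  set F : ℕ → ℝ := fun i => emp r n ξ₁ ξ₂ s i j * S r (r * s) j * PP r n ξ₁ ξ₂ s i j with hF
  have hrep : ∀ i, F i = F (pre r c i * 2 ^ (c + r)) := by
    intro i
    simp only [hF]
    congr 1
    · congr 1
      unfold emp
      rw [pre_rep le_rfl]
    · unfold PP
      apply prod_congr rfl
      intro x hx
      have hx' := mem_range.1 hx
      have h1 : r * (x + 1) ≤ r * s := Nat.mul_le_mul_left r hx'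
      have h2 : c + r ≤ n - r * x := by
        rw [Nat.mul_add, mul_one] at h1
        omega
      unfold rho emp
      rw [S_rep h2, pre_rep (show c ≤ n - r * x by omega)]
  have h1 : ∀ i, rho r n ξ₁ ξ₂ s i j * PP r n ξ₁ ξ₂ s i j = F i * S r c i := by
    intro i
    simp only [hF]
    unfold rho
    ring
  simp only [h1]
  rw [sum_level (c := c) (by omega)]
  apply sum_eq_zero
  intro k _
  have h2 : ∀ t ∈ range (2 ^ (c + r)), F (k * 2 ^ (c + r) + t) * S r c (k * 2 ^ (c + r) + t) =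
      F (k * 2 ^ (c + r)) * S r c (k * 2 ^ (c + r) + t) := by
    intro t ht
    rw [hrep (k * 2 ^ (c + r) + t), pre_block (mem_range.1 ht)]
  rw [sum_congr rfl h2, ← mul_sum, block_one hr, mul_zero]

theorem tau_mul (c₁ c₂ : ℕ) (N : ℝ) : tau r c₁ N * tau r c₂ N =
    2 ^ (c₁ + c₂) * kap r ^ 2 * (2 ^ (c₁ + c₂) / N ^ 2) ^ r := by
  unfold tau
  have h : ((-1 : ℝ) ^ r) ^ 2 = 1 := by rw [← pow_mul, mul_comm, pow_mul]; simp
  calc _ = (2 ^ c₁ * 2 ^ c₂) * kap r ^ 2 * (((-1 : ℝ) ^ r) ^ 2 * ((2 ^ c₁ / N) ^ r * (2 ^ c₂ / N) ^ r)) := by ring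
    _ = _ := by
        rw [h, one_mul, ← mul_pow, ← pow_add]
        congr 2
        rw [pow_add]
        ring

/-- the unit of size -/
def UU : ℝ := 2 ^ (2 * n) * kap r ^ 2 * (2 ^ n / (2 ^ (n + r)) ^ 2) ^ r

theorem UU_pos : 0 < UU r n := by
  have := one_le_kap r
  unfold UU
  positivity

/-- number of empty boxes of a given shape -/
theorem count_emp {s : ℕ} (hs : r * s ≤ n) :
    (2:ℝ) ^ n - m ≤ ∑ k ∈ range (2 ^ (n - (n - r * s))), ∑ l ∈ range (2 ^ (n - r * s)),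
      emp r n ξ₁ ξ₂ s (k * 2 ^ (n - r * s + r)) (l * 2 ^ (r * s + r)) := by
  classical
  have h1 : ∀ k l, 1 - ∑ μ : Fin m, (if pre r (n - r * s) (uu r n (ξ₁ μ)) = k ∧
      pre r (r * s) (uu r n (ξ₂ μ)) = l then (1:ℝ) else 0) ≤
      emp r n ξ₁ ξ₂ s (k * 2 ^ (n - r * s + r)) (l * 2 ^ (r * s + r)) := by
    intro k l
    have e1 : pre r (n - r * s) (k * 2 ^ (n - r * s + r)) = k := by
      have := pre_block (r := r) (c := n - r * s) (k := k) (s := 0) (by positivity)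
      simpa using this
    have e2 : pre r (r * s) (l * 2 ^ (r * s + r)) = l := by
      have := pre_block (r := r) (c := r * s) (k := l) (s := 0) (by positivity)
      simpa using this
    unfold emp
    rw [e1, e2]
    by_cases h : ∃ μ, pre r (n - r * s) (uu r n (ξ₁ μ)) = k ∧ pre r (r * s) (uu r n (ξ₂ μ)) = l
    · rw [if_pos h]
      obtain ⟨μ, hμ⟩ := h
      have : (1:ℝ) ≤ ∑ μ : Fin m, (if pre r (n - r * s) (uu r n (ξ₁ μ)) = k ∧
          pre r (r * s) (uu r n (ξ₂ μ)) = l then (1:ℝ) else 0) := by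
        calc (1:ℝ) = (if pre r (n - r * s) (uu r n (ξ₁ μ)) = k ∧
          pre r (r * s) (uu r n (ξ₂ μ)) = l then (1:ℝ) else 0) := by rw [if_pos hμ]
          _ ≤ _ := single_le_sum (f := fun μ => (if pre r (n - r * s) (uu r n (ξ₁ μ)) = k ∧
            pre r (r * s) (uu r n (ξ₂ μ)) = l then (1:ℝ) else 0))
              (fun ν _ => by positivity) (mem_univ μ)
      linarith
    · rw [if_neg h]
      have : (0:ℝ) ≤ ∑ μ : Fin m, (if pre r (n - r * s) (uu r n (ξ₁ μ)) = k ∧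
          pre r (r * s) (uu r n (ξ₂ μ)) = l then (1:ℝ) else 0) := sum_nonneg fun _ _ => by positivity
      linarith
  have h2 : ∀ μ : Fin m, ∑ k ∈ range (2 ^ (n - (n - r * s))), ∑ l ∈ range (2 ^ (n - r * s)),
      (if pre r (n - r * s) (uu r n (ξ₁ μ)) = k ∧ pre r (r * s) (uu r n (ξ₂ μ)) = l then (1:ℝ) else 0) ≤ 1 := by
    intro μ
    have h3 : ∀ k, ∑ l ∈ range (2 ^ (n - r * s)),
      (if pre r (n - r * s) (uu r n (ξ₁ μ)) = k ∧ pre r (r * s) (uu r n (ξ₂ μ)) = l then (1:ℝ) else 0) ≤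
        if pre r (n - r * s) (uu r n (ξ₁ μ)) = k then 1 else 0 := by
      intro k
      by_cases hk : pre r (n - r * s) (uu r n (ξ₁ μ)) = k
      · simp only [hk, true_and]
        rw [sum_ite_eq]
        split_ifs <;> norm_num
      · simp [hk]
    calc _ ≤ ∑ k ∈ range (2 ^ (n - (n - r * s))), (if pre r (n - r * s) (uu r n (ξ₁ μ)) = k then (1:ℝ) else 0) :=
          sum_le_sum fun k _ => h3 k
      _ ≤ 1 := by
          rw [sum_ite_eq]
          split_ifs <;> norm_num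
  calc (2:ℝ) ^ n - m = ∑ k ∈ range (2 ^ (n - (n - r * s))), ∑ l ∈ range (2 ^ (n - r * s)), (1:ℝ) - ∑ μ : Fin m, 1 := by
        simp only [sum_const, card_range, nsmul_eq_mul, mul_one, Finset.card_univ, Fintype.card_fin]
        congr 1
        push_cast
        rw [← pow_add]
        congr 1
        omega
    _ ≤ ∑ k ∈ range (2 ^ (n - (n - r * s))), ∑ l ∈ range (2 ^ (n - r * s)), (1:ℝ) -
        ∑ μ : Fin m, ∑ k ∈ range (2 ^ (n - (n - r * s))), ∑ l ∈ range (2 ^ (n - r * s)),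
      (if pre r (n - r * s) (uu r n (ξ₁ μ)) = k ∧ pre r (r * s) (uu r n (ξ₂ μ)) = l then (1:ℝ) else 0) := by
        gcongr with μ _
        exact h2 μ
    _ = ∑ k ∈ range (2 ^ (n - (n - r * s))), ∑ l ∈ range (2 ^ (n - r * s)), (1 -
        ∑ μ : Fin m, (if pre r (n - r * s) (uu r n (ξ₁ μ)) = k ∧
          pre r (r * s) (uu r n (ξ₂ μ)) = l then (1:ℝ) else 0)) := by
        simp only [sum_sub_distrib]
        congr 1
        rw [sum_comm]
        apply sum_congr rfl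
        intro k _
        rw [sum_comm]
    _ ≤ _ := sum_le_sum fun k _ => sum_le_sum fun l _ => h1 k l

/-- first order terms -/
theorem first_order (hr : 1 ≤ r) {s : ℕ} (hs : r * s ≤ n) (hm : 2 * (m : ℝ) ≤ 2 ^ n) :
    ∑ i ∈ range (2 ^ (n + r)), ∑ j ∈ range (2 ^ (n + r)), EE r n ξ₁ ξ₂ w i j * rho r n ξ₁ ξ₂ s i j ≤
      - (UU r n / 2) := by
  have h1 : ∀ i j, EE r n ξ₁ ξ₂ w i j * rho r n ξ₁ ξ₂ s i j = EE r n ξ₁ ξ₂ w i j *
      ((fun k l => emp r n ξ₁ ξ₂ s (k * 2 ^ (n - r * s + r)) (l * 2 ^ (r * s + r))) (pre r (n - r * s) i)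
        (pre r (r * s) j) * (S r (n - r * s) i * S r (r * s) j)) := by
    intro i j
    beta_reduce
    rw [emp_rep r n ξ₁ ξ₂ le_rfl le_rfl]
    rfl
  simp only [h1]
  rw [key_sum r n ξ₁ ξ₂ w hr (by omega) hs (fun k l => emp r n ξ₁ ξ₂ s (k * 2 ^ (n - r * s + r)) (l * 2 ^ (r * s + r)))
    (by
      intro μ
      rw [emp_rep r n ξ₁ ξ₂ le_rfl le_rfl, emp_knot])]
  have h2 := count_emp r n ξ₁ ξ₂ hs
  rw [tau_mul]
  have e : n - r * s + r * s = n := by omega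
  rw [e]
  have h3 : (0:ℝ) < 2 ^ n * kap r ^ 2 * (2 ^ n / (2 ^ (n + r)) ^ 2) ^ r := by
    have := one_le_kap r
    positivity
  have h4 : UU r n = (2 ^ n * kap r ^ 2 * (2 ^ n / (2 ^ (n + r)) ^ 2) ^ r) * 2 ^ n := by
    unfold UU
    rw [two_mul, pow_add]
    ring
  rw [h4]
  nlinarith [mul_le_mul_of_nonneg_left h2 h3.le]

/-- second order terms -/
theorem second_order (hr : 1 ≤ r) {x s : ℕ} (hxs : x < s) (hs : r * s ≤ n) :
    |∑ i ∈ range (2 ^ (n + r)), ∑ j ∈ range (2 ^ (n + r)), EE r n ξ₁ ξ₂ w i j *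
      (rho r n ξ₁ ξ₂ s i j * (rho r n ξ₁ ξ₂ x i j * QQ r n ξ₁ ξ₂ x s i j))| ≤
      UU r n * ((5 / 4) ^ (s - (x + 1)) * (1 / 2) ^ (s - x)) := by
  have hx1 : r * (x + 1) ≤ r * s := Nat.mul_le_mul_left r hxs
  have hx2 : r * x + r ≤ r * s := by rw [Nat.mul_add, mul_one] at hx1; exact hx1
  set F : ℕ → ℕ → ℝ := fun i j => emp r n ξ₁ ξ₂ s i j * emp r n ξ₁ ξ₂ x i j *
    (S r (n - r * x) i * S r (r * s) j) * QQ r n ξ₁ ξ₂ x s i j with hF
  have hrep : ∀ i j, F (pre r (n - r * s) i * 2 ^ (n - r * s + r)) (pre r (r * x) j * 2 ^ (r * x + r)) = F i j := by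
    intro i j
    simp only [hF]
    rw [emp_rep r n ξ₁ ξ₂ le_rfl (by omega), emp_rep r n ξ₁ ξ₂ (by omega) le_rfl, S_rep (by omega), S_rep (by omega)]
    congr 1
    unfold QQ
    apply prod_congr rfl
    intro y hy
    obtain ⟨hy1, hy2⟩ := mem_Ico.1 hy
    have h1 : r * (x + 1) ≤ r * y := Nat.mul_le_mul_left r hy1
    have h2 : r * (y + 1) ≤ r * s := Nat.mul_le_mul_left r hy2
    rw [Nat.mul_add, mul_one] at h1 h2
    rw [rho_rep r n ξ₁ ξ₂ (by omega) (by omega)]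
  have h1 : ∀ i j, EE r n ξ₁ ξ₂ w i j *
      (rho r n ξ₁ ξ₂ s i j * (rho r n ξ₁ ξ₂ x i j * QQ r n ξ₁ ξ₂ x s i j)) = EE r n ξ₁ ξ₂ w i j *
      ((fun k l => F (k * 2 ^ (n - r * s + r)) (l * 2 ^ (r * x + r))) (pre r (n - r * s) i)
        (pre r (r * x) j) * (S r (n - r * s) i * S r (r * x) j)) := by
    intro i j
    beta_reduce
    rw [hrep]
    simp only [hF]
    unfold rho
    ring
  simp only [h1]
  rw [key_sum r n ξ₁ ξ₂ w hr (by omega) (by omega) (fun k l => F (k * 2 ^ (n - r * s + r)) (l * 2 ^ (r * x + r)))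
    (by
      intro μ
      rw [hrep]
      simp only [hF]
      rw [emp_knot]; ring)]
  have hFle : ∀ i j, |F i j| ≤ (5 / 4) ^ (s - (x + 1)) := by
    intro i j
    simp only [hF]
    rw [abs_mul, abs_mul, abs_mul, abs_mul, abs_S, abs_S, mul_one, mul_one]
    calc |emp r n ξ₁ ξ₂ s i j| * |emp r n ξ₁ ξ₂ x i j| * |QQ r n ξ₁ ξ₂ x s i j|
        ≤ 1 * 1 * (5 / 4) ^ (s - (x + 1)) := by
          gcongr
          · exact abs_emp_le _ _ _ _ _ _ _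
          · exact abs_emp_le _ _ _ _ _ _ _
          · exact abs_QQ_le _ _ _ _ _ _ _ _
      _ = _ := by ring
  have h2 : |∑ k ∈ range (2 ^ (n - (n - r * s))), ∑ l ∈ range (2 ^ (n - r * x)),
      F (k * 2 ^ (n - r * s + r)) (l * 2 ^ (r * x + r))| ≤
      2 ^ (n - (n - r * s)) * (2 ^ (n - r * x) * (5 / 4) ^ (s - (x + 1))) := by
    calc _ ≤ ∑ k ∈ range (2 ^ (n - (n - r * s))), ∑ l ∈ range (2 ^ (n - r * x)),
          |F (k * 2 ^ (n - r * s + r)) (l * 2 ^ (r * x + r))| :=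
          (abs_sum_le_sum_abs _ _).trans (sum_le_sum fun k _ => abs_sum_le_sum_abs _ _)
      _ ≤ ∑ k ∈ range (2 ^ (n - (n - r * s))), ∑ l ∈ range (2 ^ (n - r * x)), (5 / 4 : ℝ) ^ (s - (x + 1)) :=
          sum_le_sum fun k _ => sum_le_sum fun l _ => hFle _ _
      _ = _ := by
          simp only [sum_const, card_range, nsmul_eq_mul]
          push_cast
          ring
  rw [abs_mul, abs_neg, tau_mul]
  have hk := one_le_kap r
  have hpos : (0:ℝ) ≤ 2 ^ (n - r * s + r * x) * kap r ^ 2 * (2 ^ (n - r * s + r * x) / (2 ^ (n + r)) ^ 2) ^ r := by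
    positivity
  rw [abs_of_nonneg hpos]
  refine (mul_le_mul_of_nonneg_left h2 hpos).trans ?_
  -- powers of two
  obtain ⟨d, hd⟩ : ∃ d, s = x + d := ⟨s - x, by omega⟩
  have hd1 : 1 ≤ d := by omega
  have hrd : r * s = r * x + r * d := by rw [hd, Nat.mul_add]
  have e1 : n - (n - r * s) = r * s := by omega
  have e2 : (2:ℝ) ^ (n - r * s + r * x) * 2 ^ (r * s) * 2 ^ (n - r * x) = 2 ^ (2 * n) := by
    rw [← pow_add, ← pow_add]; congr 1; omega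
  have e3 : (2:ℝ) ^ (n - r * s + r * x) / (2 ^ (n + r)) ^ 2 = (2 ^ n / (2 ^ (n + r)) ^ 2) * (1 / 2) ^ (r * d) := by
    have h5 : (2:ℝ) ^ n = 2 ^ (n - r * s + r * x) * 2 ^ (r * d) := by
      rw [← pow_add]; congr 1; omega
    rw [h5, one_div, inv_pow]
    field_simp
  have e4 : s - x = d := by omega
  rw [e1, e3, mul_pow, e4]
  have h6 : ((1 / 2 : ℝ) ^ (r * d)) ^ r ≤ (1 / 2) ^ d := by
    rw [← pow_mul]
    apply pow_le_pow_of_le_one (by norm_num) (by norm_num)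
    nlinarith [Nat.mul_le_mul hr hr]
  unfold UU
  calc 2 ^ (n - r * s + r * x) * kap r ^ 2 * ((2 ^ n / (2 ^ (n + r)) ^ 2) ^ r * ((1 / 2) ^ (r * d)) ^ r) *
      (2 ^ (r * s) * (2 ^ (n - r * x) * (5 / 4) ^ (s - (x + 1))))
      = (2 ^ (n - r * s + r * x) * 2 ^ (r * s) * 2 ^ (n - r * x)) * kap r ^ 2 * (2 ^ n / (2 ^ (n + r)) ^ 2) ^ r *
        (5 / 4) ^ (s - (x + 1)) * ((1 / 2) ^ (r * d)) ^ r := by ring
    _ ≤ 2 ^ (2 * n) * kap r ^ 2 * (2 ^ n / (2 ^ (n + r)) ^ 2) ^ r * (5 / 4) ^ (s - (x + 1)) * (1 / 2) ^ d := by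
        rw [e2]
        gcongr
    _ = _ := by ring

end riesz

end

end Pool.Agent.helper39.GD
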