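import Pool.Agent.helper39.Schur

set_option autoImplicit false

namespace Pool.Agent.helper39

open scoped ENNReal InnerProductSpace

noncomputable section

variable {G G' : Type*} [Group G] [Group G']

/-- left regular representation -/
def lam : G →* Op G := (U (X := G)).comp (MulAction.toPermHom G G)

@[simp] theorem lam_dl (g h : G) : lam g (dl h) = dl (g * h) := by
  unfold lam
  rw [MonoidHom.comp_apply, U_dl]
  rfl

theorem norm_lam_le (g : G) : ‖(lam g : Op G)‖ ≤ 1 := norm_U_le _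

theorem norm_lam_apply (g : G) (ξ : E G) : ‖lam g ξ‖ = ‖ξ‖ := norm_U_apply _ _

theorem star_lam (g : G) : star (lam g : Op G) = lam g⁻¹ := by
  unfold lam
  rw [MonoidHom.comp_apply, star_U, ← map_inv, ← MonoidHom.comp_apply]

/-- the group algebra acting on `E G` -/
def lamA : MonoidAlgebra ℂ G →ₐ[ℂ] Op G := MonoidAlgebra.lift ℂ (Op G) G lam

@[simp] theorem lamA_single (g : G) (c : ℂ) : lamA (MonoidAlgebra.single g c) = c • (lam g : Op G) := by
  unfold lamA
  rw [MonoidAlgebra.lift_single]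

/-- the vector of a group algebra element -/
def vec (z : MonoidAlgebra ℂ G) : E G := lamA z (dl 1)

theorem vec_apply (z : MonoidAlgebra ℂ G) (g : G) : vec z g = z.coeff g := by
  classical
  unfold vec
  induction z using MonoidAlgebra.induction_linear with
  | zero => simp
  | add x y hx hy =>
    rw [map_add, _root_.add_apply, lp.coeFn_add, Pi.add_apply, hx, hy]; simp
  | single a b =>
    rw [lamA_single, _root_.smul_apply, lp.coeFn_smul, Pi.smul_apply, lam_dl, dl_apply,
      MonoidAlgebra.coeff_single, Finsupp.single_apply]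
    by_cases h : g = a
    · simp [h]
    · simp [h, Ne.symm h]

theorem lamA_vec (z w : MonoidAlgebra ℂ G) : lamA z (vec w) = vec (z * w) := by
  unfold vec
  rw [map_mul]; rfl

theorem norm_vec_sq (z : MonoidAlgebra ℂ G) (D : Finset G) (hD : z.coeff.support ⊆ D) :
    ‖vec z‖ ^ 2 = ∑ g ∈ D, ‖z.coeff g‖ ^ 2 := by
  rw [E_norm_sq]
  simp only [vec_apply]
  apply tsum_eq_sum
  intro g hg
  have : z.coeff g = 0 := Finsupp.notMem_support_iff.1 fun h => hg (hD h)
  rw [this]; simp

theorem norm_vec_mapDomain (z : MonoidAlgebra ℂ G) (D : Finset G) (hD : z.coeff.support ⊆ D)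
    (q : G → G') (hq : Set.InjOn q D) : ‖vec (MonoidAlgebra.mapDomain q z)‖ = ‖vec z‖ := by
  classical
  have h : ‖vec (MonoidAlgebra.mapDomain q z)‖ ^ 2 = ‖vec z‖ ^ 2 := by
    rw [norm_vec_sq z D hD, norm_vec_sq _ (D.image q), Finset.sum_image hq]
    · refine Finset.sum_congr rfl fun g hg => ?_
      rw [MonoidAlgebra.coeff_mapDomain,
        Finsupp.mapDomain_apply' (D : Set G) z.coeff (by exact_mod_cast hD) hq hg]
    · rw [MonoidAlgebra.coeff_mapDomain]
      exact (Finsupp.mapDomain_support).trans (Finset.image_subset_image hD)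
  have := Real.sqrt_inj (sq_nonneg _) (sq_nonneg _) |>.2 h
  rwa [Real.sqrt_sq (norm_nonneg _), Real.sqrt_sq (norm_nonneg _)] at this

theorem dense_vec : Dense (Set.range (vec : MonoidAlgebra ℂ G → E G)) := by
  apply dense_dl.mono
  intro ξ hξ
  refine Submodule.span_induction (p := fun ξ _ => ξ ∈ Set.range (vec : MonoidAlgebra ℂ G → E G))
    ?_ ?_ ?_ ?_ hξ
  · rintro _ ⟨g, rfl⟩
    exact ⟨MonoidAlgebra.single g 1, by unfold vec; simp⟩
  · exact ⟨0, by unfold vec; simp⟩
  · rintro _ _ _ _ ⟨z, rfl⟩ ⟨w, rfl⟩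
    exact ⟨z + w, by unfold vec; simp⟩
  · rintro c _ _ ⟨z, rfl⟩
    exact ⟨c • z, by unfold vec; simp⟩

theorem opNorm_le_of_vec {F : Type*} [NormedAddCommGroup F] [NormedSpace ℂ F] (T : E G →L[ℂ] F) {C : ℝ}
    (hC : 0 ≤ C) (h : ∀ z : MonoidAlgebra ℂ G, ‖T (vec z)‖ ≤ C * ‖vec z‖) : ‖T‖ ≤ C := by
  apply ContinuousLinearMap.opNorm_le_bound _ hC
  intro ξ
  refine DenseRange.induction_on (p := fun ξ => ‖T ξ‖ ≤ C * ‖ξ‖) dense_vec ξ ?_ ?_
  · exact isClosed_le (by fun_prop) (by fun_prop)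
  · intro z
    exact h z

/-- If locally injective images of `z` have norm at most `C`, so has `z`. -/
theorem norm_lamA_le_of_local (z : MonoidAlgebra ℂ G) {C : ℝ} (hC : 0 ≤ C)
    (h : ∀ D : Finset G, ∃ q : G →* G', Set.InjOn q D ∧ ‖lamA (MonoidAlgebra.mapDomain q z)‖ ≤ C) :
    ‖lamA z‖ ≤ C := by
  classical
  apply opNorm_le_of_vec _ hC
  intro w
  obtain ⟨q, hq, hn⟩ := h (w.coeff.support ∪ (z * w).coeff.support)
  have h1 : ‖vec (MonoidAlgebra.mapDomain q w)‖ = ‖vec w‖ :=
    norm_vec_mapDomain w _ Finset.subset_union_left q hq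
  have h2 : ‖vec (MonoidAlgebra.mapDomain q (z * w))‖ = ‖vec (z * w)‖ :=
    norm_vec_mapDomain (z * w) _ Finset.subset_union_right q hq
  rw [lamA_vec, ← h2, MonoidAlgebra.mapDomain_mul, ← lamA_vec, ← h1]
  exact (ContinuousLinearMap.le_opNorm _ _).trans (by gcongr)

theorem norm_lamA_mapDomain_equiv (φ : G ≃* G') (z : MonoidAlgebra ℂ G) :
    ‖lamA (MonoidAlgebra.mapDomain φ z)‖ = ‖lamA z‖ := by
  apply le_antisymm
  · apply norm_lamA_le_of_local _ (norm_nonneg _) (G' := G)
    intro D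
    refine ⟨φ.symm.toMonoidHom, φ.symm.injective.injOn, ?_⟩
    have : MonoidAlgebra.mapDomain φ.symm.toMonoidHom (MonoidAlgebra.mapDomain φ z) = z := by
      ext g
      rw [MonoidAlgebra.coeff_mapDomain, MonoidAlgebra.coeff_mapDomain, ← Finsupp.mapDomain_comp]
      have h : (⇑φ.symm.toMonoidHom ∘ ⇑φ) = id := by funext g; simp
      rw [h, Finsupp.mapDomain_id]
    rw [this]
  · apply norm_lamA_le_of_local _ (norm_nonneg _) (G' := G')
    intro D
    exact ⟨φ.toMonoidHom, φ.injective.injOn, le_rfl⟩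

/-- closure of the group algebra -/
def Cr (G : Type*) [Group G] : Set (Op G) := closure (Set.range (lamA : MonoidAlgebra ℂ G → Op G))

theorem isClosed_Cr : IsClosed (Cr G) := isClosed_closure

theorem exists_near {x : Op G} (hx : x ∈ Cr G) {ε : ℝ} (hε : 0 < ε) :
    ∃ z : MonoidAlgebra ℂ G, ‖x - lamA z‖ < ε := by
  obtain ⟨_, ⟨z, rfl⟩, hz⟩ := Metric.mem_closure_iff.1 hx ε hε
  exact ⟨z, by rwa [dist_eq_norm] at hz⟩

end

end Pool.Agent.helper39
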