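import Mathlib

set_option autoImplicit false

namespace Pool.Agent.helper39

noncomputable section

universe u v w

section defs

variable (B : Type v) [NonUnitalNormedRing B] [NormedSpace ℂ B]

/-- A structure of left Banach `B`-module on the Banach space `X`: a bounded bilinear action
`B × X → X` (given as `act : B →L[ℂ] X →L[ℂ] X`) with `(a b) x = a (b x)`. -/
def IsBanachModule {X : Type w} [NormedAddCommGroup X] [NormedSpace ℂ X]
    (act : B →L[ℂ] X →L[ℂ] X) : Prop :=
  ∀ (a b : B) (x : X), act (a * b) x = act a (act b x)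

/-- Morphisms of left Banach modules: bounded linear maps commuting with the actions. -/
def IsModuleMorphism {X : Type u} {Y : Type w} [NormedAddCommGroup X] [NormedSpace ℂ X]
    [NormedAddCommGroup Y] [NormedSpace ℂ Y] (actX : B →L[ℂ] X →L[ℂ] X) (actY : B →L[ℂ] Y →L[ℂ] Y)
    (f : X →L[ℂ] Y) : Prop :=
  ∀ (b : B) (x : X), f (actX b x) = actY b (f x)

/-- A left Banach `B`-module `P` is projective if for every morphism `σ : X → Y` of left Banach
modules which is surjective and has a bounded linear right inverse, every morphism `P → Y` factors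
as `σ` composed with a morphism `P → X`. -/
def IsProjectiveModule {P : Type v} [NormedAddCommGroup P] [NormedSpace ℂ P]
    (actP : B →L[ℂ] P →L[ℂ] P) : Prop :=
  ∀ (X Y : Type u) [NormedAddCommGroup X] [NormedSpace ℂ X] [CompleteSpace X]
    [NormedAddCommGroup Y] [NormedSpace ℂ Y] [CompleteSpace Y]
    (actX : B →L[ℂ] X →L[ℂ] X) (actY : B →L[ℂ] Y →L[ℂ] Y),
    IsBanachModule B actX → IsBanachModule B actY →
    ∀ σ : X →L[ℂ] Y, IsModuleMorphism B actX actY σ → Function.Surjective σ →
      (∃ ρ : Y →L[ℂ] X, ∀ y, σ (ρ y) = y) →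
      ∀ φ : P →L[ℂ] Y, IsModuleMorphism B actP actY φ →
        ∃ ψ : P →L[ℂ] X, IsModuleMorphism B actP actX ψ ∧ ∀ p, σ (ψ p) = φ p

variable {B} in
/-- Left multiplication on a left ideal `L`. -/
def leftIdealAction [IsScalarTower ℂ B B] [SMulCommClass ℂ B B] (L : Submodule ℂ B)
    (hL : ∀ b : B, ∀ x ∈ L, b * x ∈ L) : B →L[ℂ] L →L[ℂ] L :=
  LinearMap.mkContinuous₂
    (LinearMap.mk₂ ℂ (fun (b : B) (x : L) => (⟨b * x, hL b x x.2⟩ : L))
      (fun a b x => Subtype.ext (by simp [add_mul]))
      (fun c a x => Subtype.ext (by simp [smul_mul_assoc]))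
      (fun a x y => Subtype.ext (by simp [mul_add]))
      (fun c a x => Subtype.ext (by simp [mul_smul_comm])))
    1 (fun b x => by
      rw [one_mul]
      exact norm_mul_le b (x : B))

variable {B} in
theorem leftIdealAction_apply [IsScalarTower ℂ B B] [SMulCommClass ℂ B B] (L : Submodule ℂ B)
    (hL : ∀ b : B, ∀ x ∈ L, b * x ∈ L) (b : B) (x : L) :
    ((leftIdealAction L hL b x : L) : B) = b * x := rfl

/-- A Banach algebra `B` is (left) hereditary if every closed left ideal of `B`, with left
multiplication as action, is a projective left Banach `B`-module. -/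
def IsHereditary [IsScalarTower ℂ B B] [SMulCommClass ℂ B B] : Prop :=
  ∀ (L : Submodule ℂ B) (hL : ∀ b : B, ∀ x ∈ L, b * x ∈ L), IsClosed (L : Set B) →
    IsProjectiveModule.{u} B (leftIdealAction L hL)

end defs

/-- every closed left ideal has a positive contraction `h` with `x (1-h)^n → 0` on the ideal -/
def HL (A : Type v) [CStarAlgebra A] : Prop :=
  ∀ (L : Submodule ℂ A), IsClosed (L : Set A) → (∀ b : A, ∀ x ∈ L, b * x ∈ L) →
    ∃ h ∈ L, IsSelfAdjoint h ∧ spectrum ℝ h ⊆ Set.Icc 0 1 ∧
      ∀ x ∈ L, Filter.Tendsto (fun n : ℕ => x * (1 - h) ^ n) Filter.atTop (nhds 0)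

end

end Pool.Agent.helper39
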