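import Pool.Agent.helper39.L2

set_option autoImplicit false

namespace Pool.Agent.helper39

open scoped ENNReal InnerProductSpace

noncomputable section

variable {X Y Z I : Type*}

/-- bounded operators on `E X` -/
abbrev Op (X : Type*) : Type _ := E X →L[ℂ] E X

theorem entry_star (T : Op X) (x y : X) : (star T) (dl y) x = star (T (dl x) y) := by
  rw [← inner_dl_left x, ContinuousLinearMap.star_eq_adjoint,
    ContinuousLinearMap.adjoint_inner_right, inner_dl_right]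

theorem entry_adjoint (T : E X →L[ℂ] E Y) (x : X) (y : Y) :
    (ContinuousLinearMap.adjoint T) (dl y) x = star (T (dl x) y) := by
  rw [← inner_dl_left x, ContinuousLinearMap.adjoint_inner_right, inner_dl_right]

/-- An operator applied to a vector, coordinatewise, as a sum over its matrix. -/
theorem hasSum_entry (T : E X →L[ℂ] E Y) (ξ : E X) (y : Y) :
    HasSum (fun x => ξ x * T (dl x) y) (T ξ y) := by
  have h := (hasSum_dl ξ).mapL T
  have h2 := h.mapL (innerSL ℂ (dl y : E Y))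
  simp only [innerSL_apply_apply, inner_dl_left, map_smul] at h2
  simpa using h2

/-! ### permutation operators -/

theorem perm_fiber (π : X ≃ Y) (x : X) (s : Finset Y) (hs : ∀ y ∈ s, π.symm y = x) :
    ∑ y ∈ s, ‖((fun _ => 1 : Y → ℂ) y)‖ ^ 2 ≤ (1 : ℝ) ^ 2 := by
  have : s ⊆ {π x} := by
    intro y hy
    rw [Finset.mem_singleton, ← hs y hy]; simp
  calc ∑ y ∈ s, ‖((fun _ => 1 : Y → ℂ) y)‖ ^ 2 ≤ ∑ y ∈ ({π x} : Finset Y), ‖((fun _ => 1 : Y → ℂ) y)‖ ^ 2 :=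
        Finset.sum_le_sum_of_subset_of_nonneg this fun _ _ _ => by positivity
    _ ≤ _ := by simp

/-- transport of vectors along an equivalence -/
def Ue (π : X ≃ Y) : E X →L[ℂ] E Y :=
  wcomp π.symm (fun _ => 1) 1 zero_le_one (perm_fiber π)

theorem Ue_apply (π : X ≃ Y) (ξ : E X) (y : Y) : Ue π ξ y = ξ (π.symm y) := by
  unfold Ue
  rw [wcomp_apply]; simp

@[simp] theorem Ue_dl (π : X ≃ Y) (x : X) : Ue π (dl x) = dl (π x) := by
  classical
  apply E_ext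
  intro y
  rw [Ue_apply, dl_apply, dl_apply]
  congr 1
  rw [Equiv.symm_apply_eq]

theorem norm_Ue_le (π : X ≃ Y) : ‖Ue π‖ ≤ 1 := norm_wcomp_le _ _ _ _ _

/-- The permutation unitary representation. -/
def U : Equiv.Perm X →* Op X where
  toFun π := Ue π
  map_one' := op_ext fun x => by simp
  map_mul' π σ := op_ext fun x => by simp

@[simp] theorem U_dl (π : Equiv.Perm X) (x : X) : U π (dl x) = dl (π x) := Ue_dl π x

theorem U_apply (π : Equiv.Perm X) (ξ : E X) (y : X) : U π ξ y = ξ (π.symm y) := Ue_apply π ξ y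

theorem norm_U_le (π : Equiv.Perm X) : ‖U π‖ ≤ 1 := norm_Ue_le π

theorem star_U (π : Equiv.Perm X) : star (U π) = U π⁻¹ := by
  classical
  apply op_ext'
  intro y x
  rw [entry_star, U_dl, U_dl, dl_apply, dl_apply]
  have : (y = π x) = (x = π⁻¹ y) := by
    rw [Equiv.Perm.eq_inv_iff_eq]
    exact propext eq_comm
  simp only [this]
  split_ifs <;> simp

theorem norm_U_apply (π : Equiv.Perm X) (ξ : E X) : ‖U π ξ‖ = ‖ξ‖ := by
  apply le_antisymm
  · calc ‖U π ξ‖ ≤ ‖U π‖ * ‖ξ‖ := ContinuousLinearMap.le_opNorm _ _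
      _ ≤ 1 * ‖ξ‖ := by gcongr; exact norm_U_le π
      _ = ‖ξ‖ := one_mul _
  · have h : U π⁻¹ (U π ξ) = ξ := by
      rw [← mul_apply_eq_comp, ← map_mul]; simp
    calc ‖ξ‖ = ‖U π⁻¹ (U π ξ)‖ := by rw [h]
      _ ≤ ‖U π⁻¹‖ * ‖U π ξ‖ := ContinuousLinearMap.le_opNorm _ _
      _ ≤ 1 * ‖U π ξ‖ := by gcongr; exact norm_U_le _
      _ = ‖U π ξ‖ := one_mul _

/-! ### multiplication operators -/

theorem mult_fiber (f : X → ℂ) (C : ℝ) (hf : ∀ x, ‖f x‖ ≤ C) (x : X) (s : Finset X)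
    (hs : ∀ y ∈ s, id y = x) : ∑ y ∈ s, ‖f y‖ ^ 2 ≤ C ^ 2 := by
  have : s ⊆ {x} := by
    intro y hy
    rw [Finset.mem_singleton, ← hs y hy]; simp
  calc ∑ y ∈ s, ‖f y‖ ^ 2 ≤ ∑ y ∈ ({x} : Finset X), ‖f y‖ ^ 2 :=
        Finset.sum_le_sum_of_subset_of_nonneg this fun _ _ _ => by positivity
    _ = ‖f x‖ ^ 2 := by simp
    _ ≤ C ^ 2 := by gcongr; exact hf x

/-- multiplication by a bounded function -/
def Mu (f : X → ℂ) (C : ℝ) (hC : 0 ≤ C) (hf : ∀ x, ‖f x‖ ≤ C) : Op X :=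
  wcomp id f C hC (mult_fiber f C hf)

theorem Mu_apply (f : X → ℂ) (C : ℝ) (hC : 0 ≤ C) (hf : ∀ x, ‖f x‖ ≤ C) (ξ : E X) (x : X) :
    Mu f C hC hf ξ x = f x * ξ x := rfl

theorem norm_Mu_le (f : X → ℂ) (C : ℝ) (hC : 0 ≤ C) (hf : ∀ x, ‖f x‖ ≤ C) :
    ‖Mu f C hC hf‖ ≤ C := norm_wcomp_le _ _ _ _ _

open Classical in
/-- projection onto the coordinates in a set -/
def Pr (A : Set X) : Op X :=
  Mu (fun x => if x ∈ A then 1 else 0) 1 zero_le_one (fun x => by split_ifs <;> simp)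

open Classical in
theorem Pr_apply (A : Set X) (ξ : E X) (x : X) : Pr A ξ x = if x ∈ A then ξ x else 0 := by
  unfold Pr
  rw [Mu_apply]; split_ifs <;> simp

theorem norm_Pr_le (A : Set X) : ‖Pr A‖ ≤ 1 := norm_Mu_le _ _ _ _

/-- pairwise disjoint coordinate sets: Bessel inequality -/
theorem sum_norm_Pr_sq_le (ι : Type*) (s : Finset ι) (A : ι → Set X)
    (hA : ∀ i ∈ s, ∀ j ∈ s, i ≠ j → Disjoint (A i) (A j)) (ξ : E X) :
    ∑ i ∈ s, ‖Pr (A i) ξ‖ ^ 2 ≤ ‖ξ‖ ^ 2 := by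
  classical
  have h : ∀ i ∈ s, HasSum (fun x => ‖Pr (A i) ξ x‖ ^ 2) (‖Pr (A i) ξ‖ ^ 2) :=
    fun i _ => E_hasSum _
  have h1 := hasSum_sum h
  refine hasSum_le ?_ h1 (E_hasSum ξ)
  intro x
  by_cases hx : ∃ i ∈ s, x ∈ A i
  · obtain ⟨i, hi, hxi⟩ := hx
    rw [Finset.sum_eq_single_of_mem i hi]
    · rw [Pr_apply, if_pos hxi]
    · intro j hj hji
      have : x ∉ A j := fun hxj => Set.disjoint_left.1 (hA i hi j hj (Ne.symm hji)) hxi hxj
      rw [Pr_apply, if_neg this]; simp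
  · push Not at hx
    rw [Finset.sum_eq_zero]
    · positivity
    · intro i hi
      rw [Pr_apply, if_neg (hx i hi)]; simp

/-- Sums of vectors supported on pairwise disjoint coordinate sets. -/
theorem norm_sum_sq_of_disjoint (ι : Type*) (s : Finset ι) (A : ι → Set X)
    (hA : ∀ i ∈ s, ∀ j ∈ s, i ≠ j → Disjoint (A i) (A j)) (v : ι → E X)
    (hv : ∀ i ∈ s, ∀ x, x ∉ A i → v i x = 0) :
    ‖∑ i ∈ s, v i‖ ^ 2 ≤ ∑ i ∈ s, ‖v i‖ ^ 2 := by
  classical
  have h1 := hasSum_sum (fun i (_ : i ∈ s) => E_hasSum (v i))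
  refine hasSum_le ?_ (E_hasSum _) h1
  intro x
  rw [lp.coeFn_sum, Finset.sum_apply]
  by_cases hx : ∃ i ∈ s, x ∈ A i
  · obtain ⟨i, hi, hxi⟩ := hx
    have h0 : ∀ j ∈ s, j ≠ i → v j x = 0 := by
      intro j hj hji
      exact hv j hj x fun hxj => Set.disjoint_left.1 (hA i hi j hj (Ne.symm hji)) hxi hxj
    rw [Finset.sum_eq_single_of_mem i hi h0, Finset.sum_eq_single_of_mem i hi]
    intro j hj hji
    rw [h0 j hj hji]; simp
  · push Not at hx
    rw [Finset.sum_eq_zero (fun i hi => hv i hi x (hx i hi))]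
    have : (0:ℝ) ≤ ∑ i ∈ s, ‖v i x‖ ^ 2 := by positivity
    simpa using this

end

end Pool.Agent.helper39
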