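import Pool.Agent.helper39.Tensor
import Pool.Agent.helper39.Ops

set_option autoImplicit false

namespace Pool.Agent.helper39

open scoped TensorProduct InnerProductSpace
open TensorProduct

noncomputable section

universe u v

section general

variable {H : Type u} {K : Type v} [NormedAddCommGroup H] [InnerProductSpace ℂ H]
  [NormedAddCommGroup K] [InnerProductSpace ℂ K]

theorem HT_ext {F : Type*} [NormedAddCommGroup F] [NormedSpace ℂ F] {S T : HilbertTensor H K →L[ℂ] F}
    (h : ∀ x y, S (tm x y) = T (tm x y)) : S = T := by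
  apply ContinuousLinearMap.coeFn_injective
  apply denseRange_toHT.equalizer S.continuous T.continuous
  funext t
  simp only [Function.comp]
  induction t using TensorProduct.induction_on with
  | zero => simp
  | add s t hs ht => rw [map_add, map_add, map_add, hs, ht]
  | tmul x y => exact h x y

theorem inner_tm (x x' : H) (y y' : K) : ⟪tm x y, tm x' y'⟫_ℂ = ⟪x, x'⟫_ℂ * ⟪y, y'⟫_ℂ := by
  unfold tm
  rw [LinearIsometry.inner_map_map, TensorProduct.inner_tmul]

theorem tm_add_left (x x' : H) (y : K) : tm (x + x') y = tm x y + tm x' y := by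
  unfold tm
  rw [TensorProduct.add_tmul, map_add]

theorem tm_add_right (x : H) (y y' : K) : tm x (y + y') = tm x y + tm x y' := by
  unfold tm
  rw [TensorProduct.tmul_add, map_add]

theorem tm_smul_left (c : ℂ) (x : H) (y : K) : tm (c • x) y = c • tm x y := by
  unfold tm
  rw [← map_smul]; rfl

theorem tm_smul_right (c : ℂ) (x : H) (y : K) : tm x (c • y) = c • tm x y := by
  unfold tm
  rw [TensorProduct.tmul_smul, map_smul]

theorem norm_tm (x : H) (y : K) : ‖tm x y‖ = ‖x‖ * ‖y‖ := by
  unfold tm
  rw [LinearIsometry.norm_map, TensorProduct.norm_tmul]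

/-- `x ↦ x ⊗ y` as a bounded linear map -/
def tmL (y : K) : H →L[ℂ] HilbertTensor H K :=
  LinearMap.mkContinuous
    { toFun := fun x => tm x y
      map_add' := fun x x' => tm_add_left x x' y
      map_smul' := fun c x => tm_smul_left c x y } ‖y‖ (fun x => by
        simp only [LinearMap.coe_mk, AddHom.coe_mk]
        rw [norm_tm, mul_comm])

theorem tmL_apply (y : K) (x : H) : tmL y x = tm x y := rfl

/-- `y ↦ x ⊗ y` as a bounded linear map -/
def tmR (x : H) : K →L[ℂ] HilbertTensor H K :=
  LinearMap.mkContinuous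
    { toFun := fun y => tm x y
      map_add' := fun y y' => tm_add_right x y y'
      map_smul' := fun c y => tm_smul_right c x y } ‖x‖ (fun y => by
        simp only [LinearMap.coe_mk, AddHom.coe_mk]
        rw [norm_tm])

theorem tmR_apply (x : H) (y : K) : tmR x y = tm x y := rfl

variable [CompleteSpace H] [CompleteSpace K]

theorem opTensor_mul (a a' : H →L[ℂ] H) (b b' : K →L[ℂ] K) :
    opTensor (a * a') (b * b') = opTensor a b * opTensor a' b' := by
  apply HT_ext
  intro x y
  rw [opTensor_tm]
  show tm ((a * a') x) ((b * b') y) = opTensor a b (opTensor a' b' (tm x y))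
  rw [opTensor_tm, opTensor_tm]
  rfl

theorem opTensor_one : opTensor (1 : H →L[ℂ] H) (1 : K →L[ℂ] K) = 1 := by
  apply HT_ext
  intro x y
  rw [opTensor_tm]
  rfl

theorem opTensor_add_left (a a' : H →L[ℂ] H) (b : K →L[ℂ] K) :
    opTensor (a + a') b = opTensor a b + opTensor a' b := by
  apply HT_ext
  intro x y
  rw [opTensor_tm, _root_.add_apply, _root_.add_apply, opTensor_tm, opTensor_tm, tm_add_left]

theorem opTensor_add_right (a : H →L[ℂ] H) (b b' : K →L[ℂ] K) :
    opTensor a (b + b') = opTensor a b + opTensor a b' := by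
  apply HT_ext
  intro x y
  rw [opTensor_tm, _root_.add_apply, _root_.add_apply, opTensor_tm, opTensor_tm, tm_add_right]

theorem opTensor_smul_left (c : ℂ) (a : H →L[ℂ] H) (b : K →L[ℂ] K) :
    opTensor (c • a) b = c • opTensor a b := by
  apply HT_ext
  intro x y
  rw [opTensor_tm, _root_.smul_apply, _root_.smul_apply, opTensor_tm, tm_smul_left]

theorem opTensor_smul_right (c : ℂ) (a : H →L[ℂ] H) (b : K →L[ℂ] K) :
    opTensor a (c • b) = c • opTensor a b := by
  apply HT_ext
  intro x y
  rw [opTensor_tm, _root_.smul_apply, _root_.smul_apply, opTensor_tm, tm_smul_right]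

theorem inner_opTensor_left (a : H →L[ℂ] H) (b : K →L[ℂ] K) (s t : HilbertTensor H K) :
    ⟪opTensor a b s, t⟫_ℂ = ⟪s, opTensor (star a) (star b) t⟫_ℂ := by
  refine DenseRange.induction_on (p := fun s => ⟪opTensor a b s, t⟫_ℂ = ⟪s, opTensor (star a) (star b) t⟫_ℂ)
    denseRange_toHT s ?_ ?_
  · exact isClosed_eq (by fun_prop) (by fun_prop)
  · intro s
    refine DenseRange.induction_on (p := fun t => ⟪opTensor a b (toHT s), t⟫_ℂ =
      ⟪toHT s, opTensor (star a) (star b) t⟫_ℂ) denseRange_toHT t ?_ ?_
    · exact isClosed_eq (by fun_prop) (by fun_prop)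
    · intro t
      rw [opTensor_toHT, opTensor_toHT, LinearIsometry.inner_map_map, LinearIsometry.inner_map_map,
        inner_map_left]

theorem star_opTensor (a : H →L[ℂ] H) (b : K →L[ℂ] K) :
    star (opTensor a b) = opTensor (star a) (star b) := by
  rw [ContinuousLinearMap.star_eq_adjoint]
  apply ContinuousLinearMap.ext
  intro s
  apply ext_inner_left ℂ
  intro t
  rw [ContinuousLinearMap.adjoint_inner_right, inner_opTensor_left]

/-- `a ↦ a ⊗ 1` -/
def opL : (H →L[ℂ] H) →⋆ₐ[ℂ] (HilbertTensor H K →L[ℂ] HilbertTensor H K) where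
  toFun a := opTensor a 1
  map_one' := opTensor_one
  map_mul' a a' := by
    rw [← opTensor_mul, one_mul]
  map_zero' := by
    apply HT_ext
    intro x y
    rw [opTensor_tm]
    show tm (0 : H) y = 0
    have := tm_smul_left (0 : ℂ) (0 : H) y
    simpa using this
  map_add' a a' := opTensor_add_left a a' 1
  commutes' c := by
    show opTensor (algebraMap ℂ (H →L[ℂ] H) c) 1 = algebraMap ℂ _ c
    rw [Algebra.algebraMap_eq_smul_one, opTensor_smul_left, opTensor_one, ← Algebra.algebraMap_eq_smul_one]
  map_star' a := by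
    show opTensor (star a) 1 = star (opTensor a 1)
    rw [star_opTensor, star_one]

/-- `b ↦ 1 ⊗ b` -/
def opR : (K →L[ℂ] K) →⋆ₐ[ℂ] (HilbertTensor H K →L[ℂ] HilbertTensor H K) where
  toFun b := opTensor 1 b
  map_one' := opTensor_one
  map_mul' b b' := by
    rw [← opTensor_mul, one_mul]
  map_zero' := by
    apply HT_ext
    intro x y
    rw [opTensor_tm]
    show tm x (0 : K) = 0
    have := tm_smul_right (0 : ℂ) x (0 : K)
    simpa using this
  map_add' b b' := opTensor_add_right 1 b b'
  commutes' c := by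
    show opTensor 1 (algebraMap ℂ (K →L[ℂ] K) c) = algebraMap ℂ _ c
    rw [Algebra.algebraMap_eq_smul_one, opTensor_smul_right, opTensor_one, ← Algebra.algebraMap_eq_smul_one]
  map_star' b := by
    show opTensor 1 (star b) = star (opTensor 1 b)
    rw [star_opTensor, star_one]

theorem opL_apply (a : H →L[ℂ] H) : opL (K := K) a = opTensor a 1 := rfl

theorem opR_apply (b : K →L[ℂ] K) : opR (H := H) b = opTensor 1 b := rfl

theorem opTensor_eq (a : H →L[ℂ] H) (b : K →L[ℂ] K) : opTensor a b = opL a * opR b := by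
  rw [opL_apply, opR_apply, ← opTensor_mul, one_mul, mul_one]

theorem continuous_opL : Continuous (opL : (H →L[ℂ] H) → (HilbertTensor H K →L[ℂ] HilbertTensor H K)) := by
  have : LipschitzWith 1 (opL : (H →L[ℂ] H) → (HilbertTensor H K →L[ℂ] HilbertTensor H K)) := by
    apply LipschitzWith.of_dist_le_mul
    intro a a'
    rw [dist_eq_norm, dist_eq_norm, ← map_sub, opL_apply]
    calc ‖opTensor (a - a') (1 : K →L[ℂ] K)‖ ≤ ‖a - a'‖ * ‖(1 : K →L[ℂ] K)‖ := norm_opTensor_le _ _
      _ ≤ ‖a - a'‖ * 1 := by
          gcongr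
          exact ContinuousLinearMap.norm_id_le
      _ = _ := by rw [mul_one, NNReal.coe_one, one_mul]
  exact this.continuous

theorem continuous_opR : Continuous (opR : (K →L[ℂ] K) → (HilbertTensor H K →L[ℂ] HilbertTensor H K)) := by
  have : LipschitzWith 1 (opR : (K →L[ℂ] K) → (HilbertTensor H K →L[ℂ] HilbertTensor H K)) := by
    apply LipschitzWith.of_dist_le_mul
    intro a a'
    rw [dist_eq_norm, dist_eq_norm, ← map_sub, opR_apply]
    calc ‖opTensor (1 : H →L[ℂ] H) (a - a')‖ ≤ ‖(1 : H →L[ℂ] H)‖ * ‖a - a'‖ := norm_opTensor_le _ _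
      _ ≤ 1 * ‖a - a'‖ := by
          gcongr
          exact ContinuousLinearMap.norm_id_le
      _ = _ := by rw [NNReal.coe_one]
  exact this.continuous

end general

section basis

variable {X Y : Type*}

open Classical in
/-- the canonical Hilbert basis of the tensor product of two sequence spaces -/
theorem orthonormal_tm : Orthonormal ℂ (fun p : X × Y => (tm (dl p.1) (dl p.2) : HilbertTensor (E X) (E Y))) := by
  rw [orthonormal_iff_ite]
  rintro ⟨x, y⟩ ⟨x', y'⟩
  rw [inner_tm, inner_dl_left, inner_dl_left]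
  simp only
  by_cases hx : x = x'
  · by_cases hy : y = y'
    · subst hx; subst hy; simp
    · rw [dl_ne (x := y') (y := y) hy]
      simp [hy]
  · rw [dl_ne (x := x') (y := x) hx]
    simp [hx]

theorem dense_tm : (⊤ : Submodule ℂ (HilbertTensor (E X) (E Y))) ≤
    (Submodule.span ℂ (Set.range fun p : X × Y => (tm (dl p.1) (dl p.2) : HilbertTensor (E X) (E Y)))).topologicalClosure := by
  set S := (Submodule.span ℂ (Set.range fun p : X × Y => (tm (dl p.1) (dl p.2) : HilbertTensor (E X) (E Y)))).topologicalClosure with hS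
  have hcl : IsClosed (S : Set (HilbertTensor (E X) (E Y))) := Submodule.isClosed_topologicalClosure _
  have h1 : ∀ x y, tm (dl x) (dl y) ∈ S := fun x y =>
    Submodule.le_topologicalClosure _ (Submodule.subset_span ⟨(x, y), rfl⟩)
  have h2 : ∀ (ξ : E X) (y : Y), tm ξ (dl y) ∈ S := by
    intro ξ y
    have hs := (hasSum_dl ξ).mapL (tmL (H := E X) (dl y : E Y))
    refine hcl.mem_of_tendsto hs (Filter.Eventually.of_forall fun s => ?_)
    refine S.sum_mem fun x _ => ?_
    rw [map_smul, tmL_apply]
    exact S.smul_mem _ (h1 x y)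
  have h3 : ∀ (ξ : E X) (η : E Y), tm ξ η ∈ S := by
    intro ξ η
    have hs := (hasSum_dl η).mapL (tmR (K := E Y) ξ)
    refine hcl.mem_of_tendsto hs (Filter.Eventually.of_forall fun s => ?_)
    refine S.sum_mem fun y _ => ?_
    rw [map_smul, tmR_apply]
    exact S.smul_mem _ (h2 ξ y)
  intro t _
  refine DenseRange.induction_on (p := fun t => t ∈ S) denseRange_toHT t hcl ?_
  intro t
  induction t using TensorProduct.induction_on with
  | zero => rw [map_zero]; exact S.zero_mem
  | add s t hs ht => rw [map_add]; exact S.add_mem hs ht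
  | tmul x y => exact h3 x y

/-- the unitary onto the sequence space of the product -/
def basisHT (X Y : Type*) : HilbertBasis (X × Y) ℂ (HilbertTensor (E X) (E Y)) :=
  HilbertBasis.mk orthonormal_tm dense_tm

/-- the unitary onto the sequence space of the product -/
def eHT (X Y : Type*) : HilbertTensor (E X) (E Y) ≃ₗᵢ[ℂ] E (X × Y) := (basisHT X Y).repr

theorem eHT_tm (x : X) (y : Y) : eHT X Y (tm (dl x) (dl y)) = dl (x, y) := by
  classical
  have h1 : basisHT X Y (x, y) = tm (dl x) (dl y) := by
    unfold basisHT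
    rw [HilbertBasis.coe_mk]
  have h2 := (basisHT X Y).repr_self (x, y)
  rw [h1] at h2
  unfold eHT
  rw [h2]
  apply E_ext
  intro p
  rw [dl_apply, lp.single_apply, Pi.single_apply]

theorem eHT_symm_dl (p : X × Y) : (eHT X Y).symm (dl p) = tm (dl p.1) (dl p.2) := by
  rw [LinearIsometryEquiv.symm_apply_eq, eHT_tm]

theorem HT_ext_dl {F : Type*} [NormedAddCommGroup F] [NormedSpace ℂ F]
    {S T : HilbertTensor (E X) (E Y) →L[ℂ] F} (h : ∀ x y, S (tm (dl x) (dl y)) = T (tm (dl x) (dl y))) : S = T := by
  have h1 : S.comp ((eHT X Y).symm : E (X × Y) →L[ℂ] HilbertTensor (E X) (E Y)) =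
      T.comp ((eHT X Y).symm : E (X × Y) →L[ℂ] HilbertTensor (E X) (E Y)) := by
    apply op_ext
    rintro ⟨x, y⟩
    show S ((eHT X Y).symm (dl (x, y))) = T ((eHT X Y).symm (dl (x, y)))
    rw [eHT_symm_dl]
    exact h x y
  ext t
  have := congrArg (fun R => R (eHT X Y t)) h1
  simpa using this

end basis

end

end Pool.Agent.helper39
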