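import Pool.Agent.helper39.Sections
import Pool.Agent.helper39.Tensor2

set_option autoImplicit false

namespace Pool.Agent.helper39

open FreeGroup Filter Topology

noncomputable section

variable {X Y I : Type*}

open Classical in
/-- push-forward of vectors along an injective map -/
def Vj [Nonempty X] (j : X → Y) (hj : Function.Injective j) : E X →L[ℂ] E Y :=
  wcomp (Function.invFun j) (fun y => if y ∈ Set.range j then 1 else 0) 1 zero_le_one (by
    intro x s hs
    calc ∑ y ∈ s, ‖(if y ∈ Set.range j then (1:ℂ) else 0)‖ ^ 2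
        ≤ ∑ y ∈ ({j x} : Finset Y), (1:ℝ) := by
          rw [← Finset.sum_filter_add_sum_filter_not s (fun y => y ∈ Set.range j)]
          have h1 : ∑ y ∈ s with ¬ y ∈ Set.range j, ‖(if y ∈ Set.range j then (1:ℂ) else 0)‖ ^ 2 = 0 := by
            refine Finset.sum_eq_zero fun y hy => ?_
            rw [if_neg (Finset.mem_filter.1 hy).2]; simp
          rw [h1, add_zero]
          have h2 : ∀ y ∈ s.filter (fun y => y ∈ Set.range j), ‖(if y ∈ Set.range j then (1:ℂ) else 0)‖ ^ 2 = 1 := by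
            intro y hy
            rw [if_pos (Finset.mem_filter.1 hy).2]; simp
          rw [Finset.sum_congr rfl h2]
          refine Finset.sum_le_sum_of_subset_of_nonneg ?_ fun _ _ _ => zero_le_one
          intro y hy
          obtain ⟨hy1, x', rfl⟩ := Finset.mem_filter.1 hy
          rw [Finset.mem_singleton, ← hs _ hy1, Function.leftInverse_invFun hj]
      _ = 1 ^ 2 := by simp)

theorem Vj_apply [Nonempty X] (j : X → Y) (hj : Function.Injective j) (ξ : E X) (x : X) :
    Vj j hj ξ (j x) = ξ x := by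
  unfold Vj
  rw [wcomp_apply, if_pos ⟨x, rfl⟩, Function.leftInverse_invFun hj, one_mul]

theorem Vj_apply_not [Nonempty X] (j : X → Y) (hj : Function.Injective j) (ξ : E X) (y : Y)
    (hy : y ∉ Set.range j) : Vj j hj ξ y = 0 := by
  unfold Vj
  rw [wcomp_apply, if_neg hy, zero_mul]

theorem norm_Vj_le [Nonempty X] (j : X → Y) (hj : Function.Injective j) : ‖Vj j hj‖ ≤ 1 :=
  norm_wcomp_le _ _ _ _ _

@[simp] theorem Vj_dl [Nonempty X] (j : X → Y) (hj : Function.Injective j) (x : X) :
    Vj j hj (dl x) = dl (j x) := by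
  apply E_ext
  intro y
  by_cases hy : y ∈ Set.range j
  · obtain ⟨x', rfl⟩ := hy
    rw [Vj_apply]
    by_cases h : x' = x
    · subst h; simp
    · rw [dl_ne h, dl_ne (fun h' => h (hj h'))]
  · rw [Vj_apply_not _ _ _ _ hy, dl_ne]
    rintro rfl
    exact hy ⟨x, rfl⟩

theorem norm_le_Vj [Nonempty X] (j : X → Y) (hj : Function.Injective j) (ξ : E X) :
    ‖ξ‖ ≤ ‖Vj j hj ξ‖ := by
  classical
  apply E_norm_le (norm_nonneg _)
  intro s
  calc ∑ x ∈ s, ‖ξ x‖ ^ 2 = ∑ y ∈ s.image j, ‖Vj j hj ξ y‖ ^ 2 := by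
        rw [Finset.sum_image hj.injOn]
        refine Finset.sum_congr rfl fun x _ => ?_
        rw [Vj_apply]
    _ ≤ ‖Vj j hj ξ‖ ^ 2 := E_sum_le _ _

theorem slice_dl_self (x : X) (i : I) : (slice i (dl (x, i)) : E X) = dl x := by
  classical
  apply E_ext
  intro y
  rw [slice_apply, dl_apply, dl_apply]
  simp [Prod.ext_iff]

theorem slice_dl_ne (x : X) {i j : I} (h : j ≠ i) : (slice i (dl (x, j)) : E X) = 0 := by
  apply E_ext
  intro y
  rw [slice_apply, dl_ne]
  · rfl
  · intro h'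
    exact h (congrArg Prod.snd h').symm

/-- comparison of norms through slices -/
theorem norm_le_of_slices {C : ℝ} (hC : 0 ≤ C) (ζ ζ' : E (X × I))
    (h : ∀ i, ‖(slice i ζ' : E X)‖ ≤ C * ‖(slice i ζ : E X)‖) : ‖ζ'‖ ≤ C * ‖ζ‖ := by
  classical
  apply E_norm_le (by positivity)
  intro s
  calc ∑ p ∈ s, ‖ζ' p‖ ^ 2 ≤ ∑ p ∈ (s.image Prod.fst) ×ˢ (s.image Prod.snd), ‖ζ' p‖ ^ 2 := by
        refine Finset.sum_le_sum_of_subset_of_nonneg ?_ fun _ _ _ => by positivity
        intro p hp
        exact Finset.mem_product.2 ⟨Finset.mem_image_of_mem _ hp, Finset.mem_image_of_mem _ hp⟩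
    _ = ∑ i ∈ s.image Prod.snd, ∑ x ∈ s.image Prod.fst, ‖(slice i ζ' : E X) x‖ ^ 2 := by
        rw [Finset.sum_product_right]
        simp only [slice_apply]
    _ ≤ ∑ i ∈ s.image Prod.snd, ‖(slice i ζ' : E X)‖ ^ 2 := Finset.sum_le_sum fun i _ => E_sum_le _ _
    _ ≤ ∑ i ∈ s.image Prod.snd, C ^ 2 * ‖(slice i ζ : E X)‖ ^ 2 := by
        refine Finset.sum_le_sum fun i _ => ?_
        rw [← mul_pow]
        gcongr
        exact h i
    _ = C ^ 2 * ∑ i ∈ s.image Prod.snd, ‖(slice i ζ : E X)‖ ^ 2 := by rw [Finset.mul_sum]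
    _ ≤ C ^ 2 * ‖ζ‖ ^ 2 := by gcongr; exact sum_slice_le _ _
    _ = (C * ‖ζ‖) ^ 2 := by ring

theorem norm_slice_le (i : I) (ζ : E (X × I)) : ‖(slice i ζ : E X)‖ ≤ ‖ζ‖ := by
  have h := sum_slice_le {i} ζ
  rw [Finset.sum_singleton] at h
  exact le_of_sq_le_sq h (norm_nonneg _)

theorem separable_E [Countable X] : TopologicalSpace.SeparableSpace (E X) := by
  rw [← TopologicalSpace.isSeparable_univ_iff]
  have h1 : TopologicalSpace.IsSeparable (Set.range (dl : X → E X)) := (Set.countable_range _).isSeparable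
  have h2 := (h1.span (R := ℂ)).closure
  rwa [dense_dl.closure_eq] at h2

theorem star_Pr (A : Set X) : star (Pr A : Op X) = Pr A := by
  classical
  apply op_ext'
  intro x y
  rw [entry_star, Pr_apply, Pr_apply]
  by_cases h : x = y
  · subst h
    split_ifs <;> simp
  · rw [dl_ne h, dl_ne (Ne.symm h)]; simp

theorem Pr_dl_mem {A : Set X} {x : X} (h : x ∈ A) : Pr A (dl x) = dl x := by
  classical
  apply E_ext
  intro y
  rw [Pr_apply]
  split_ifs with hy
  · rfl
  · rw [dl_ne]
    rintro rfl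
    exact hy h

theorem Pr_dl_not_mem {A : Set X} {x : X} (h : x ∉ A) : Pr A (dl x) = 0 := by
  classical
  apply E_ext
  intro y
  rw [Pr_apply]
  split_ifs with hy
  · rw [dl_ne]
    · rfl
    · rintro rfl
      exact h hy
  · rfl

/-! ### injectivity on words with letters in a given set -/

theorem injOn_map {α γ : Type} [DecidableEq α] [Nonempty α] {τ : α → γ} {Z : Set α} (h : Set.InjOn τ Z) :
    Set.InjOn (FreeGroup.map τ) {w : FreeGroup α | ∀ l ∈ w.toWord, l.1 ∈ Z} := by
  intro w hw w' hw' e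
  have key : ∀ w : FreeGroup α, (∀ l ∈ w.toWord, l.1 ∈ Z) →
      FreeGroup.map (Function.invFunOn τ Z) (FreeGroup.map τ w) = w := by
    intro w hw
    rw [FreeGroup.map.comp]
    have : FreeGroup.map (Function.invFunOn τ Z ∘ τ) w = FreeGroup.map (id : α → α) w := by
      apply map_congr_letters
      intro l hl
      exact h.leftInvOn_invFunOn (hw l hl)
    rw [this, FreeGroup.map.id]
  rw [← key w hw, ← key w' hw', e]

end

end Pool.Agent.helper39
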