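import Mathlib

set_option autoImplicit false

namespace Pool.Agent.helper39

open scoped ENNReal InnerProductSpace

noncomputable section

/-- The Hilbert space of square summable complex families indexed by `X`. -/
abbrev E (X : Type*) : Type _ := lp (fun _ : X => ℂ) 2

variable {X Y Z I : Type*}

theorem E_ext {ξ η : E X} (h : ∀ x, ξ x = η x) : ξ = η := lp.ext (funext h)

theorem E_hasSum (ξ : E X) : HasSum (fun x => ‖ξ x‖ ^ 2) (‖ξ‖ ^ 2) := by
  have h := lp.hasSum_norm (p := 2) (by norm_num) ξ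
  simpa using h

theorem E_norm_sq (ξ : E X) : ‖ξ‖ ^ 2 = ∑' x, ‖ξ x‖ ^ 2 := (E_hasSum ξ).tsum_eq.symm

theorem E_sum_le (ξ : E X) (s : Finset X) : ∑ x ∈ s, ‖ξ x‖ ^ 2 ≤ ‖ξ‖ ^ 2 :=
  sum_le_hasSum s (fun _ _ => by positivity) (E_hasSum ξ)

/-- Build a vector from a family with uniformly bounded finite sums of squares. -/
def mkE (f : X → ℂ) (C : ℝ) (hf : ∀ s : Finset X, ∑ x ∈ s, ‖f x‖ ^ 2 ≤ C) : E X :=
  ⟨f, memℓp_gen' (C := C) (by intro s; simpa using hf s)⟩

@[simp] theorem mkE_apply (f : X → ℂ) (C : ℝ) (hf) (x : X) : mkE f C hf x = f x := rfl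

theorem E_norm_le {ξ : E X} {C : ℝ} (hC : 0 ≤ C)
    (h : ∀ s : Finset X, ∑ x ∈ s, ‖ξ x‖ ^ 2 ≤ C ^ 2) : ‖ξ‖ ≤ C := by
  apply lp.norm_le_of_forall_sum_le (by norm_num) hC
  intro s
  simpa using h s

/-- basis vectors -/
def dl (x : X) : E X := by classical exact lp.single 2 x (1 : ℂ)

@[simp] theorem dl_self (x : X) : dl x x = (1 : ℂ) := by
  classical
  unfold dl
  exact lp.single_apply_self _ _ _

theorem dl_ne {x y : X} (h : y ≠ x) : dl x y = (0 : ℂ) := by
  classical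
  unfold dl
  exact lp.single_apply_ne _ _ _ h

theorem dl_apply [DecidableEq X] (x y : X) : dl x y = if y = x then (1 : ℂ) else 0 := by
  rcases eq_or_ne y x with h | h
  · subst h
    simp
  · rw [if_neg h]
    exact dl_ne h

@[simp] theorem norm_dl (x : X) : ‖(dl x : E X)‖ = 1 := by
  classical
  unfold dl
  rw [lp.norm_single (by norm_num)]
  simp

theorem inner_dl_left (x : X) (ξ : E X) : ⟪(dl x : E X), ξ⟫_ℂ = ξ x := by
  classical
  unfold dl
  rw [lp.inner_single_left]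
  simp

theorem inner_dl_right (x : X) (ξ : E X) : ⟪ξ, (dl x : E X)⟫_ℂ = star (ξ x) := by
  classical
  unfold dl
  rw [lp.inner_single_right]
  simp

theorem hasSum_dl (ξ : E X) : HasSum (fun x => (ξ x) • (dl x : E X)) ξ := by
  classical
  have h := lp.hasSum_single (p := 2) (by norm_num) ξ
  have h2 : (fun x => (ξ x) • (dl x : E X)) = fun x => lp.single 2 x (ξ x) := by
    funext x
    unfold dl
    rw [← lp.single_smul]
    simp
  rw [h2]; exact h

theorem dense_dl : Dense ((Submodule.span ℂ (Set.range (dl : X → E X)) : Submodule ℂ (E X)) : Set (E X)) := by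
  intro ξ
  have h := hasSum_dl ξ
  refine mem_closure_of_tendsto h (Filter.Eventually.of_forall fun s => ?_)
  exact Submodule.sum_mem _ fun x _ => Submodule.smul_mem _ _ (Submodule.subset_span ⟨x, rfl⟩)

/-- Two bounded operators agreeing on basis vectors are equal. -/
theorem op_ext {F : Type*} [NormedAddCommGroup F] [NormedSpace ℂ F] {S T : E X →L[ℂ] F}
    (h : ∀ x, S (dl x) = T (dl x)) : S = T := by
  apply ContinuousLinearMap.ext_on dense_dl
  rintro _ ⟨x, rfl⟩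
  exact h x

theorem op_ext' {S T : E X →L[ℂ] E Y} (h : ∀ x y, S (dl x) y = T (dl x) y) : S = T :=
  op_ext fun x => E_ext (h x)

/-- Finite sums of squares through a fibre decomposition. -/
theorem sum_fiber_le (m : Y → X) (w : Y → ℂ) (C : ℝ)
    (h : ∀ x, ∀ s : Finset Y, (∀ y ∈ s, m y = x) → ∑ y ∈ s, ‖w y‖ ^ 2 ≤ C ^ 2)
    (ξ : E X) (s : Finset Y) : ∑ y ∈ s, ‖w y * ξ (m y)‖ ^ 2 ≤ (C * ‖ξ‖) ^ 2 := by
  classical
  rw [← Finset.sum_fiberwise_of_maps_to (s := s) (t := s.image m) (g := m)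
    (fun y hy => Finset.mem_image_of_mem m hy)]
  calc ∑ x ∈ s.image m, ∑ y ∈ s with m y = x, ‖w y * ξ (m y)‖ ^ 2
      = ∑ x ∈ s.image m, (∑ y ∈ s with m y = x, ‖w y‖ ^ 2) * ‖ξ x‖ ^ 2 := by
        refine Finset.sum_congr rfl fun x _ => ?_
        rw [Finset.sum_mul]
        refine Finset.sum_congr rfl fun y hy => ?_
        rw [(Finset.mem_filter.1 hy).2, norm_mul, mul_pow]
    _ ≤ ∑ x ∈ s.image m, C ^ 2 * ‖ξ x‖ ^ 2 := by
        refine Finset.sum_le_sum fun x _ => ?_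
        refine mul_le_mul_of_nonneg_right ?_ (by positivity)
        exact h x _ fun y hy => (Finset.mem_filter.1 hy).2
    _ = C ^ 2 * ∑ x ∈ s.image m, ‖ξ x‖ ^ 2 := by rw [Finset.mul_sum]
    _ ≤ C ^ 2 * ‖ξ‖ ^ 2 := mul_le_mul_of_nonneg_left (E_sum_le ξ _) (by positivity)
    _ = (C * ‖ξ‖) ^ 2 := by ring

/-- The weighted composition operator `(T ξ) y = w y * ξ (m y)`. -/
def wcomp (m : Y → X) (w : Y → ℂ) (C : ℝ) (hC : 0 ≤ C)
    (h : ∀ x, ∀ s : Finset Y, (∀ y ∈ s, m y = x) → ∑ y ∈ s, ‖w y‖ ^ 2 ≤ C ^ 2) :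
    E X →L[ℂ] E Y :=
  LinearMap.mkContinuous
    { toFun := fun ξ => mkE (fun y => w y * ξ (m y)) ((C * ‖ξ‖) ^ 2) (sum_fiber_le m w C h ξ)
      map_add' := by
        intro ξ η
        apply E_ext; intro y
        simp only [mkE_apply, lp.coeFn_add, Pi.add_apply]; ring
      map_smul' := by
        intro c ξ
        apply E_ext; intro y
        simp only [mkE_apply, lp.coeFn_smul, Pi.smul_apply, smul_eq_mul, RingHom.id_apply]; ring }
    C (by
      intro ξ
      apply E_norm_le (by positivity)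
      intro s
      exact sum_fiber_le m w C h ξ s)

theorem wcomp_apply (m : Y → X) (w : Y → ℂ) (C : ℝ) (hC : 0 ≤ C) (h) (ξ : E X) (y : Y) :
    wcomp m w C hC h ξ y = w y * ξ (m y) := rfl

theorem norm_wcomp_le (m : Y → X) (w : Y → ℂ) (C : ℝ) (hC : 0 ≤ C) (h) :
    ‖wcomp m w C hC h‖ ≤ C :=
  LinearMap.mkContinuous_norm_le _ hC _

end

end Pool.Agent.helper39
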