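import Pool.Agent.helper39.Avg
import Pool.Agent.helper39.Closing

set_option autoImplicit false

namespace Pool.Agent.helper39

open FreeGroup Filter Topology

noncomputable section

/-- square of a free group -/
abbrev GG (α : Type) : Type := FreeGroup α × FreeGroup α

/-- maps of letters induce homomorphisms -/
def mp {β α : Type} (f : β → α) : GG β →* GG α := (FreeGroup.map f).prodMap (FreeGroup.map f)

theorem mp_apply {β α : Type} (f : β → α) (g : GG β) :
    mp f g = (FreeGroup.map f g.1, FreeGroup.map f g.2) := rfl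

/-- formal combinations with coefficients from a dense sequence -/
def ev {β α : Type} (f : β → α) (y : List (ℕ × GG β)) : Op (GG α) :=
  (y.map fun e => TopologicalSpace.denseSeq ℂ e.1 • lam (mp f e.2)).sum

theorem ev_cons {β α : Type} (f : β → α) (e : ℕ × GG β) (y : List (ℕ × GG β)) :
    ev f (e :: y) = TopologicalSpace.denseSeq ℂ e.1 • lam (mp f e.2) + ev f y := by
  simp [ev]

variable {α : Type} [DecidableEq α]

/-- the subgroup of pairs of words with letters in `R` -/
def PR (R : Set α) : Subgroup (GG α) := (FR R).prod (FR R)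

theorem toWord_map_inj {β : Type} [DecidableEq β] {f : β → α} (hf : Function.Injective f)
    (g : FreeGroup β) : (FreeGroup.map f g).toWord = g.toWord.map (Prod.map f id) := by
  conv_lhs => rw [← mk_toWord (x := g)]
  rw [FreeGroup.map.mk, toWord_mk]
  apply IsReduced.reduce_eq
  have h : IsReduced g.toWord := isReduced_toWord
  unfold FreeGroup.IsReduced at *
  rw [List.isChain_map]
  refine h.imp ?_
  intro a b hab hf'
  exact hab (hf hf')

omit [DecidableEq α] in
theorem map_congr_letters {β : Type} [DecidableEq β] {f f' : β → α} {g : FreeGroup β}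
    (h : ∀ l ∈ g.toWord, f l.1 = f' l.1) : FreeGroup.map f g = FreeGroup.map f' g := by
  conv_lhs => rw [← mk_toWord (x := g)]
  conv_rhs => rw [← mk_toWord (x := g)]
  rw [FreeGroup.map.mk, FreeGroup.map.mk]
  congr 1
  apply List.map_congr_left
  intro l hl
  rw [h l hl]

theorem exists_map_eq {β : Type} {f : β → α} {g : FreeGroup α}
    (h : ∀ l ∈ g.toWord, l.1 ∈ Set.range f) : ∃ e : FreeGroup β, FreeGroup.map f e = g := by
  have h1 : g.toWord ∈ Set.range (List.map (Prod.map f (id : Bool → Bool))) := by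
    rw [Set.range_list_map]
    intro l hl
    obtain ⟨b, hb⟩ := h l hl
    exact ⟨(b, l.2), Prod.ext hb rfl⟩
  obtain ⟨L, hL⟩ := h1
  refine ⟨mk L, ?_⟩
  rw [FreeGroup.map.mk, ← mk_toWord (x := g), ← hL]
  rfl

section tuples

variable {r : Finset α} {k : ℕ}

/-- the letter map of a tuple -/
def ft (r : Finset α) {k : ℕ} (s : Fin k → α) : (↥r ⊕ Fin k) → α := Sum.elim Subtype.val s

omit [DecidableEq α] in
theorem ft_inj {s : Fin k → α} (hs : Function.Injective s) (hsr : ∀ j, s j ∉ r) :
    Function.Injective (ft r s) := by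
  rintro (a | a) (b | b) h
  · simp only [ft, Sum.elim_inl] at h
    rw [Subtype.ext h]
  · simp only [ft, Sum.elim_inl, Sum.elim_inr] at h
    exact absurd (h ▸ a.2) (hsr b)
  · simp only [ft, Sum.elim_inl, Sum.elim_inr] at h
    exact absurd (h ▸ b.2) (hsr a)
  · simp only [ft, Sum.elim_inr] at h
    rw [hs h]

theorem letters_map {s : Fin k → α} (hs : Function.Injective s) (hsr : ∀ j, s j ∉ r)
    (g : FreeGroup (↥r ⊕ Fin k)) :
    ∀ l ∈ (FreeGroup.map (ft r s) g).toWord, l.1 ∈ (r : Set α) ∪ Set.range s := by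
  intro l hl
  rw [toWord_map_inj (ft_inj hs hsr), List.mem_map] at hl
  obtain ⟨m, _, rfl⟩ := hl
  rcases m with ⟨a | a, b⟩
  · left
    simp [ft]
  · right
    exact ⟨a, rfl⟩

/-- the word has a letter in the second summand -/
def hasR (g : FreeGroup (↥r ⊕ Fin k)) : Prop := ∃ l ∈ g.toWord, ∃ j, l.1 = Sum.inr j

theorem hasR_map {s : Fin k → α} (hs : Function.Injective s) (hsr : ∀ j, s j ∉ r)
    {g : FreeGroup (↥r ⊕ Fin k)} (hg : hasR g) :
    ∃ l ∈ (FreeGroup.map (ft r s) g).toWord, l.1 ∈ Set.range s := by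
  obtain ⟨l, hl, j, hj⟩ := hg
  rw [toWord_map_inj (ft_inj hs hsr)]
  refine ⟨Prod.map (ft r s) id l, List.mem_map.2 ⟨l, hl, rfl⟩, ?_⟩
  exact ⟨j, by simp [hj, ft]⟩

theorem not_hasR_letters {g : FreeGroup (↥r ⊕ Fin k)} (hg : ¬ hasR g) :
    ∀ l ∈ g.toWord, ∃ a : ↥r, l.1 = Sum.inl a := by
  intro l hl
  rcases h : l.1 with a | a
  · exact ⟨a, rfl⟩
  · exact absurd ⟨l, hl, a, h⟩ hg

theorem not_hasR_map {s s' : Fin k → α} {g : FreeGroup (↥r ⊕ Fin k)} (hg : ¬ hasR g) :
    FreeGroup.map (ft r s) g = FreeGroup.map (ft r s') g := by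
  apply map_congr_letters
  intro l hl
  obtain ⟨a, ha⟩ := not_hasR_letters hg l hl
  rw [ha]; rfl

theorem not_hasR_mem {R : Set α} (hr : (r : Set α) ⊆ R) {s : Fin k → α} (hs : Function.Injective s)
    (hsr : ∀ j, s j ∉ r) {g : FreeGroup (↥r ⊕ Fin k)} (hg : ¬ hasR g) :
    FreeGroup.map (ft r s) g ∈ FR R := by
  intro l hl
  rw [toWord_map_inj (ft_inj hs hsr), List.mem_map] at hl
  obtain ⟨m, hm, rfl⟩ := hl
  obtain ⟨a, ha⟩ := not_hasR_letters hg m hm
  apply hr
  simp [ha, ft]

theorem hasR_not_mem {R : Set α} {s : Fin k → α} (hs : Function.Injective s) (hsR : ∀ j, s j ∉ R)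
    (hsr : ∀ j, s j ∉ r) {g : FreeGroup (↥r ⊕ Fin k)} (hg : hasR g) :
    FreeGroup.map (ft r s) g ∉ FR R := by
  intro h
  obtain ⟨l, hl, j, hj⟩ := hasR_map hs hsr hg
  exact hsR j (hj ▸ h l hl)

variable {R : Set α} (hr : (r : Set α) ⊆ R) {s0 : Fin k → α} (hs0 : Function.Injective s0)
  (hs0R : ∀ j, s0 j ∉ R) {s : ℕ → Fin k → α} (hs : ∀ i, Function.Injective (s i))
  (hsr : ∀ i j, s i j ∉ r) (hdis : ∀ i j, i ≠ j → Disjoint (Set.range (s i)) (Set.range (s j)))

include hr hs0 hs0R hs hsr hdis in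
theorem tendsto_avg_elem (e : GG (↥r ⊕ Fin k)) :
    Tendsto (fun n : ℕ => ((n : ℂ)⁻¹) • ∑ i ∈ Finset.range n, (lam (mp (ft r (s i)) e) : Op (GG α)))
      atTop (𝓝 (EP (PR R) (lam (mp (ft r s0) e)))) := by
  classical
  have hs0r : ∀ j, s0 j ∉ r := fun j hj => hs0R j (hr hj)
  have hdisj : ∀ i, Disjoint (r : Set α) (Set.range (s i)) := by
    intro i
    rw [Set.disjoint_left]
    rintro a ha ⟨j, rfl⟩
    exact hsr i j ha
  rw [EP_lam]
  by_cases h1 : hasR e.1
  · have hnot : mp (ft r s0) e ∉ PR R := by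
      intro h
      exact hasR_not_mem hs0 hs0R hs0r h1 (Subgroup.mem_prod.1 h).1
    rw [if_neg hnot]
    apply tendsto_avg_zero (fun i => {a : GG α | a.1 ∈ Fset (r : Set α) (Set.range (s i))})
    · intro i j hij
      rw [Set.disjoint_left]
      intro a ha hb
      exact Set.disjoint_left.1 (disjoint_Fset (hdis i j hij)) ha hb
    · intro i a ha
      exact pp_free (hdisj i) (letters_map (hs i) (hsr i) e.1) (hasR_map (hs i) (hsr i) h1) a.1 ha
  by_cases h2 : hasR e.2
  · have hnot : mp (ft r s0) e ∉ PR R := by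
      intro h
      exact hasR_not_mem hs0 hs0R hs0r h2 (Subgroup.mem_prod.1 h).2
    rw [if_neg hnot]
    apply tendsto_avg_zero (fun i => {a : GG α | a.2 ∈ Fset (r : Set α) (Set.range (s i))})
    · intro i j hij
      rw [Set.disjoint_left]
      intro a ha hb
      exact Set.disjoint_left.1 (disjoint_Fset (hdis i j hij)) ha hb
    · intro i a ha
      exact pp_free (hdisj i) (letters_map (hs i) (hsr i) e.2) (hasR_map (hs i) (hsr i) h2) a.2 ha
  · have hmem : mp (ft r s0) e ∈ PR R :=
      Subgroup.mem_prod.2 ⟨not_hasR_mem hr hs0 hs0r h1, not_hasR_mem hr hs0 hs0r h2⟩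
    rw [if_pos hmem]
    have hc : ∀ i, mp (ft r (s i)) e = mp (ft r s0) e := by
      intro i
      rw [mp_apply, mp_apply, not_hasR_map (s' := s0) h1, not_hasR_map (s' := s0) h2]
    simp only [hc]
    exact tendsto_avg_const _

include hr hs0 hs0R hs hsr hdis in
theorem tendsto_avg_ev (y : List (ℕ × GG (↥r ⊕ Fin k))) :
    Tendsto (fun n : ℕ => ((n : ℂ)⁻¹) • ∑ i ∈ Finset.range n, ev (ft r (s i)) y)
      atTop (𝓝 (EP (PR R) (ev (ft r s0) y))) := by
  induction y with
  | nil =>
    have h0 : EP (PR R) (0 : Op (GG α)) = 0 := by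
      have := EP_sub (PR R) (0 : Op (GG α)) 0
      simpa using this
    simp [ev, h0]
  | cons e y ih =>
    have h1 := (tendsto_avg_elem hr hs0 hs0R hs hsr hdis e.2).const_smul (TopologicalSpace.denseSeq ℂ e.1)
    have h2 := h1.add ih
    rw [ev_cons]
    have e1 : EP (PR R) (TopologicalSpace.denseSeq ℂ e.1 • lam (mp (ft r s0) e.2) + ev (ft r s0) y) =
        TopologicalSpace.denseSeq ℂ e.1 • EP (PR R) (lam (mp (ft r s0) e.2)) + EP (PR R) (ev (ft r s0) y) := by
      unfold EP
      rw [SK_add, SK_smul]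
    rw [e1]
    refine h2.congr fun n => ?_
    simp only [ev_cons]
    rw [Finset.sum_add_distrib, smul_add, ← Finset.smul_sum, smul_comm]

end tuples

/-- letters of a pair of words -/
def lets (g : GG α) : Finset α :=
  (g.1.toWord.map Prod.fst).toFinset ∪ (g.2.toWord.map Prod.fst).toFinset

theorem mem_lets1 {g : GG α} {l : α × Bool} (hl : l ∈ g.1.toWord) : l.1 ∈ lets g := by
  unfold lets
  apply Finset.mem_union_left
  rw [List.mem_toFinset]
  exact List.mem_map.2 ⟨l, hl, rfl⟩

theorem mem_lets2 {g : GG α} {l : α × Bool} (hl : l ∈ g.2.toWord) : l.1 ∈ lets g := by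
  unfold lets
  apply Finset.mem_union_right
  rw [List.mem_toFinset]
  exact List.mem_map.2 ⟨l, hl, rfl⟩

/-- approximation by formal combinations -/
theorem exists_template {x : Op (GG α)} (hx : x ∈ Cr (GG α)) (R : Set α) {δ : ℝ} (hδ : 0 < δ) :
    ∃ (r : Finset α) (k : ℕ) (s : Fin k → α) (y : List (ℕ × GG (↥r ⊕ Fin k))),
      (r : Set α) ⊆ R ∧ Function.Injective s ∧ (∀ j, s j ∉ R) ∧ ‖x - ev (ft r s) y‖ < δ := by
  classical
  obtain ⟨z, hz⟩ := exists_near hx (half_pos hδ)
  set Z : Finset α := z.coeff.support.biUnion lets with hZ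
  set r : Finset α := Z.filter (· ∈ R) with hr
  set Zc : Finset α := Z.filter (· ∉ R) with hZc
  set s : Fin Zc.card → α := fun j => (Zc.equivFin.symm j : α) with hs
  have hsinj : Function.Injective s := Subtype.val_injective.comp Zc.equivFin.symm.injective
  have hrange : ∀ a ∈ Z, a ∈ Set.range (ft r s) := by
    intro a ha
    by_cases haR : a ∈ R
    · exact ⟨Sum.inl ⟨a, Finset.mem_filter.2 ⟨ha, haR⟩⟩, rfl⟩
    · refine ⟨Sum.inr (Zc.equivFin ⟨a, Finset.mem_filter.2 ⟨ha, haR⟩⟩), ?_⟩
      simp [ft, hs]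
  have hpre : ∀ g ∈ z.coeff.support, ∃ e : GG (↥r ⊕ Fin Zc.card), mp (ft r s) e = g := by
    intro g hg
    obtain ⟨e1, he1⟩ := exists_map_eq (f := ft r s) (g := g.1) (fun l hl =>
      hrange _ (Finset.mem_biUnion.2 ⟨g, hg, mem_lets1 hl⟩))
    obtain ⟨e2, he2⟩ := exists_map_eq (f := ft r s) (g := g.2) (fun l hl =>
      hrange _ (Finset.mem_biUnion.2 ⟨g, hg, mem_lets2 hl⟩))
    exact ⟨(e1, e2), by rw [mp_apply, he1, he2]⟩
  choose! e he using hpre
  have hcoef : ∀ g : GG α, ∃ n : ℕ, ‖z.coeff g - TopologicalSpace.denseSeq ℂ n‖ <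
      δ / 2 / (z.coeff.support.card + 1) := by
    intro g
    have hd := TopologicalSpace.denseRange_denseSeq ℂ
    obtain ⟨n, hn⟩ := hd.exists_dist_lt (z.coeff g) (ε := δ / 2 / (z.coeff.support.card + 1)) (by positivity)
    exact ⟨n, by rwa [dist_eq_norm] at hn⟩
  choose n hn using hcoef
  refine ⟨r, Zc.card, s, z.coeff.support.toList.map fun g => (n g, e g), ?_, hsinj, ?_, ?_⟩
  · intro a ha
    exact (Finset.mem_filter.1 ha).2
  · intro j
    exact (Finset.mem_filter.1 (Zc.equivFin.symm j).2).2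
  · have hev : ev (ft r s) (z.coeff.support.toList.map fun g => (n g, e g)) =
        ∑ g ∈ z.coeff.support, TopologicalSpace.denseSeq ℂ (n g) • (lam g : Op (GG α)) := by
      unfold ev
      rw [List.map_map, ← Finset.sum_map_toList]
      congr 1
      apply List.map_congr_left
      intro g hg
      simp only [Function.comp]
      rw [he g (Finset.mem_toList.1 hg)]
    have hlz : lamA z = ∑ g ∈ z.coeff.support, z.coeff g • (lam g : Op (GG α)) := by
      unfold lamA
      rw [MonoidAlgebra.lift_apply, Finsupp.sum]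
    have h2 : ‖lamA z - ev (ft r s) (z.coeff.support.toList.map fun g => (n g, e g))‖ ≤ δ / 2 := by
      rw [hev, hlz, ← Finset.sum_sub_distrib]
      calc ‖∑ g ∈ z.coeff.support, (z.coeff g • (lam g : Op (GG α)) - TopologicalSpace.denseSeq ℂ (n g) • lam g)‖
          ≤ ∑ g ∈ z.coeff.support, δ / 2 / (z.coeff.support.card + 1) := by
            refine norm_sum_le_of_le _ fun g _ => ?_
            rw [← sub_smul, norm_smul]
            calc ‖z.coeff g - TopologicalSpace.denseSeq ℂ (n g)‖ * ‖(lam g : Op (GG α))‖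
                ≤ (δ / 2 / (z.coeff.support.card + 1)) * 1 := by
                  gcongr
                  · exact (hn g).le
                  · exact norm_lam_le g
              _ = _ := mul_one _
        _ = z.coeff.support.card * (δ / 2 / (z.coeff.support.card + 1)) := by
            rw [Finset.sum_const, nsmul_eq_mul]
        _ ≤ δ / 2 := by
            rw [mul_div_assoc', div_le_iff₀ (by positivity)]
            nlinarith
    calc ‖x - ev (ft r s) (z.coeff.support.toList.map fun g => (n g, e g))‖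
        = ‖(x - lamA z) + (lamA z - ev (ft r s) (z.coeff.support.toList.map fun g => (n g, e g)))‖ := by
          congr 1; abel
      _ ≤ ‖x - lamA z‖ + ‖lamA z - ev (ft r s) (z.coeff.support.toList.map fun g => (n g, e g))‖ :=
          norm_add_le _ _
      _ < δ := by linarith

instance countable_freeGroup {β : Type*} [Countable β] : Countable (FreeGroup β) :=
  Function.Surjective.countable (f := (FreeGroup.mk : List (β × Bool) → FreeGroup β)) Quot.mk_surjective

/-- the tuples whose combination is close to `M` -/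
def SS (M : Submodule ℂ (Op (GG α))) (r : Finset α) (k : ℕ) (y : List (ℕ × GG (↥r ⊕ Fin k))) (q : ℕ) :
    Set (Fin k → α) :=
  {s | Function.Injective s ∧ (∀ j, s j ∉ r) ∧ ∃ m ∈ M, ‖ev (ft r s) y - m‖ < 1 / ((q : ℝ) + 1)}

open Classical in
/-- the closing-off function -/
def FF (M : Submodule ℂ (Op (GG α))) (r : Finset α) : Set α :=
  ⋃ (k : ℕ) (y : List (ℕ × GG (↥r ⊕ Fin k))) (q : ℕ),
    if h : ∃ V : Finset α, ∀ s ∈ SS M r k y q, ∃ j, s j ∈ V then ((Classical.choose h : Finset α) : Set α) else ∅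

omit [DecidableEq α] in
theorem FF_countable (M : Submodule ℂ (Op (GG α))) (r : Finset α) : (FF M r).Countable := by
  unfold FF
  refine Set.countable_iUnion fun k => Set.countable_iUnion fun y => Set.countable_iUnion fun q => ?_
  split_ifs
  · exact (Finset.finite_toSet _).countable
  · exact Set.countable_empty

/-- Every closed subspace of the reduced group algebra is invariant under some conditional
expectation onto the subalgebra of countably many letters. -/
theorem lemmaA (M : Submodule ℂ (Op (GG α))) (hM : IsClosed (M : Set (Op (GG α))))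
    (hMC : (M : Set (Op (GG α))) ⊆ Cr (GG α)) :
    ∃ R : Set α, R.Countable ∧ ∀ x ∈ M, EP (PR R) x ∈ M := by
  classical
  obtain ⟨R, hR, hcl⟩ := exists_closed_countable (FF M) (FF_countable M)
  refine ⟨R, hR, ?_⟩
  intro x hx
  have key : EP (PR R) x ∈ closure (M : Set (Op (GG α))) := by
    rw [Metric.mem_closure_iff]
    intro ε hε
    obtain ⟨q, hq⟩ := exists_nat_one_div_lt (show (0:ℝ) < ε / 3 by positivity)
    obtain ⟨r, k, s0, y, hr, hs0, hs0R, hxy⟩ := exists_template (hMC hx) R
      (δ := 1 / ((q:ℝ) + 1)) (by positivity)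
    have hs0r : ∀ j, s0 j ∉ r := fun j hj => hs0R j (hr hj)
    have hmem : s0 ∈ SS M r k y q := ⟨hs0, hs0r, x, hx, by rwa [norm_sub_rev]⟩
    rcases exists_seq_or_hit (SS M r k y q) with ⟨s, hs, hdis⟩ | hV
    · have ht := tendsto_avg_ev hr hs0 hs0R (fun i => (hs i).1) (fun i => (hs i).2.1) hdis y
      have hm : ∀ i, ∃ m ∈ M, ‖ev (ft r (s i)) y - m‖ < 1 / ((q : ℝ) + 1) := fun i => (hs i).2.2
      choose m hmM hmn using hm
      obtain ⟨n, hn0, hn⟩ := ((eventually_gt_atTop 0).and
        (Metric.tendsto_nhds.1 ht (ε / 3) (by positivity))).exists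
      rw [dist_eq_norm] at hn
      refine ⟨((n : ℂ)⁻¹) • ∑ i ∈ Finset.range n, m i,
        M.smul_mem _ (M.sum_mem fun i _ => hmM i), ?_⟩
      rw [dist_eq_norm]
      have hn' : (0 : ℝ) < n := by exact_mod_cast hn0
      have b1 : ‖EP (PR R) x - EP (PR R) (ev (ft r s0) y)‖ < ε / 3 := by
        rw [← EP_sub]
        exact (norm_EP_le _ _).trans_lt (hxy.trans hq)
      have b2 : ‖((n : ℂ)⁻¹) • ∑ i ∈ Finset.range n, ev (ft r (s i)) y -
          ((n : ℂ)⁻¹) • ∑ i ∈ Finset.range n, m i‖ ≤ ε / 3 := by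
        rw [← smul_sub, ← Finset.sum_sub_distrib, norm_smul, norm_inv, Complex.norm_natCast]
        calc (n : ℝ)⁻¹ * ‖∑ i ∈ Finset.range n, (ev (ft r (s i)) y - m i)‖
            ≤ (n : ℝ)⁻¹ * ∑ i ∈ Finset.range n, (ε / 3) := by
              gcongr
              exact norm_sum_le_of_le _ fun i _ => ((hmn i).trans hq).le
          _ = ε / 3 := by
              rw [Finset.sum_const, Finset.card_range, nsmul_eq_mul]
              field_simp
      rw [norm_sub_rev] at hn
      calc ‖EP (PR R) x - ((n : ℂ)⁻¹) • ∑ i ∈ Finset.range n, m i‖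
          = ‖(EP (PR R) x - EP (PR R) (ev (ft r s0) y)) +
              (EP (PR R) (ev (ft r s0) y) - ((n : ℂ)⁻¹) • ∑ i ∈ Finset.range n, ev (ft r (s i)) y) +
              (((n : ℂ)⁻¹) • ∑ i ∈ Finset.range n, ev (ft r (s i)) y -
                ((n : ℂ)⁻¹) • ∑ i ∈ Finset.range n, m i)‖ := by congr 1; abel
        _ ≤ _ := norm_add₃_le
        _ < ε := by linarith
    · exfalso
      have hch := Classical.choose_spec hV
      obtain ⟨j, hj⟩ := hch s0 hmem
      apply hs0R j
      apply hcl r hr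
      unfold FF
      refine Set.mem_iUnion.2 ⟨k, Set.mem_iUnion.2 ⟨y, Set.mem_iUnion.2 ⟨q, ?_⟩⟩⟩
      rw [dif_pos hV]
      exact hj
  rwa [hM.closure_eq] at key

end

end Pool.Agent.helper39
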