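import Pool.Agent.helper39.Approx

set_option autoImplicit false

namespace Pool.Agent.helper39

open scoped InnerProductSpace

noncomputable section

section SK

variable {X : Type*} {κ : X → X → ℂ} {C : ℝ}

/-- the Schur multiplier operator -/
def SK (h : IsSchur κ C) (T : Op X) : Op X := Classical.choose (h T)

theorem SK_entry (h : IsSchur κ C) (T : Op X) (x y : X) :
    SK h T (dl y) x = κ x y * T (dl y) x := (Classical.choose_spec (h T)).1 x y

theorem norm_SK_le (h : IsSchur κ C) (T : Op X) : ‖SK h T‖ ≤ C * ‖T‖ :=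
  (Classical.choose_spec (h T)).2

theorem SK_add (h : IsSchur κ C) (S T : Op X) : SK h (S + T) = SK h S + SK h T := by
  apply op_ext'
  intro x y
  rw [SK_entry, _root_.add_apply, _root_.add_apply, lp.coeFn_add, lp.coeFn_add, Pi.add_apply,
    Pi.add_apply, SK_entry, SK_entry]
  ring

theorem SK_sub (h : IsSchur κ C) (S T : Op X) : SK h (S - T) = SK h S - SK h T := by
  apply op_ext'
  intro x y
  rw [SK_entry, _root_.sub_apply, _root_.sub_apply, lp.coeFn_sub, lp.coeFn_sub, Pi.sub_apply,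
    Pi.sub_apply, SK_entry, SK_entry]
  ring

theorem SK_smul (h : IsSchur κ C) (c : ℂ) (T : Op X) : SK h (c • T) = c • SK h T := by
  apply op_ext'
  intro x y
  rw [SK_entry, _root_.smul_apply, _root_.smul_apply, lp.coeFn_smul, lp.coeFn_smul, Pi.smul_apply,
    Pi.smul_apply, SK_entry, smul_eq_mul, smul_eq_mul]
  ring

theorem SK_sum (h : IsSchur κ C) {ι : Type*} (s : Finset ι) (T : ι → Op X) :
    SK h (∑ i ∈ s, T i) = ∑ i ∈ s, SK h (T i) := by
  classical
  induction s using Finset.induction_on with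
  | empty =>
    simp only [Finset.sum_empty]
    apply op_ext'
    intro x y
    rw [SK_entry]; simp
  | insert a s ha ih => rw [Finset.sum_insert ha, Finset.sum_insert ha, SK_add, ih]

end SK

variable {G : Type} [Group G]

open Classical in
theorem isSchur_coset (P : Subgroup G) :
    IsSchur (fun g h : G => if g * h⁻¹ ∈ P then (1 : ℂ) else 0) 1 := by
  have h := isSchur_inter (X := G) (fun g => ({(Quotient.mk (QuotientGroup.rightRel P) g)} : Finset _))
    (fun g => ({(Quotient.mk (QuotientGroup.rightRel P) g)} : Finset _)) 1 (by simp) (by simp)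
  intro T
  obtain ⟨S, h1, h2⟩ := h T
  refine ⟨S, ?_, by simpa using h2⟩
  intro x y
  rw [h1]
  congr 1
  have hiff : (Quotient.mk (QuotientGroup.rightRel P) x = Quotient.mk (QuotientGroup.rightRel P) y) ↔
      x * y⁻¹ ∈ P := by
    rw [Quotient.eq, QuotientGroup.rightRel_apply, ← inv_mem_iff]
    simp
  by_cases hc : x * y⁻¹ ∈ P
  · simp only [if_pos hc, hiff.2 hc]; simp
  · simp only [if_neg hc]
    rw [Finset.singleton_inter_of_notMem]
    · simp
    · rw [Finset.mem_singleton]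
      exact fun h => hc (hiff.1 h)

/-- block diagonal compression to the right cosets of `P` -/
def EP (P : Subgroup G) (T : Op G) : Op G := SK (isSchur_coset P) T

open Classical in
theorem EP_entry (P : Subgroup G) (T : Op G) (g h : G) :
    EP P T (dl h) g = if g * h⁻¹ ∈ P then T (dl h) g else 0 := by
  unfold EP
  rw [SK_entry]
  split_ifs <;> simp

theorem norm_EP_le (P : Subgroup G) (T : Op G) : ‖EP P T‖ ≤ ‖T‖ := by
  have := norm_SK_le (isSchur_coset P) T
  rwa [one_mul] at this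

theorem EP_sub (P : Subgroup G) (S T : Op G) : EP P (S - T) = EP P S - EP P T := SK_sub _ _ _

theorem lam_apply (g : G) (ξ : E G) (k : G) : lam g ξ k = ξ (g⁻¹ * k) := by
  unfold lam
  rw [MonoidHom.comp_apply, U_apply]
  rfl

/-- multiplication operator of a bounded kernel column -/
theorem lamA_sub_SK (κ : G → G → ℂ) {C : ℝ} (hκ : IsSchur κ C) (z : MonoidAlgebra ℂ G) {ε : ℝ}
    (hε : 0 ≤ ε) (h : ∀ g ∈ z.coeff.support, ∀ h, ‖κ (g * h) h - 1‖ ≤ ε) :
    ‖lamA z - SK hκ (lamA z)‖ ≤ (∑ g ∈ z.coeff.support, ‖z.coeff g‖) * ε := by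
  classical
  have hz : lamA z = ∑ g ∈ z.coeff.support, z.coeff g • (lam g : Op G) := by
    unfold lamA
    rw [MonoidAlgebra.lift_apply, Finsupp.sum]
  rw [hz, SK_sum, ← Finset.sum_sub_distrib, Finset.sum_mul]
  refine norm_sum_le_of_le _ fun g hg => ?_
  rw [SK_smul, ← smul_sub, norm_smul]
  refine mul_le_mul_of_nonneg_left ?_ (norm_nonneg _)
  have e : lam g - SK hκ (lam g) = lam g * Mu (fun k => 1 - κ (g * k) k) ε hε (fun k => by
      rw [norm_sub_rev]; exact h g hg k) := by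
    apply op_ext'
    intro k m
    rw [_root_.sub_apply, lp.coeFn_sub, Pi.sub_apply, SK_entry, mul_apply_eq_comp, lam_apply, lam_apply,
      Mu_apply]
    by_cases hm : g⁻¹ * m = k
    · subst hm
      simp
    · rw [dl_ne hm]; simp
  rw [e]
  calc ‖lam g * Mu (fun k => 1 - κ (g * k) k) ε hε _‖
      ≤ ‖(lam g : Op G)‖ * ‖Mu (fun k => 1 - κ (g * k) k) ε hε (fun k => by
      rw [norm_sub_rev]; exact h g hg k)‖ := norm_mul_le _ _
    _ ≤ 1 * ε := by
        gcongr
        · exact norm_lam_le g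
        · exact norm_Mu_le _ _ _ _
    _ = ε := one_mul _

/-- The multiplier applied to `x` lies in the left ideal generated by the compressions. -/
theorem SK_mem_span (P : Subgroup G) (κ : G → G → ℂ) {C : ℝ} (hκ : IsSchur κ C) (hC : 0 ≤ C)
    (hb : ∀ g h, ‖κ g h‖ ≤ C) (hr : ∀ g h, ∀ p ∈ P, κ g (p * h) = κ g h)
    (W : Finset G) (hW : ∀ g h, κ g h ≠ 0 → ∃ w ∈ W, w⁻¹ * (g * h⁻¹) ∈ P) (x : Op G) :
    SK hκ x ∈ Ideal.span {y | ∃ w, y = EP P (lam w⁻¹ * x)} := by
  classical
  set Q : Finset (G ⧸ P) := W.image (QuotientGroup.mk : G → G ⧸ P) with hQ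
  have key : SK hκ x = ∑ c ∈ Q, (Mu (fun g => κ g (c.out⁻¹ * g)) C hC (fun g => hb _ _) * lam c.out) *
      EP P (lam (c.out)⁻¹ * x) := by
    apply op_ext'
    intro h g
    rw [SK_entry, _root_.sum_apply, lp.coeFn_sum, Finset.sum_apply]
    have hterm : ∀ c : G ⧸ P, ((Mu (fun g => κ g (c.out⁻¹ * g)) C hC (fun g => hb _ _) * lam c.out) *
        EP P (lam (c.out)⁻¹ * x)) (dl h) g =
        if ((g * h⁻¹ : G) : G ⧸ P) = c then κ g h * x (dl h) g else 0 := by
      intro c
      rw [mul_apply_eq_comp, mul_apply_eq_comp, Mu_apply, lam_apply, EP_entry, mul_apply_eq_comp,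
        lam_apply]
      have hiff : ((g * h⁻¹ : G) : G ⧸ P) = c ↔ c.out⁻¹ * g * h⁻¹ ∈ P := by
        conv_lhs => rw [← QuotientGroup.out_eq' c]
        rw [eq_comm, QuotientGroup.eq, mul_assoc]
      by_cases hc : ((g * h⁻¹ : G) : G ⧸ P) = c
      · have hm := hiff.1 hc
        rw [if_pos hm, if_pos hc]
        have e1 : κ g h = κ g (c.out⁻¹ * g) := by
          have := hr g (c.out⁻¹ * g) _ (inv_mem hm)
          rw [← this]
          congr 1
          group
        rw [e1]
        congr 2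
        group
      · rw [if_neg hc, if_neg (fun hm => hc (hiff.2 hm))]; simp
    rw [Finset.sum_congr rfl fun c _ => hterm c, Finset.sum_ite_eq]
    split_ifs with hmem
    · rfl
    · have : κ g h = 0 := by
        by_contra hne
        obtain ⟨w, hw, hwP⟩ := hW g h hne
        apply hmem
        rw [hQ, Finset.mem_image]
        exact ⟨w, hw, QuotientGroup.eq.2 hwP⟩
      rw [this, zero_mul]
  rw [key]
  refine Ideal.sum_mem _ fun c _ => ?_
  exact Ideal.mul_mem_left _ _ (Ideal.subset_span ⟨c.out, rfl⟩)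

theorem lemmaB (P : Subgroup G) {C : ℝ} (hC : 0 ≤ C) (hP : Approx P C) {x : Op G} (hx : x ∈ Cr G) :
    x ∈ closure ((Ideal.span {y | ∃ w, y = EP P (lam w⁻¹ * x)} : Ideal (Op G)) : Set (Op G)) := by
  classical
  rw [Metric.mem_closure_iff]
  intro ε hε
  obtain ⟨z, hz⟩ := exists_near hx (ε := ε / (3 * (1 + C))) (by positivity)
  set K : ℝ := ∑ g ∈ z.coeff.support, ‖z.coeff g‖ with hK
  have hK0 : 0 ≤ K := Finset.sum_nonneg fun _ _ => norm_nonneg _
  obtain ⟨κ, k1, k2, k3, k4, W, k5⟩ := hP z.coeff.support (ε / (3 * (1 + K))) (by positivity)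
  have hκ : IsSchur κ C := k1 G id id
  refine ⟨SK hκ x, SK_mem_span P κ hκ hC k2 k4 W k5 x, ?_⟩
  have e : x - SK hκ x = (x - lamA z) + (lamA z - SK hκ (lamA z)) + (SK hκ (lamA z - x)) := by
    rw [SK_sub]; abel
  rw [dist_eq_norm, e]
  have b1 : ‖lamA z - SK hκ (lamA z)‖ ≤ K * (ε / (3 * (1 + K))) :=
    lamA_sub_SK κ hκ z (by positivity) k3
  have b2 : ‖SK hκ (lamA z - x)‖ ≤ C * ‖x - lamA z‖ := by
    have := norm_SK_le hκ (lamA z - x)
    rwa [norm_sub_rev] at this
  have b3 : K * (ε / (3 * (1 + K))) < ε / 3 + 0 := by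
    rw [mul_div_assoc', add_zero, div_lt_div_iff₀ (by positivity) (by positivity)]
    nlinarith
  have b4 : (1 + C) * ‖x - lamA z‖ < ε / 3 := by
    calc (1 + C) * ‖x - lamA z‖ < (1 + C) * (ε / (3 * (1 + C))) := by gcongr
      _ = ε / 3 := by field_simp
  calc ‖(x - lamA z) + (lamA z - SK hκ (lamA z)) + (SK hκ (lamA z - x))‖
      ≤ ‖x - lamA z‖ + ‖lamA z - SK hκ (lamA z)‖ + ‖SK hκ (lamA z - x)‖ := norm_add₃_le
    _ ≤ ‖x - lamA z‖ + K * (ε / (3 * (1 + K))) + C * ‖x - lamA z‖ := by gcongr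
    _ < ε := by linarith

end

end Pool.Agent.helper39
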