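import Mathlib

set_option autoImplicit false

/-!
Definitions used in the statement of the result: left Banach modules, projective modules, hereditary
Banach algebras, Hilbert space tensor products and minimal tensor products of C*-algebras of operators.
-/

namespace Pool.Agent.helper39.MT

open scoped InnerProductSpace

universe u v w p z

section modules

variable {B : Type v} [NonUnitalNormedRing B] [NormedSpace ℂ B]

/-- `act` makes the complex Banach space `X` a left Banach `B`-module (`act b x` is the product of
`b` and `x`): it is bilinear, bounded and satisfies `(a b) x = a (b x)`. -/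
structure IsBanachModule {X : Type w} [NormedAddCommGroup X] [NormedSpace ℂ X] (act : B → X → X) :
    Prop where
  add_left : ∀ (a b : B) (x : X), act (a + b) x = act a x + act b x
  smul_left : ∀ (c : ℂ) (a : B) (x : X), act (c • a) x = c • act a x
  add_right : ∀ (a : B) (x y : X), act a (x + y) = act a x + act a y
  smul_right : ∀ (c : ℂ) (a : B) (x : X), act a (c • x) = c • act a x
  mul_left : ∀ (a b : B) (x : X), act (a * b) x = act a (act b x)
  bounded : ∃ C : ℝ, ∀ (a : B) (x : X), ‖act a x‖ ≤ C * ‖a‖ * ‖x‖

/-- Morphisms of left Banach modules: bounded linear maps commuting with the actions. -/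
def IsModuleMorphism {X : Type u} {Y : Type w} [NormedAddCommGroup X] [NormedSpace ℂ X]
    [NormedAddCommGroup Y] [NormedSpace ℂ Y] (actX : B → X → X) (actY : B → Y → Y)
    (f : X →L[ℂ] Y) : Prop :=
  ∀ (b : B) (x : X), f (actX b x) = actY b (f x)

/-- Through every surjective morphism `σ : X → Y` having a bounded linear right inverse, every
morphism `φ : P → Y` factors as `σ` composed with some morphism `ψ : P → X`. -/
def HasLifts {P : Type p} {X Y : Type u} [NormedAddCommGroup P] [NormedSpace ℂ P]
    [NormedAddCommGroup X] [NormedSpace ℂ X] [NormedAddCommGroup Y] [NormedSpace ℂ Y]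
    (actP : B → P → P) (actX : B → X → X) (actY : B → Y → Y) : Prop :=
  ∀ σ : X →L[ℂ] Y, IsModuleMorphism actX actY σ → Function.Surjective σ →
    (∃ ρ : Y →L[ℂ] X, ∀ y, σ (ρ y) = y) →
      ∀ φ : P →L[ℂ] Y, IsModuleMorphism actP actY φ →
        ∃ ψ : P →L[ℂ] X, IsModuleMorphism actP actX ψ ∧ ∀ q, σ (ψ q) = φ q

/-- A left Banach `B`-module `P` is projective if `HasLifts` holds for all left Banach `B`-modules
`X` and `Y`. -/
def IsProjectiveModule {P : Type p} [NormedAddCommGroup P] [NormedSpace ℂ P] (actP : B → P → P) :
    Prop :=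
  ∀ (X Y : Type u) [NormedAddCommGroup X] [NormedSpace ℂ X] [CompleteSpace X]
    [NormedAddCommGroup Y] [NormedSpace ℂ Y] [CompleteSpace Y] (actX : B → X → X)
    (actY : B → Y → Y), IsBanachModule actX → IsBanachModule actY → HasLifts actP actX actY

variable (B)

/-- A Banach algebra `B` is (left) hereditary if every closed left ideal `I` of `B`, with left
multiplication as action, is a projective left Banach `B`-module. -/
def IsHereditary : Prop :=
  ∀ I : Submodule ℂ B, IsClosed (I : Set B) → ∀ hI : ∀ b : B, ∀ x ∈ I, b * x ∈ I,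
    IsProjectiveModule.{u} (fun (b : B) (x : I) => (⟨b * x, hI b x x.2⟩ : I))

end modules

section tensor

variable {H : Type u} {K : Type v} {M : Type w} [NormedAddCommGroup H] [InnerProductSpace ℂ H]
  [NormedAddCommGroup K] [InnerProductSpace ℂ K] [NormedAddCommGroup M] [InnerProductSpace ℂ M]

/-- The map `t`, written `x ⊗ y` for `t x y`, exhibits the Hilbert space `M` as the Hilbert space
tensor product of `H` and `K`: `⟪x ⊗ y, x' ⊗ y'⟫ = ⟪x, x'⟫ ⟪y, y'⟫` and the elementary tensors span
a dense subspace. (These two conditions imply that `t` is bilinear.) -/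
def IsHilbertTensor (t : H → K → M) : Prop :=
  (∀ x x' y y', ⟪t x y, t x' y'⟫_ℂ = ⟪x, x'⟫_ℂ * ⟪y, y'⟫_ℂ) ∧
    Dense ((Submodule.span ℂ {s | ∃ x y, s = t x y} : Submodule ℂ M) : Set M)

variable [CompleteSpace H] [CompleteSpace K] [CompleteSpace M]

/-- The minimal (spatial) tensor product of the operator algebras `A` on `H` and `B` on `K`: the norm
closure of the star algebra of operators on `M` generated by all `a ⊗ b` with `a ∈ A` and `b ∈ B`,
where `a ⊗ b` is the bounded operator with `(a ⊗ b) (x ⊗ y) = a x ⊗ b y`. -/
noncomputable def minTensor (t : H → K → M) (A : StarSubalgebra ℂ (H →L[ℂ] H))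
    (B : StarSubalgebra ℂ (K →L[ℂ] K)) : StarSubalgebra ℂ (M →L[ℂ] M) :=
  (StarAlgebra.adjoin ℂ {T | ∃ a ∈ A, ∃ b ∈ B, ∀ x y, T (t x y) = t (a x) (b y)}).topologicalClosure

/-- The minimal tensor product of `A` and `B` is a hereditary Banach algebra. -/
def IsHereditaryMinTensor (t : H → K → M) (A : StarSubalgebra ℂ (H →L[ℂ] H))
    (B : StarSubalgebra ℂ (K →L[ℂ] K)) : Prop :=
  IsHereditary.{z} (minTensor t A B)

end tensor

section main

variable {H : Type v} [NormedAddCommGroup H] [InnerProductSpace ℂ H] [CompleteSpace H]

/-- `A` is norm closed (hence a C*-subalgebra of `B(H)`), it is not norm separable, and its minimal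
tensor square, formed in any Hilbert space `M` realising the Hilbert space tensor product of `H` with
itself, is hereditary. -/
def IsNonSeparableWithHereditarySquare (A : StarSubalgebra ℂ (H →L[ℂ] H)) : Prop :=
  IsClosed (A : Set (H →L[ℂ] H)) ∧ ¬ TopologicalSpace.SeparableSpace A ∧
    ∀ (M : Type w) [NormedAddCommGroup M] [InnerProductSpace ℂ M] [CompleteSpace M]
      (t : H → H → M), IsHilbertTensor t → IsHereditaryMinTensor.{v, v, w, z} t A A

end main

end Pool.Agent.helper39.MT
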