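import Pool.Agent.helper39.GroupAlg

set_option autoImplicit false

namespace Pool.Agent.helper39

open scoped ENNReal InnerProductSpace

noncomputable section

variable {X : Type*}

theorem Pr_add_compl (A : Set X) (ξ : E X) : Pr A ξ + Pr Aᶜ ξ = ξ := by
  classical
  apply E_ext
  intro x
  rw [lp.coeFn_add, Pi.add_apply, Pr_apply, Pr_apply]
  by_cases h : x ∈ A <;> simp [h]

theorem norm_Pr_apply_le (A : Set X) (ξ : E X) : ‖Pr A ξ‖ ≤ ‖ξ‖ := by
  calc ‖Pr A ξ‖ ≤ ‖Pr A‖ * ‖ξ‖ := ContinuousLinearMap.le_opNorm _ _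
    _ ≤ 1 * ‖ξ‖ := by gcongr; exact norm_Pr_le A
    _ = ‖ξ‖ := one_mul _

/-- Ping-pong: permutations mapping the complement of `F i` into `F i`, with the `F i` pairwise
disjoint, have almost orthogonal sums. -/
theorem pingpong {ι : Type*} (s : Finset ι) (π : ι → Equiv.Perm X) (F : ι → Set X)
    (hF : ∀ i ∈ s, ∀ j ∈ s, i ≠ j → Disjoint (F i) (F j))
    (h : ∀ i ∈ s, ∀ x, x ∉ F i → π i x ∈ F i) :
    ‖∑ i ∈ s, U (π i)‖ ≤ 2 * Real.sqrt s.card := by
  classical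
  apply ContinuousLinearMap.opNorm_le_bound _ (by positivity)
  intro ξ
  have hsplit : (∑ i ∈ s, U (π i)) ξ = ∑ i ∈ s, U (π i) (Pr (F i) ξ) + ∑ i ∈ s, U (π i) (Pr (F i)ᶜ ξ) := by
    rw [← Finset.sum_add_distrib, ContinuousLinearMap.sum_apply]
    refine Finset.sum_congr rfl fun i _ => ?_
    rw [← map_add, Pr_add_compl]
  have h1 : ‖∑ i ∈ s, U (π i) (Pr (F i) ξ)‖ ≤ Real.sqrt s.card * ‖ξ‖ := by
    refine (norm_sum_le _ _).trans ?_
    simp only [norm_U_apply]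
    have hcs : (∑ i ∈ s, ‖Pr (F i) ξ‖) ^ 2 ≤ s.card * ‖ξ‖ ^ 2 := by
      refine (sq_sum_le_card_mul_sum_sq).trans ?_
      gcongr
      exact sum_norm_Pr_sq_le ι s F hF ξ
    apply le_of_sq_le_sq _ (by positivity)
    rw [mul_pow, Real.sq_sqrt (by positivity)]
    exact hcs
  have h2 : ‖∑ i ∈ s, U (π i) (Pr (F i)ᶜ ξ)‖ ≤ Real.sqrt s.card * ‖ξ‖ := by
    apply le_of_sq_le_sq _ (by positivity)
    rw [mul_pow, Real.sq_sqrt (by positivity)]
    refine (norm_sum_sq_of_disjoint ι s F hF _ ?_).trans ?_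
    · intro i hi x hx
      rw [U_apply, Pr_apply, if_neg]
      intro hc
      apply hc
      by_contra hcc
      exact hx (by simpa using h i hi _ hcc)
    · calc ∑ i ∈ s, ‖U (π i) (Pr (F i)ᶜ ξ)‖ ^ 2 ≤ ∑ i ∈ s, ‖ξ‖ ^ 2 := by
            refine Finset.sum_le_sum fun i _ => ?_
            rw [norm_U_apply]
            gcongr
            exact norm_Pr_apply_le _ _
        _ = s.card * ‖ξ‖ ^ 2 := by rw [Finset.sum_const, nsmul_eq_mul]
  rw [hsplit]
  refine (norm_add_le _ _).trans ?_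
  linarith

end

end Pool.Agent.helper39
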