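import Pool.Agent.helper39.Hered

set_option autoImplicit false

namespace Pool.Agent.helper39

open Filter Topology

noncomputable section

universe v

theorem mul_pow_le {t : ℝ} (h0 : 0 ≤ t) (h1 : t ≤ 1) (k : ℕ) : t * (1 - t) ^ k ≤ 1 / (k + 1) := by
  rw [le_div_iff₀ (by positivity)]
  have h2 : ∑ i ∈ Finset.range (k + 1), t * (1 - t) ^ k ≤ ∑ i ∈ Finset.range (k + 1), t * (1 - t) ^ i := by
    refine Finset.sum_le_sum fun i hi => ?_
    refine mul_le_mul_of_nonneg_left ?_ h0
    exact pow_le_pow_of_le_one (by linarith) (by linarith) (by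
      have := Finset.mem_range.1 hi; omega)
  have h3 : ∑ i ∈ Finset.range (k + 1), t * (1 - t) ^ i = 1 - (1 - t) ^ (k + 1) := by
    rw [← Finset.mul_sum]
    have := geom_sum_mul (1 - t) (k + 1)
    linarith
  have h4 : ∑ i ∈ Finset.range (k + 1), t * (1 - t) ^ k = t * (1 - t) ^ k * (k + 1) := by
    rw [Finset.sum_const, Finset.card_range, nsmul_eq_mul]
    push_cast; ring
  have h5 : 0 ≤ (1 - t) ^ (k + 1) := pow_nonneg (by linarith) _
  linarith

variable {A : Type v} [CStarAlgebra A]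

theorem norm_one_sub_pow_le {h : A} (hsa : IsSelfAdjoint h) (hsp : spectrum ℝ h ⊆ Set.Icc 0 1) (k : ℕ) :
    ‖(1 - h) ^ k‖ ≤ 1 := by
  have e1 : (1 - h) ^ k = cfc (fun t : ℝ => (1 - t) ^ k) h := by
    rw [cfc_pow (fun t : ℝ => 1 - t) k h (by fun_prop) hsa,
      cfc_sub (fun _ : ℝ => (1:ℝ)) (fun t => t) h, cfc_const_one ℝ h, cfc_id' ℝ h]
  rw [e1]
  apply norm_cfc_le zero_le_one
  intro t ht
  have h0 := (hsp ht).1
  have h1 := (hsp ht).2
  rw [Real.norm_eq_abs, abs_of_nonneg (pow_nonneg (by linarith) _)]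
  exact pow_le_one₀ (by linarith) (by linarith)

theorem tendsto_mul_pow [PartialOrder A] [StarOrderedRing A] {h l : A} {C : ℝ}
    (hsa : IsSelfAdjoint h) (hsp : spectrum ℝ h ⊆ Set.Icc 0 1) (hl : star l * l ≤ C • h) :
    Tendsto (fun k : ℕ => l * (1 - h) ^ k) atTop (𝓝 0) := by
  have hb : ∀ k : ℕ, ‖l * (1 - h) ^ k‖ ^ 2 ≤ |C| * (1 / (k + 1)) := by
    intro k
    have hs : star ((1 - h) ^ k) = (1 - h) ^ k := by
      rw [star_pow, star_sub, star_one, hsa.star_eq]
    have e1 : ‖l * (1 - h) ^ k‖ ^ 2 = ‖(1 - h) ^ k * (star l * l) * (1 - h) ^ k‖ := by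
      rw [sq, ← CStarRing.norm_star_mul_self, star_mul, hs]
      congr 1
      noncomm_ring
    have h1 : (1 - h) ^ k * (star l * l) * (1 - h) ^ k ≤ (1 - h) ^ k * (C • h) * (1 - h) ^ k := by
      have := star_left_conjugate_le_conjugate hl ((1 - h) ^ k)
      rwa [hs] at this
    have h0 : 0 ≤ (1 - h) ^ k * (star l * l) * (1 - h) ^ k := by
      have := star_left_conjugate_nonneg (star_mul_self_nonneg l) ((1 - h) ^ k)
      rwa [hs] at this
    have e2 : (1 - h) ^ k * (C • h) * (1 - h) ^ k = C • cfc (fun t : ℝ => (1 - t) ^ k * t * (1 - t) ^ k) h := by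
      have e3 : (1 - h) ^ k = cfc (fun t : ℝ => (1 - t) ^ k) h := by
        rw [cfc_pow (fun t : ℝ => 1 - t) k h (by fun_prop) hsa,
          cfc_sub (fun _ : ℝ => (1:ℝ)) (fun t => t) h, cfc_const_one ℝ h, cfc_id' ℝ h]
      rw [cfc_mul (fun t : ℝ => (1 - t) ^ k * t) (fun t => (1 - t) ^ k) h, cfc_mul (fun t : ℝ => (1 - t) ^ k) (fun t => t) h,
        cfc_id' ℝ h, ← e3, mul_smul_comm, smul_mul_assoc]
    rw [e1]
    calc ‖(1 - h) ^ k * (star l * l) * (1 - h) ^ k‖ ≤ ‖(1 - h) ^ k * (C • h) * (1 - h) ^ k‖ :=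
          CStarAlgebra.norm_le_norm_of_nonneg_of_le h0 h1
      _ = |C| * ‖cfc (fun t : ℝ => (1 - t) ^ k * t * (1 - t) ^ k) h‖ := by
          rw [e2, norm_smul, Real.norm_eq_abs]
      _ ≤ |C| * (1 / (k + 1)) := by
          gcongr
          apply norm_cfc_le (by positivity)
          intro t ht
          have ht0 := (hsp ht).1
          have ht1 := (hsp ht).2
          have hp0 : 0 ≤ (1 - t) ^ k := pow_nonneg (by linarith) _
          have hp1 : (1 - t) ^ k ≤ 1 := pow_le_one₀ (by linarith) (by linarith)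
          rw [Real.norm_eq_abs, abs_of_nonneg (by positivity)]
          have := mul_pow_le ht0 ht1 k
          calc (1 - t) ^ k * t * (1 - t) ^ k ≤ (1 - t) ^ k * t * 1 := by gcongr
            _ = t * (1 - t) ^ k := by ring
            _ ≤ _ := this
  rw [tendsto_zero_iff_norm_tendsto_zero]
  have h2 : Tendsto (fun k : ℕ => |C| * (1 / ((k : ℝ) + 1))) atTop (𝓝 0) := by
    simpa using tendsto_one_div_add_atTop_nhds_zero_nat.const_mul |C|
  have h3 : Tendsto (fun k : ℕ => ‖l * (1 - h) ^ k‖ ^ 2) atTop (𝓝 0) :=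
    squeeze_zero (fun k => by positivity) hb h2
  have h4 := (Real.continuous_sqrt.tendsto 0).comp h3
  rw [Real.sqrt_zero] at h4
  refine h4.congr fun k => ?_
  simp only [Function.comp]
  exact Real.sqrt_sq (norm_nonneg _)

/-- A good positive element attached to a sequence in a closed left ideal. -/
theorem exists_positive (L : Submodule ℂ A) (hLc : IsClosed (L : Set A))
    (hL : ∀ b : A, ∀ x ∈ L, b * x ∈ L) (l : ℕ → A) (hl : ∀ n, l n ∈ L) :
    ∃ h ∈ L, IsSelfAdjoint h ∧ spectrum ℝ h ⊆ Set.Icc 0 1 ∧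
      ∀ n, Tendsto (fun k : ℕ => l n * (1 - h) ^ k) atTop (𝓝 0) := by
  let _ := CStarAlgebra.spectralOrder A
  have _ := CStarAlgebra.spectralOrderedRing A
  set c : ℕ → ℝ := fun n => (1 / 2) ^ (n + 1) / (1 + ‖l n‖ ^ 2) with hc
  have hc0 : ∀ n, 0 < c n := fun n => by rw [hc]; positivity
  set f : ℕ → A := fun n => c n • (star (l n) * l n) with hf
  have hf0 : ∀ n, 0 ≤ f n := fun n => smul_nonneg (hc0 n).le (star_mul_self_nonneg _)
  have hgeom : HasSum (fun n : ℕ => ((1:ℝ) / 2) ^ (n + 1)) 1 := by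
    have := (hasSum_geometric_two).mul_left (1 / 2)
    simpa [pow_succ, mul_comm] using this
  have hfn : ∀ n, ‖f n‖ ≤ (1 / 2) ^ (n + 1) := by
    intro n
    rw [hf]
    simp only
    rw [norm_smul, Real.norm_eq_abs, abs_of_pos (hc0 n), CStarRing.norm_star_mul_self, ← sq]
    rw [hc]
    simp only
    rw [div_mul_eq_mul_div, div_le_iff₀ (by positivity)]
    have : 0 ≤ ((1:ℝ) / 2) ^ (n + 1) := by positivity
    nlinarith
  have hsum : Summable f := Summable.of_norm_bounded hgeom.summable hfn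
  obtain ⟨h, hh⟩ := hsum
  have hh0 : 0 ≤ h := by
    have := sum_le_hasSum ∅ (fun i _ => hf0 i) hh
    simpa using this
  have hn : ‖h‖ ≤ 1 := by
    have h1 := hh.norm_le_of_bounded hgeom hfn
    exact h1
  have hsa : IsSelfAdjoint h := hh0.isSelfAdjoint
  have hsp : spectrum ℝ h ⊆ Set.Icc 0 1 := by
    intro t ht
    refine ⟨spectrum_nonneg_of_nonneg hh0 ht, ?_⟩
    have hnt : Nontrivial A := by
      by_contra hc
      rw [not_nontrivial_iff_subsingleton] at hc
      rw [spectrum.of_subsingleton] at ht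
      exact ht
    have := spectrum.norm_le_norm_of_mem ht
    rw [Real.norm_eq_abs] at this
    exact (le_abs_self t).trans (this.trans hn)
  refine ⟨h, ?_, hsa, hsp, ?_⟩
  · apply hLc.mem_of_tendsto hh
    refine Eventually.of_forall fun s => ?_
    refine L.sum_mem fun n _ => ?_
    rw [hf]
    simp only
    rw [← Complex.coe_smul]
    exact L.smul_mem _ (hL _ _ (hl n))
  · intro n
    apply tendsto_mul_pow (C := (c n)⁻¹) hsa hsp
    have h1 : f n ≤ h := by
      have := sum_le_hasSum {n} (fun i _ => hf0 i) hh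
      simpa using this
    have h2 : (c n)⁻¹ • f n = star (l n) * l n := by
      rw [hf]
      simp only
      rw [smul_smul, inv_mul_cancel₀ (hc0 n).ne', one_smul]
    rw [← h2]
    exact smul_le_smul_of_nonneg_left h1 (inv_nonneg.2 (hc0 n).le)

end

end Pool.Agent.helper39
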