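import Pool.Agent.helper39.Inj

set_option autoImplicit false

namespace Pool.Agent.helper39

open FreeGroup Filter Topology

noncomputable section

/-- index set of the separable Hilbert space -/
abbrev XX : Type := ℕ × FreeGroup ℤ

/-- the tensor square of the separable Hilbert space -/
abbrev KK : Type := HilbertTensor (E XX) (E XX)

theorem intCast_map_inj : Function.Injective (FreeGroup.map (Int.cast : ℤ → ℝ)) := by
  intro w w' h
  have h2 := congrArg (FreeGroup.map (Int.floor : ℝ → ℤ)) h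
  rw [FreeGroup.map.comp, FreeGroup.map.comp] at h2
  have e : (Int.floor : ℝ → ℤ) ∘ (Int.cast : ℤ → ℝ) = id := by
    funext k; simp
  rw [e, FreeGroup.map.id, FreeGroup.map.id] at h2
  exact h2

/-- the injection of indices -/
def jW (p : XX × XX) : GG ℝ × (ℕ × ℕ) :=
  ((FreeGroup.map (Int.cast : ℤ → ℝ) p.1.2, FreeGroup.map (Int.cast : ℤ → ℝ) p.2.2), (p.1.1, p.2.1))

theorem jW_inj : Function.Injective jW := by
  rintro ⟨⟨n, c⟩, ⟨m, d⟩⟩ ⟨⟨n', c'⟩, ⟨m', d'⟩⟩ h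
  simp only [jW, Prod.mk.injEq] at h
  obtain ⟨⟨h1, h2⟩, h3, h4⟩ := h
  rw [intCast_map_inj h1, intCast_map_inj h2, h3, h4]

/-- the coordinates of a vector in the fibre Hilbert spaces -/
def Wi (i : ℕ × ℕ) : KK →L[ℂ] E (GG ℝ) :=
  (slice i).comp ((Vj jW jW_inj).comp ((eHT XX XX).toContinuousLinearEquiv : KK →L[ℂ] E (XX × XX)))

theorem Wi_apply (i : ℕ × ℕ) (ξ : KK) : Wi i ξ = slice i (Vj jW jW_inj (eHT XX XX ξ)) := rfl

theorem Wi_tm_self (n m : ℕ) (c d : FreeGroup ℤ) :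
    Wi (n, m) (tm (dl (n, c)) (dl (m, d))) =
      dl (FreeGroup.map (Int.cast : ℤ → ℝ) c, FreeGroup.map (Int.cast : ℤ → ℝ) d) := by
  rw [Wi_apply, eHT_tm, Vj_dl]
  exact slice_dl_self _ _

theorem Wi_tm_ne {i : ℕ × ℕ} {n m : ℕ} (h : (n, m) ≠ i) (c d : FreeGroup ℤ) :
    Wi i (tm (dl (n, c)) (dl (m, d))) = 0 := by
  rw [Wi_apply, eHT_tm, Vj_dl]
  exact slice_dl_ne _ h

theorem norm_le_of_Wi {C : ℝ} (hC : 0 ≤ C) (ξ ξ' : KK) (h : ∀ i, ‖Wi i ξ'‖ ≤ C * ‖Wi i ξ‖) :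
    ‖ξ'‖ ≤ C * ‖ξ‖ := by
  have h1 : ‖ξ'‖ ≤ ‖Vj jW jW_inj (eHT XX XX ξ')‖ := by
    have := norm_le_Vj jW jW_inj (eHT XX XX ξ')
    rwa [LinearIsometryEquiv.norm_map] at this
  have h2 : ‖Vj jW jW_inj (eHT XX XX ξ)‖ ≤ ‖ξ‖ := by
    calc ‖Vj jW jW_inj (eHT XX XX ξ)‖ ≤ ‖Vj jW jW_inj‖ * ‖eHT XX XX ξ‖ := ContinuousLinearMap.le_opNorm _ _
      _ ≤ 1 * ‖eHT XX XX ξ‖ := by gcongr; exact norm_Vj_le _ _
      _ = ‖ξ‖ := by rw [one_mul, LinearIsometryEquiv.norm_map]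
  have h3 := norm_le_of_slices hC (Vj jW jW_inj (eHT XX XX ξ)) (Vj jW jW_inj (eHT XX XX ξ')) h
  calc ‖ξ'‖ ≤ _ := h1
    _ ≤ C * ‖Vj jW jW_inj (eHT XX XX ξ)‖ := h3
    _ ≤ C * ‖ξ‖ := by gcongr

theorem norm_Wi_le (i : ℕ × ℕ) (ξ : KK) : ‖Wi i ξ‖ ≤ ‖ξ‖ := by
  rw [Wi_apply]
  refine (norm_slice_le _ _).trans ?_
  calc ‖Vj jW jW_inj (eHT XX XX ξ)‖ ≤ ‖Vj jW jW_inj‖ * ‖eHT XX XX ξ‖ := ContinuousLinearMap.le_opNorm _ _
    _ ≤ 1 * ‖eHT XX XX ξ‖ := by gcongr; exact norm_Vj_le _ _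
    _ = ‖ξ‖ := by rw [one_mul, LinearIsometryEquiv.norm_map]

/-- the block injections -/
def jJ (i : ℕ × ℕ) (g : GG ℤ) : XX × XX := ((i.1, g.1), (i.2, g.2))

theorem jJ_inj (i : ℕ × ℕ) : Function.Injective (jJ i) := by
  rintro ⟨a, b⟩ ⟨a', b'⟩ h
  simp only [jJ, Prod.mk.injEq, true_and] at h
  rw [h.1, h.2]

/-- the block embeddings -/
def Ji (i : ℕ × ℕ) : E (GG ℤ) →L[ℂ] KK :=
  ((eHT XX XX).symm.toContinuousLinearEquiv : E (XX × XX) →L[ℂ] KK).comp (Vj (jJ i) (jJ_inj i))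

theorem norm_Ji_le (i : ℕ × ℕ) (ζ : E (GG ℤ)) : ‖Ji i ζ‖ ≤ ‖ζ‖ := by
  show ‖(eHT XX XX).symm (Vj (jJ i) (jJ_inj i) ζ)‖ ≤ ‖ζ‖
  rw [LinearIsometryEquiv.norm_map]
  calc ‖Vj (jJ i) (jJ_inj i) ζ‖ ≤ ‖Vj (jJ i) (jJ_inj i)‖ * ‖ζ‖ := ContinuousLinearMap.le_opNorm _ _
    _ ≤ 1 * ‖ζ‖ := by gcongr; exact norm_Vj_le _ _
    _ = ‖ζ‖ := one_mul _

theorem Wi_Ji_dl (i : ℕ × ℕ) (g : GG ℤ) : Wi i (Ji i (dl g)) = dl (mp (Int.cast : ℤ → ℝ) g) := by
  have h : Ji i (dl g) = tm (dl (i.1, g.1)) (dl (i.2, g.2)) := by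
    show (eHT XX XX).symm (Vj (jJ i) (jJ_inj i) (dl g)) = _
    rw [Vj_dl, eHT_symm_dl]; rfl
  rw [h]
  exact Wi_tm_self _ _ _ _

theorem Wi_Ji_vec (i : ℕ × ℕ) (u : MonoidAlgebra ℂ (GG ℤ)) :
    Wi i (Ji i (vec u)) = vec (MonoidAlgebra.mapDomain (mp (Int.cast : ℤ → ℝ)) u) := by
  induction u using MonoidAlgebra.induction_linear with
  | zero =>
    have : vec (0 : MonoidAlgebra ℂ (GG ℤ)) = 0 := by unfold vec; simp
    rw [this, _root_.map_zero, _root_.map_zero, MonoidAlgebra.mapDomain_zero]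
    unfold vec; simp
  | add x y hx hy =>
    have e : ∀ {G : Type} [Group G] (x y : MonoidAlgebra ℂ G), vec (x + y) = vec x + vec y := by
      intro G _ x y
      unfold vec
      rw [_root_.map_add, _root_.add_apply]
    rw [e, _root_.map_add, _root_.map_add, hx, hy, MonoidAlgebra.mapDomain_add, e]
  | single a b =>
    have e : ∀ {G : Type} [Group G] (a : G), vec (MonoidAlgebra.single a b) = b • dl a := by
      intro G _ a
      unfold vec
      rw [lamA_single, _root_.smul_apply, lam_dl, mul_one]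
    rw [e, _root_.map_smul, _root_.map_smul, Wi_Ji_dl, MonoidAlgebra.mapDomain_single, e]

/-- the index in the compact space -/
def om (i : ℕ × ℕ) : Om := ((i.1 : OnePoint ℕ), (i.2 : OnePoint ℕ))

/-- compatibility of an operator on the tensor square with a section -/
def Rel (T : KK →L[ℂ] KK) (S : Om → Op (GG ℝ)) : Prop :=
  ∀ i, (∀ ξ, Wi i (T ξ) = S (om i) (Wi i ξ)) ∧ (∀ ξ, Wi i (star T ξ) = star (S (om i)) (Wi i ξ))

theorem Rel.norm_le {T : KK →L[ℂ] KK} {S : Om → Op (GG ℝ)} (h : Rel T S) {C : ℝ} (hC : 0 ≤ C)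
    (hS : ∀ i, ‖S (om i)‖ ≤ C) : ‖T‖ ≤ C := by
  apply ContinuousLinearMap.opNorm_le_bound _ hC
  intro ξ
  apply norm_le_of_Wi hC
  intro i
  rw [(h i).1]
  exact (ContinuousLinearMap.le_opNorm _ _).trans (by gcongr; exact hS i)

/-- the integer valued letter maps of finite fibres -/
def flr (n : ℕ) (x : ℝ) : ℤ := ⌊((n : ℝ) + 1) * x⌋

theorem qh_om (i : ℕ × ℕ) (x : GG ℝ) :
    qh (om i) x = mp (Int.cast : ℤ → ℝ) (mp2 (flr i.1) (flr i.2) x) := by
  unfold qh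
  rw [mp2_apply, mp2_apply, mp_apply]
  simp only
  rw [FreeGroup.map.comp, FreeGroup.map.comp]
  rfl

theorem lq_om (i : ℕ × ℕ) (z : MonoidAlgebra ℂ (GG ℝ)) :
    lq (om i) z = lamA (MonoidAlgebra.mapDomain (mp (Int.cast : ℤ → ℝ))
      (MonoidAlgebra.mapDomain (mp2 (flr i.1) (flr i.2)) z)) := by
  rw [lq_eq]
  congr 1
  apply MonoidAlgebra.coeff_injective
  rw [MonoidAlgebra.coeff_mapDomain, MonoidAlgebra.coeff_mapDomain, MonoidAlgebra.coeff_mapDomain,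
    ← Finsupp.mapDomain_comp]
  apply Finsupp.mapDomain_congr
  intro x _
  exact qh_om i x

theorem mp_intCast_inj : Function.Injective (mp (Int.cast : ℤ → ℝ)) := by
  rintro ⟨a, b⟩ ⟨a', b'⟩ h
  rw [mp_apply, mp_apply] at h
  simp only [Prod.mk.injEq] at h
  rw [intCast_map_inj h.1, intCast_map_inj h.2]

/-- Norms over real letters are controlled by norms over integer letters. -/
theorem norm_intCast_le (z : MonoidAlgebra ℂ (GG ℤ)) :
    ‖lamA (MonoidAlgebra.mapDomain (mp (Int.cast : ℤ → ℝ)) z)‖ ≤ ‖lamA z‖ := by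
  classical
  apply norm_lamA_le_of_local _ (norm_nonneg _) (G' := GG ℤ)
  intro D
  obtain ⟨Z', hZ'⟩ := exists_lettersIn z
  set P : Finset ℝ := D.biUnion lets ∪ Z'.image (Int.cast : ℤ → ℝ) with hP
  -- an injection of `P` into the integers
  set e : ℝ → ℤ := fun x => if h : x ∈ P then ((P.equivFin ⟨x, h⟩ : ℕ) : ℤ) else 0 with he
  have heinj : Set.InjOn e P := by
    intro x hx y hy hxy
    have hx' : x ∈ P := hx
    have hy' : y ∈ P := hy
    simp only [he, dif_pos hx', dif_pos hy'] at hxy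
    have h1 : (P.equivFin ⟨x, hx'⟩ : ℕ) = (P.equivFin ⟨y, hy'⟩ : ℕ) := by exact_mod_cast hxy
    have h2 := P.equivFin.injective (Fin.ext h1)
    exact congrArg Subtype.val h2
  obtain ⟨σ, hσ⟩ := exists_perm_eq Z' (fun k : ℤ => e (k : ℝ)) (by
    intro k hk l hl hkl
    have := heinj (Finset.mem_coe.2 (Finset.mem_union_right _ (Finset.mem_image_of_mem _ hk)))
      (Finset.mem_coe.2 (Finset.mem_union_right _ (Finset.mem_image_of_mem _ hl))) hkl
    exact_mod_cast this)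
  set τ : ℝ → ℤ := fun x => σ.symm (e x) with hτ
  have hτinj : Set.InjOn τ P := by
    intro x hx y hy hxy
    exact heinj hx hy (σ.symm.injective hxy)
  have hτk : ∀ k ∈ (Z' : Set ℤ), (τ ∘ (Int.cast : ℤ → ℝ)) k = id k := by
    intro k hk
    simp only [hτ, Function.comp, id]
    rw [← hσ k hk, Equiv.symm_apply_apply]
  refine ⟨mp τ, ?_, ?_⟩
  · intro x hx y hy hxy
    rw [mp_apply, mp_apply] at hxy
    simp only [Prod.mk.injEq] at hxy
    have hlet : ∀ w ∈ D, (∀ l ∈ w.1.toWord, l.1 ∈ (P : Set ℝ)) ∧ (∀ l ∈ w.2.toWord, l.1 ∈ (P : Set ℝ)) := by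
      intro w hw
      constructor
      · intro l hl
        exact Finset.mem_coe.2 (Finset.mem_union_left _ (Finset.mem_biUnion.2 ⟨w, hw, mem_lets1 hl⟩))
      · intro l hl
        exact Finset.mem_coe.2 (Finset.mem_union_left _ (Finset.mem_biUnion.2 ⟨w, hw, mem_lets2 hl⟩))
    have h1 := injOn_map hτinj (hlet x hx).1 (hlet y hy).1 hxy.1
    have h2 := injOn_map hτinj (hlet x hx).2 (hlet y hy).2 hxy.2
    exact Prod.ext h1 h2
  · have hz : MonoidAlgebra.mapDomain (mp τ) (MonoidAlgebra.mapDomain (mp (Int.cast : ℤ → ℝ)) z) = z := by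
      apply MonoidAlgebra.coeff_injective
      rw [MonoidAlgebra.coeff_mapDomain, MonoidAlgebra.coeff_mapDomain, ← Finsupp.mapDomain_comp]
      conv_rhs => rw [← Finsupp.mapDomain_id (v := z.coeff)]
      apply Finsupp.mapDomain_congr
      intro x hx
      obtain ⟨h1, h2⟩ := hZ' x hx
      simp only [Function.comp, mp_apply, id]
      rw [FreeGroup.map.comp, FreeGroup.map.comp, map_congr_letters (f' := id) fun l hl => hτk _ (h1 l hl),
        map_congr_letters (f' := id) fun l hl => hτk _ (h2 l hl), FreeGroup.map.id, FreeGroup.map.id]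
    rw [hz]

/-- The section is bounded by the operator at finite indices. -/
theorem norm_sec_le_fin {T : KK →L[ℂ] KK} {S : Om → Op (GG ℝ)} (hS : Sec S) (h : Rel T S) (i : ℕ × ℕ) :
    ‖S (om i)‖ ≤ ‖T‖ := by
  apply le_of_forall_pos_le_add
  intro ε hε
  obtain ⟨z, hz⟩ := hS (om i) (ε / 2) (by positivity)
  have h0 := hz.self_of_nhds
  set z' := MonoidAlgebra.mapDomain (mp2 (flr i.1) (flr i.2)) z with hz'
  have h1 : ‖lamA z'‖ ≤ ‖T‖ + ε / 2 := by
    apply opNorm_le_of_vec _ (by positivity)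
    intro u
    have e1 : ‖lamA z' (vec u)‖ = ‖lq (om i) z (Wi i (Ji i (vec u)))‖ := by
      rw [lamA_vec, Wi_Ji_vec, lq_om, lamA_vec, ← MonoidAlgebra.mapDomain_mul]
      exact (norm_vec_mapDomain _ _ (Finset.Subset.refl _) _ mp_intCast_inj.injOn).symm
    rw [e1]
    have e2 : lq (om i) z (Wi i (Ji i (vec u))) = Wi i (T (Ji i (vec u))) -
        (S (om i) - lq (om i) z) (Wi i (Ji i (vec u))) := by
      rw [(h i).1, _root_.sub_apply]; abel
    rw [e2]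
    calc ‖Wi i (T (Ji i (vec u))) - (S (om i) - lq (om i) z) (Wi i (Ji i (vec u)))‖
        ≤ ‖Wi i (T (Ji i (vec u)))‖ + ‖(S (om i) - lq (om i) z) (Wi i (Ji i (vec u)))‖ := norm_sub_le _ _
      _ ≤ ‖T‖ * ‖vec u‖ + ε / 2 * ‖vec u‖ := by
          gcongr
          · refine (norm_Wi_le _ _).trans ((ContinuousLinearMap.le_opNorm _ _).trans ?_)
            gcongr
            exact norm_Ji_le _ _
          · refine (ContinuousLinearMap.le_opNorm _ _).trans ?_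
            gcongr
            exact (norm_Wi_le _ _).trans (norm_Ji_le _ _)
      _ = _ := by ring
  have h2 : ‖lq (om i) z‖ ≤ ‖T‖ + ε / 2 := by
    rw [lq_om]
    exact (norm_intCast_le _).trans h1
  calc ‖S (om i)‖ = ‖(S (om i) - lq (om i) z) + lq (om i) z‖ := by congr 1; abel
    _ ≤ ‖S (om i) - lq (om i) z‖ + ‖lq (om i) z‖ := norm_add_le _ _
    _ ≤ ‖T‖ + ε := by linarith

theorem denseRange_om : DenseRange om := by
  have h : DenseRange ((↑) : ℕ → OnePoint ℕ) := OnePoint.denseRange_coe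
  have := h.prodMap h
  exact this

/-- The section is bounded by the operator. -/
theorem norm_sec_le {T : KK →L[ℂ] KK} {S : Om → Op (GG ℝ)} (hS : Sec S) (h : Rel T S) (ω : Om) :
    ‖S ω‖ ≤ ‖T‖ := by
  refine denseRange_om.induction_on (p := fun ω => ‖S ω‖ ≤ ‖T‖) ω ?_ ?_
  · exact isClosed_le hS.continuous_norm continuous_const
  · intro i
    exact norm_sec_le_fin hS h i

end

end Pool.Agent.helper39
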