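import Pool.Agent.helper39.Ops

set_option autoImplicit false

namespace Pool.Agent.helper39

open scoped ENNReal InnerProductSpace

noncomputable section

variable {X Y Z I : Type*}

/-- the `i`-th slice of a vector on a product -/
def slice (i : I) : E (X × I) →L[ℂ] E X :=
  wcomp (fun x => (x, i)) (fun _ => 1) 1 zero_le_one (by
    intro p s hs
    have : s ⊆ {p.1} := by
      intro y hy
      rw [Finset.mem_singleton, ← hs y hy]
    calc ∑ y ∈ s, ‖((fun _ => 1 : X → ℂ) y)‖ ^ 2 ≤ ∑ y ∈ ({p.1} : Finset X), ‖((fun _ => 1 : X → ℂ) y)‖ ^ 2 :=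
        Finset.sum_le_sum_of_subset_of_nonneg this fun _ _ _ => by positivity
      _ ≤ _ := by simp)

theorem slice_apply (i : I) (ξ : E (X × I)) (x : X) : slice i ξ x = ξ (x, i) := by
  unfold slice
  rw [wcomp_apply, one_mul]

theorem sum_slice_le (J : Finset I) (ξ : E (X × I)) :
    ∑ i ∈ J, ‖(slice i ξ : E X)‖ ^ 2 ≤ ‖ξ‖ ^ 2 := by
  classical
  have h1 := hasSum_sum (fun i (_ : i ∈ J) => E_hasSum (slice i ξ : E X))
  refine hasSum_le_of_sum_le h1 fun F => ?_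
  calc ∑ x ∈ F, ∑ i ∈ J, ‖(slice i ξ : E X) x‖ ^ 2 = ∑ p ∈ F ×ˢ J, ‖ξ p‖ ^ 2 := by
        rw [Finset.sum_product]
        simp only [slice_apply]
    _ ≤ ‖ξ‖ ^ 2 := E_sum_le ξ _

theorem ampl_bound (T : Op X) (ξ : E (X × I)) (s : Finset (X × I)) :
    ∑ p ∈ s, ‖(T (slice p.2 ξ)) p.1‖ ^ 2 ≤ (‖T‖ * ‖ξ‖) ^ 2 := by
  classical
  calc ∑ p ∈ s, ‖(T (slice p.2 ξ)) p.1‖ ^ 2
      ≤ ∑ p ∈ (s.image Prod.fst) ×ˢ (s.image Prod.snd), ‖(T (slice p.2 ξ)) p.1‖ ^ 2 := by
        refine Finset.sum_le_sum_of_subset_of_nonneg ?_ fun _ _ _ => by positivity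
        intro p hp
        exact Finset.mem_product.2 ⟨Finset.mem_image_of_mem _ hp, Finset.mem_image_of_mem _ hp⟩
    _ = ∑ i ∈ s.image Prod.snd, ∑ x ∈ s.image Prod.fst, ‖(T (slice i ξ)) x‖ ^ 2 := by
        rw [Finset.sum_product_right]
    _ ≤ ∑ i ∈ s.image Prod.snd, ‖T (slice i ξ)‖ ^ 2 :=
        Finset.sum_le_sum fun i _ => E_sum_le _ _
    _ ≤ ∑ i ∈ s.image Prod.snd, ‖T‖ ^ 2 * ‖(slice i ξ : E X)‖ ^ 2 := by
        refine Finset.sum_le_sum fun i _ => ?_
        rw [← mul_pow]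
        gcongr
        exact ContinuousLinearMap.le_opNorm _ _
    _ = ‖T‖ ^ 2 * ∑ i ∈ s.image Prod.snd, ‖(slice i ξ : E X)‖ ^ 2 := by rw [Finset.mul_sum]
    _ ≤ ‖T‖ ^ 2 * ‖ξ‖ ^ 2 := by gcongr; exact sum_slice_le _ _
    _ = (‖T‖ * ‖ξ‖) ^ 2 := by ring

/-- amplification `T ⊗ 1` -/
def ampl (T : Op X) : Op (X × I) :=
  LinearMap.mkContinuous
    { toFun := fun ξ => mkE (fun p => (T (slice p.2 ξ)) p.1) ((‖T‖ * ‖ξ‖) ^ 2) (ampl_bound T ξ)
      map_add' := by
        intro ξ η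
        apply E_ext; intro p
        simp only [mkE_apply, map_add, lp.coeFn_add, Pi.add_apply]
      map_smul' := by
        intro c ξ
        apply E_ext; intro y
        simp only [mkE_apply, map_smul, lp.coeFn_smul, Pi.smul_apply, RingHom.id_apply] }
    ‖T‖ (by
      intro ξ
      apply E_norm_le (by positivity)
      intro s
      exact ampl_bound T ξ s)

theorem ampl_apply (T : Op X) (ξ : E (X × I)) (p : X × I) :
    ampl T ξ p = (T (slice p.2 ξ)) p.1 := rfl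

theorem norm_ampl_le (T : Op X) : ‖(ampl T : Op (X × I))‖ ≤ ‖T‖ :=
  LinearMap.mkContinuous_norm_le _ (norm_nonneg _) _

open Classical in
/-- the column operator attached to a family of finite sets of size at most `n` -/
def VA (A : X → Finset I) (n : ℕ) (hA : ∀ x, (A x).card ≤ n) : E X →L[ℂ] E (X × I) :=
  wcomp Prod.fst (fun p => if p.2 ∈ A p.1 then 1 else 0) (Real.sqrt n) (Real.sqrt_nonneg _) (by
    intro x s hs
    rw [Real.sq_sqrt (Nat.cast_nonneg _)]
    calc ∑ p ∈ s, ‖(if p.2 ∈ A p.1 then (1:ℂ) else 0)‖ ^ 2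
        = ∑ p ∈ s, (if p.2 ∈ A p.1 then (1:ℝ) else 0) := by
          refine Finset.sum_congr rfl fun p _ => ?_
          split_ifs <;> simp
      _ = ((s.filter fun p => p.2 ∈ A p.1).card : ℝ) := by
          rw [Finset.sum_ite]; simp
      _ ≤ ((A x).card : ℝ) := by
          norm_cast
          refine Finset.card_le_card_of_injOn Prod.snd ?_ ?_
          · intro p hp
            have hp' := Finset.mem_filter.1 hp
            rw [hs p hp'.1] at hp'
            exact hp'.2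
          · intro p hp q hq hpq
            have hp' := (Finset.mem_filter.1 hp).1
            have hq' := (Finset.mem_filter.1 hq).1
            exact Prod.ext ((hs p hp').trans (hs q hq').symm) hpq
      _ ≤ n := by exact_mod_cast hA x)

theorem VA_dl (A : X → Finset I) (n : ℕ) (hA : ∀ x, (A x).card ≤ n) (x : X) :
    VA A n hA (dl x) = ∑ i ∈ A x, dl (x, i) := by
  classical
  apply E_ext
  rintro ⟨y, j⟩
  unfold VA
  rw [wcomp_apply, lp.coeFn_sum, Finset.sum_apply]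
  simp only [dl_apply, Prod.mk.injEq]
  by_cases hy : y = x
  · subst hy
    simp
  · simp [hy]

theorem slice_VA_dl [DecidableEq I] (A : X → Finset I) (n : ℕ) (hA : ∀ x, (A x).card ≤ n) (x : X) (i : I) :
    (slice i (VA A n hA (dl x)) : E X) = if i ∈ A x then dl x else 0 := by
  classical
  apply E_ext
  intro y
  rw [slice_apply]
  unfold VA
  rw [wcomp_apply]
  simp only
  by_cases hy : y = x
  · subst hy
    split_ifs <;> simp
  · rw [dl_ne hy, mul_zero]
    split_ifs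
    · rw [dl_ne hy]
    · simp

/-- `κ` is a Schur multiplier of norm at most `C`. -/
def IsSchur (κ : X → X → ℂ) (C : ℝ) : Prop :=
  ∀ T : Op X, ∃ S : Op X, (∀ x y, S (dl y) x = κ x y * T (dl y) x) ∧ ‖S‖ ≤ C * ‖T‖

theorem isSchur_inter [DecidableEq I] (A B : X → Finset I) (n : ℕ) (hA : ∀ x, (A x).card ≤ n)
    (hB : ∀ x, (B x).card ≤ n) : IsSchur (fun x y => (((A x ∩ B y).card : ℕ) : ℂ)) n := by
  intro T
  refine ⟨(ContinuousLinearMap.adjoint (VA A n hA)) ∘L (ampl T) ∘L (VA B n hB), ?_, ?_⟩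
  · intro x y
    rw [← inner_dl_left x, ContinuousLinearMap.comp_apply, ContinuousLinearMap.comp_apply,
      ContinuousLinearMap.adjoint_inner_right, VA_dl, sum_inner]
    simp only [inner_dl_left, ampl_apply, slice_VA_dl]
    calc ∑ i ∈ A x, (T (if i ∈ B y then (dl y : E X) else 0)) x
        = ∑ i ∈ A x, (if i ∈ B y then T (dl y) x else 0) := by
          refine Finset.sum_congr rfl fun i _ => ?_
          split_ifs <;> simp
      _ = _ := by
          rw [← Finset.sum_filter, Finset.sum_const, Finset.filter_mem_eq_inter, nsmul_eq_mul]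
  · have h1 : ‖VA A n hA‖ ≤ Real.sqrt n := norm_wcomp_le _ _ _ _ _
    have h2 : ‖VA B n hB‖ ≤ Real.sqrt n := norm_wcomp_le _ _ _ _ _
    have h3 : ‖(ampl T : Op (X × I))‖ ≤ ‖T‖ := norm_ampl_le T
    calc ‖(ContinuousLinearMap.adjoint (VA A n hA)) ∘L (ampl T) ∘L (VA B n hB)‖
        ≤ ‖ContinuousLinearMap.adjoint (VA A n hA)‖ * (‖(ampl T : Op (X × I))‖ * ‖VA B n hB‖) := by
          refine (ContinuousLinearMap.opNorm_comp_le _ _).trans ?_
          gcongr
          exact ContinuousLinearMap.opNorm_comp_le _ _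
      _ ≤ Real.sqrt n * (‖T‖ * Real.sqrt n) := by
          rw [LinearIsometryEquiv.norm_map]
          gcongr
      _ = (Real.sqrt n * Real.sqrt n) * ‖T‖ := by ring
      _ = n * ‖T‖ := by rw [Real.mul_self_sqrt (Nat.cast_nonneg _)]

theorem IsSchur.add {κ₁ κ₂ : X → X → ℂ} {C₁ C₂ : ℝ} (h₁ : IsSchur κ₁ C₁) (h₂ : IsSchur κ₂ C₂) :
    IsSchur (fun x y => κ₁ x y + κ₂ x y) (C₁ + C₂) := by
  intro T
  obtain ⟨S₁, h11, h12⟩ := h₁ T
  obtain ⟨S₂, h21, h22⟩ := h₂ T
  refine ⟨S₁ + S₂, ?_, ?_⟩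
  · intro x y
    rw [_root_.add_apply, lp.coeFn_add, Pi.add_apply, h11, h21]; ring
  · refine (norm_add_le _ _).trans ?_
    linarith

theorem IsSchur.smul {κ : X → X → ℂ} {C : ℝ} (h : IsSchur κ C) (c : ℂ) :
    IsSchur (fun x y => c * κ x y) (‖c‖ * C) := by
  intro T
  obtain ⟨S, h1, h2⟩ := h T
  refine ⟨c • S, ?_, ?_⟩
  · intro x y
    rw [_root_.smul_apply, lp.coeFn_smul, Pi.smul_apply, h1, smul_eq_mul]; ring
  · rw [norm_smul, mul_assoc]
    gcongr

theorem IsSchur.mul {κ₁ κ₂ : X → X → ℂ} {C₁ C₂ : ℝ} (hC : 0 ≤ C₁) (h₁ : IsSchur κ₁ C₁)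
    (h₂ : IsSchur κ₂ C₂) : IsSchur (fun x y => κ₁ x y * κ₂ x y) (C₁ * C₂) := by
  intro T
  obtain ⟨S₂, h21, h22⟩ := h₂ T
  obtain ⟨S₁, h11, h12⟩ := h₁ S₂
  refine ⟨S₁, ?_, ?_⟩
  · intro x y
    rw [h11, h21]; ring
  · calc ‖S₁‖ ≤ C₁ * ‖S₂‖ := h12
      _ ≤ C₁ * (C₂ * ‖T‖) := by gcongr
      _ = C₁ * C₂ * ‖T‖ := by ring

theorem IsSchur.zero : IsSchur (fun _ _ : X => (0:ℂ)) 0 := by
  intro T
  exact ⟨0, by intro x y; simp, by simp⟩

theorem IsSchur.sum {ι : Type*} (s : Finset ι) (κ : ι → X → X → ℂ) (C : ι → ℝ)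
    (h : ∀ i ∈ s, IsSchur (κ i) (C i)) :
    IsSchur (fun x y => ∑ i ∈ s, κ i x y) (∑ i ∈ s, C i) := by
  classical
  induction s using Finset.induction_on with
  | empty => simpa using IsSchur.zero
  | insert a s ha ih =>
    have h1 := h a (Finset.mem_insert_self _ _)
    have h2 := ih fun i hi => h i (Finset.mem_insert_of_mem hi)
    have h3 := h1.add h2
    simp only [Finset.sum_insert ha]
    exact h3

end

end Pool.Agent.helper39
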