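import Pool.Agent.helper39.Fibre

set_option autoImplicit false

namespace Pool.Agent.helper39

open FreeGroup Filter Topology

noncomputable section

/-! ### invariance of norms under injective renaming of letters -/

theorem exists_perm_eq {α : Type*} (Z : Finset α) (f : α → α) (hf : Set.InjOn f Z) :
    ∃ σ : Equiv.Perm α, ∀ z ∈ Z, σ z = f z := by
  classical
  induction Z using Finset.induction_on with
  | empty => exact ⟨1, by simp⟩
  | insert a s ha ih =>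
    obtain ⟨σ, hσ⟩ := ih (hf.mono (by simp))
    refine ⟨Equiv.swap (σ a) (f a) * σ, ?_⟩
    intro z hz
    rw [Equiv.Perm.mul_apply]
    rcases Finset.mem_insert.1 hz with rfl | hz
    · simp
    · have hza : z ≠ a := fun h => ha (h ▸ hz)
      rw [hσ z hz]
      apply Equiv.swap_apply_of_ne_of_ne
      · intro h
        rw [← hσ z hz] at h
        exact hza (σ.injective h)
      · intro h
        exact hza (hf (by simp [hz]) (by simp) h)

section inv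

variable {α : Type} [DecidableEq α]

/-- the letters of the support of `z` lie in `Z1`, `Z2` -/
def LettersIn (z : MonoidAlgebra ℂ (GG α)) (Z1 Z2 : Set α) : Prop :=
  ∀ g ∈ z.coeff.support, (∀ l ∈ g.1.toWord, l.1 ∈ Z1) ∧ (∀ l ∈ g.2.toWord, l.1 ∈ Z2)

theorem exists_lettersIn (z : MonoidAlgebra ℂ (GG α)) : ∃ Z : Finset α, LettersIn z Z Z := by
  refine ⟨z.coeff.support.biUnion lets, ?_⟩
  intro g hg
  exact ⟨fun l hl => Finset.mem_coe.2 (Finset.mem_biUnion.2 ⟨g, hg, mem_lets1 hl⟩),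
    fun l hl => Finset.mem_coe.2 (Finset.mem_biUnion.2 ⟨g, hg, mem_lets2 hl⟩)⟩

/-- pairs of letter maps -/
def mp2 {β γ : Type} (f g : β → γ) : GG β →* GG γ := (FreeGroup.map f).prodMap (FreeGroup.map g)

theorem mp2_apply {β γ : Type} (f g : β → γ) (x : GG β) :
    mp2 f g x = (FreeGroup.map f x.1, FreeGroup.map g x.2) := rfl

theorem mp2_comp {β γ δ : Type} (f g : β → γ) (f' g' : γ → δ) (x : GG β) :
    mp2 f' g' (mp2 f g x) = mp2 (f' ∘ f) (g' ∘ g) x := by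
  rw [mp2_apply, mp2_apply, mp2_apply, FreeGroup.map.comp, FreeGroup.map.comp]

theorem mapDomain_mp2_congr {γ : Type} {z : MonoidAlgebra ℂ (GG α)} {Z1 Z2 : Set α} (hz : LettersIn z Z1 Z2)
    {f f' g g' : α → γ} (hf : ∀ a ∈ Z1, f a = f' a) (hg : ∀ a ∈ Z2, g a = g' a) :
    MonoidAlgebra.mapDomain (mp2 f g) z = MonoidAlgebra.mapDomain (mp2 f' g') z := by
  apply MonoidAlgebra.coeff_injective
  rw [MonoidAlgebra.coeff_mapDomain, MonoidAlgebra.coeff_mapDomain]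
  apply Finsupp.mapDomain_congr
  intro x hx
  obtain ⟨h1, h2⟩ := hz x hx
  rw [mp2_apply, mp2_apply, map_congr_letters fun l hl => hf _ (h1 l hl),
    map_congr_letters fun l hl => hg _ (h2 l hl)]

theorem norm_mp2 {z : MonoidAlgebra ℂ (GG α)} {Z1 Z2 : Finset α} (hz : LettersIn z Z1 Z2) {f g : α → α}
    (hf : Set.InjOn f Z1) (hg : Set.InjOn g Z2) :
    ‖lamA (MonoidAlgebra.mapDomain (mp2 f g) z)‖ = ‖lamA z‖ := by
  obtain ⟨σ, hσ⟩ := exists_perm_eq Z1 f hf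
  obtain ⟨τ, hτ⟩ := exists_perm_eq Z2 g hg
  have h1 : MonoidAlgebra.mapDomain (mp2 f g) z = MonoidAlgebra.mapDomain
      ((FreeGroup.freeGroupCongr σ).prodCongr (FreeGroup.freeGroupCongr τ)) z := by
    rw [mapDomain_mp2_congr hz (f' := σ) (g' := τ) (fun a ha => (hσ a ha).symm) (fun a ha => (hτ a ha).symm)]
    rfl
  rw [h1, norm_lamA_mapDomain_equiv]

end inv

/-! ### the compact index space -/

/-- the index space -/
abbrev Om : Type := OnePoint ℕ × OnePoint ℕ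

/-- letter maps of the fibres -/
def rho (ν : OnePoint ℕ) : ℝ → ℝ := Option.elim ν id (fun n x => ((⌊((n : ℝ) + 1) * x⌋ : ℤ) : ℝ))

theorem rho_infty : rho (OnePoint.infty : OnePoint ℕ) = id := rfl

theorem rho_coe (n : ℕ) (x : ℝ) : rho (n : OnePoint ℕ) x = ((⌊((n : ℝ) + 1) * x⌋ : ℤ) : ℝ) := rfl

theorem eventually_nhds_infty {P : OnePoint ℕ → Prop} (h0 : P OnePoint.infty)
    (h : ∀ᶠ n : ℕ in atTop, P n) : ∀ᶠ ν in 𝓝 (OnePoint.infty : OnePoint ℕ), P ν := by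
  rw [OnePoint.nhds_infty_eq, eventually_sup]
  refine ⟨?_, ?_⟩
  · rw [eventually_map, coclosedCompact_eq_cocompact, cocompact_eq_cofinite, Nat.cofinite_eq_atTop]
    exact h
  · exact eventually_pure.2 h0

theorem eventually_nhds_coe {P : OnePoint ℕ → Prop} (n : ℕ) (h0 : P n) :
    ∀ᶠ ν in 𝓝 (n : OnePoint ℕ), P ν := by
  rw [OnePoint.nhds_coe_eq, eventually_map, nhds_discrete, eventually_pure]
  exact h0

theorem eventually_injOn (Z : Finset ℝ) : ∀ᶠ n : ℕ in atTop, Set.InjOn (rho (n : OnePoint ℕ)) Z := by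
  have h : ∀ x ∈ Z, ∀ y ∈ Z, ∀ᶠ n : ℕ in atTop, (rho (n : OnePoint ℕ) x = rho (n : OnePoint ℕ) y → x = y) := by
    intro x _ y _
    by_cases hxy : x = y
    · exact Eventually.of_forall fun _ _ => hxy
    · have hpos : 0 < |x - y| := abs_pos.2 (sub_ne_zero.2 hxy)
      obtain ⟨N, hN⟩ := exists_nat_gt (1 / |x - y|)
      filter_upwards [eventually_ge_atTop N] with n hn h
      exfalso
      rw [rho_coe, rho_coe, Int.cast_inj] at h
      have h1 : |((n : ℝ) + 1) * x - ((n : ℝ) + 1) * y| < 1 := Int.abs_sub_lt_one_of_floor_eq_floor h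
      rw [← mul_sub, abs_mul, abs_of_pos (by positivity : (0:ℝ) < (n : ℝ) + 1)] at h1
      have h2 : 1 < (N : ℝ) * |x - y| := by rwa [div_lt_iff₀ hpos] at hN
      have h3 : (N : ℝ) ≤ n := by exact_mod_cast hn
      nlinarith
  have h2 : ∀ᶠ n : ℕ in atTop, ∀ x ∈ Z, ∀ y ∈ Z, (rho (n : OnePoint ℕ) x = rho (n : OnePoint ℕ) y → x = y) := by
    rw [eventually_all_finset]
    intro x hx
    rw [eventually_all_finset]
    exact h x hx
  filter_upwards [h2] with n hn x hx y hy hxy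
  exact hn x hx y hy hxy

/-- local comparison of the letter maps -/
theorem eventually_rho (ν0 : OnePoint ℕ) (Z : Finset ℝ) :
    ∀ᶠ ν in 𝓝 ν0, ∃ τ : ℝ → ℝ, Set.InjOn τ (rho ν0 '' Z) ∧ ∀ x, rho ν x = τ (rho ν0 x) := by
  induction ν0 using OnePoint.rec with
  | infty =>
    apply eventually_nhds_infty
    · exact ⟨id, Set.injOn_id _, fun x => rfl⟩
    · filter_upwards [eventually_injOn Z] with n hn
      refine ⟨rho n, ?_, fun x => rfl⟩
      rw [rho_infty, Set.image_id]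
      exact hn
  | coe n =>
    apply eventually_nhds_coe
    exact ⟨id, Set.injOn_id _, fun x => rfl⟩

/-- the homomorphisms of the fibres -/
def qh (ω : Om) : GG ℝ →* GG ℝ := mp2 (rho ω.1) (rho ω.2)

/-- the fibre representations of the group algebra -/
def lq (ω : Om) : MonoidAlgebra ℂ (GG ℝ) →ₐ[ℂ] Op (GG ℝ) :=
  MonoidAlgebra.lift ℂ (Op (GG ℝ)) (GG ℝ) ((lam (G := GG ℝ)).comp (qh ω))

theorem lq_eq (ω : Om) (z : MonoidAlgebra ℂ (GG ℝ)) : lq ω z = lamA (MonoidAlgebra.mapDomain (qh ω) z) := by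
  induction z using MonoidAlgebra.induction_linear with
  | zero => simp
  | add x y hx hy => rw [map_add, MonoidAlgebra.mapDomain_add, map_add, hx, hy]
  | single a b =>
    unfold lq
    rw [MonoidAlgebra.lift_single, MonoidAlgebra.mapDomain_single, lamA_single]
    rfl

theorem letters_mapDomain {z : MonoidAlgebra ℂ (GG ℝ)} {Z : Finset ℝ} (hz : LettersIn z Z Z) (f g : ℝ → ℝ) :
    LettersIn (MonoidAlgebra.mapDomain (mp2 f g) z) (f '' Z) (g '' Z) := by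
  classical
  intro x hx
  rw [MonoidAlgebra.coeff_mapDomain] at hx
  obtain ⟨y, hy, rfl⟩ := Finset.mem_image.1 (Finsupp.mapDomain_support hx)
  obtain ⟨h1, h2⟩ := hz y hy
  have key : ∀ (f : ℝ → ℝ) (w : FreeGroup ℝ), (∀ l ∈ w.toWord, l.1 ∈ (Z : Set ℝ)) →
      ∀ l ∈ (FreeGroup.map f w).toWord, l.1 ∈ f '' (Z : Set ℝ) := by
    intro f w hw l hl
    rw [← mk_toWord (x := w), FreeGroup.map.mk, toWord_mk] at hl
    have h3 : List.Sublist (reduce (List.map (fun x => (f x.1, x.2)) w.toWord)) (List.map (fun x => (f x.1, x.2)) w.toWord) :=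
      Red.sublist reduce.red
    obtain ⟨m, hm, rfl⟩ := List.mem_map.1 (h3.subset hl)
    exact ⟨m.1, hw m hm, rfl⟩
  exact ⟨key f y.1 h1, key g y.2 h2⟩

theorem eventually_norm_lq (ω0 : Om) (z : MonoidAlgebra ℂ (GG ℝ)) :
    ∀ᶠ ω in 𝓝 ω0, ‖lq ω z‖ = ‖lq ω0 z‖ := by
  classical
  obtain ⟨Z, hZ⟩ := exists_lettersIn z
  have h1 := eventually_rho ω0.1 Z
  have h2 := eventually_rho ω0.2 Z
  have h3 : ∀ᶠ ω in 𝓝 ω0, (∃ τ : ℝ → ℝ, Set.InjOn τ (rho ω0.1 '' Z) ∧ ∀ x, rho ω.1 x = τ (rho ω0.1 x)) ∧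
      (∃ τ : ℝ → ℝ, Set.InjOn τ (rho ω0.2 '' Z) ∧ ∀ x, rho ω.2 x = τ (rho ω0.2 x)) :=
    ((continuous_fst.tendsto ω0).eventually h1).and ((continuous_snd.tendsto ω0).eventually h2)
  filter_upwards [h3] with ω hω
  obtain ⟨⟨τ1, hτ1, e1⟩, ⟨τ2, hτ2, e2⟩⟩ := hω
  rw [lq_eq, lq_eq]
  have hL : LettersIn (MonoidAlgebra.mapDomain (qh ω0) z) ((Z.image (rho ω0.1) : Finset ℝ) : Set ℝ)
      ((Z.image (rho ω0.2) : Finset ℝ) : Set ℝ) := by
    rw [Finset.coe_image, Finset.coe_image]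
    exact letters_mapDomain hZ _ _
  have h4 := norm_mp2 hL (f := τ1) (g := τ2) (by rwa [Finset.coe_image]) (by rwa [Finset.coe_image])
  rw [← h4]
  congr 2
  apply MonoidAlgebra.coeff_injective
  rw [MonoidAlgebra.coeff_mapDomain, MonoidAlgebra.coeff_mapDomain, MonoidAlgebra.coeff_mapDomain,
    ← Finsupp.mapDomain_comp]
  apply Finsupp.mapDomain_congr
  intro x _
  simp only [Function.comp]
  unfold qh
  rw [mp2_comp]
  have e1' : rho ω.1 = τ1 ∘ rho ω0.1 := funext e1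
  have e2' : rho ω.2 = τ2 ∘ rho ω0.2 := funext e2
  rw [e1', e2']

/-- bound of the norm in the group algebra -/
def l1 (z : MonoidAlgebra ℂ (GG ℝ)) : ℝ := ∑ g ∈ z.coeff.support, ‖z.coeff g‖

theorem norm_lq_le (ω : Om) (z : MonoidAlgebra ℂ (GG ℝ)) : ‖lq ω z‖ ≤ l1 z := by
  unfold lq l1
  rw [MonoidAlgebra.lift_apply, Finsupp.sum]
  refine norm_sum_le_of_le _ fun g _ => ?_
  rw [norm_smul, MonoidHom.comp_apply]
  calc ‖z.coeff g‖ * ‖(lam (qh ω g) : Op (GG ℝ))‖ ≤ ‖z.coeff g‖ * 1 := by gcongr; exact norm_lam_le _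
    _ = _ := mul_one _

theorem exists_star (z : MonoidAlgebra ℂ (GG ℝ)) : ∃ z', ∀ ω, lq ω z' = star (lq ω z) := by
  induction z using MonoidAlgebra.induction_linear with
  | zero => exact ⟨0, by simp⟩
  | add x y hx hy =>
    obtain ⟨x', hx'⟩ := hx
    obtain ⟨y', hy'⟩ := hy
    exact ⟨x' + y', fun ω => by rw [map_add, map_add, star_add, hx', hy']⟩
  | single a b =>
    refine ⟨MonoidAlgebra.single a⁻¹ (star b), fun ω => ?_⟩
    unfold lq
    rw [MonoidAlgebra.lift_single, MonoidAlgebra.lift_single, star_smul, MonoidHom.comp_apply,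
      MonoidHom.comp_apply, star_lam, _root_.map_inv]

/-- locally approximable sections -/
def Sec (T : Om → Op (GG ℝ)) : Prop :=
  ∀ ω0, ∀ ε > 0, ∃ z : MonoidAlgebra ℂ (GG ℝ), ∀ᶠ ω in 𝓝 ω0, ‖T ω - lq ω z‖ ≤ ε

theorem Sec.bdd {T : Om → Op (GG ℝ)} (hT : Sec T) (ω0 : Om) : ∃ K, 0 ≤ K ∧ ∀ᶠ ω in 𝓝 ω0, ‖T ω‖ ≤ K := by
  obtain ⟨z, hz⟩ := hT ω0 1 one_pos
  refine ⟨l1 z + 1, by
    have : 0 ≤ l1 z := Finset.sum_nonneg fun _ _ => norm_nonneg _
    positivity, ?_⟩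
  filter_upwards [hz] with ω hω
  calc ‖T ω‖ = ‖(T ω - lq ω z) + lq ω z‖ := by congr 1; abel
    _ ≤ ‖T ω - lq ω z‖ + ‖lq ω z‖ := norm_add_le _ _
    _ ≤ l1 z + 1 := by linarith [norm_lq_le ω z]

theorem Sec.add {T S : Om → Op (GG ℝ)} (hT : Sec T) (hS : Sec S) : Sec (fun ω => T ω + S ω) := by
  intro ω0 ε hε
  obtain ⟨z, hz⟩ := hT ω0 (ε / 2) (by positivity)
  obtain ⟨w, hw⟩ := hS ω0 (ε / 2) (by positivity)
  refine ⟨z + w, ?_⟩
  filter_upwards [hz, hw] with ω h1 h2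
  calc ‖T ω + S ω - lq ω (z + w)‖ = ‖(T ω - lq ω z) + (S ω - lq ω w)‖ := by
        rw [map_add]; congr 1; abel
    _ ≤ ‖T ω - lq ω z‖ + ‖S ω - lq ω w‖ := norm_add_le _ _
    _ ≤ ε := by linarith

theorem Sec.mul {T S : Om → Op (GG ℝ)} (hT : Sec T) (hS : Sec S) : Sec (fun ω => T ω * S ω) := by
  intro ω0 ε hε
  obtain ⟨K, hK0, hK⟩ := hT.bdd ω0
  obtain ⟨w, hw⟩ := hS ω0 (ε / (2 * (K + 1))) (by positivity)
  have hl : 0 ≤ l1 w := Finset.sum_nonneg fun _ _ => norm_nonneg _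
  obtain ⟨z, hz⟩ := hT ω0 (ε / (2 * (l1 w + 1))) (by positivity)
  refine ⟨z * w, ?_⟩
  filter_upwards [hz, hw, hK] with ω h1 h2 h3
  calc ‖T ω * S ω - lq ω (z * w)‖ = ‖T ω * (S ω - lq ω w) + (T ω - lq ω z) * lq ω w‖ := by
        rw [_root_.map_mul]; congr 1; noncomm_ring
    _ ≤ ‖T ω * (S ω - lq ω w)‖ + ‖(T ω - lq ω z) * lq ω w‖ := norm_add_le _ _
    _ ≤ ‖T ω‖ * ‖S ω - lq ω w‖ + ‖T ω - lq ω z‖ * ‖lq ω w‖ := by
        gcongr <;> exact norm_mul_le _ _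
    _ ≤ K * (ε / (2 * (K + 1))) + (ε / (2 * (l1 w + 1))) * l1 w := by
        gcongr
        exact norm_lq_le ω w
    _ ≤ ε / 2 + ε / 2 := by
        gcongr
        · rw [mul_div_assoc', div_le_div_iff₀ (by positivity) (by positivity)]
          nlinarith
        · rw [div_mul_eq_mul_div, div_le_div_iff₀ (by positivity) (by positivity)]
          nlinarith
    _ = ε := by ring

theorem Sec.star {T : Om → Op (GG ℝ)} (hT : Sec T) : Sec (fun ω => star (T ω)) := by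
  intro ω0 ε hε
  obtain ⟨z, hz⟩ := hT ω0 ε hε
  obtain ⟨z', hz'⟩ := exists_star z
  refine ⟨z', ?_⟩
  filter_upwards [hz] with ω h1
  rw [hz', ← star_sub, norm_star]
  exact h1

theorem Sec.algMap (c : ℂ) : Sec (fun _ => algebraMap ℂ (Op (GG ℝ)) c) := by
  intro ω0 ε hε
  refine ⟨algebraMap ℂ _ c, Eventually.of_forall fun ω => ?_⟩
  rw [AlgHom.commutes, sub_self, norm_zero]
  exact hε.le

theorem Sec.limit {T : Om → Op (GG ℝ)} (h : ∀ ε > 0, ∃ S, Sec S ∧ ∀ ω, ‖T ω - S ω‖ ≤ ε) : Sec T := by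
  intro ω0 ε hε
  obtain ⟨S, hS, hTS⟩ := h (ε / 2) (by positivity)
  obtain ⟨z, hz⟩ := hS ω0 (ε / 2) (by positivity)
  refine ⟨z, ?_⟩
  filter_upwards [hz] with ω h1
  calc ‖T ω - lq ω z‖ = ‖(T ω - S ω) + (S ω - lq ω z)‖ := by congr 1; abel
    _ ≤ ‖T ω - S ω‖ + ‖S ω - lq ω z‖ := norm_add_le _ _
    _ ≤ ε := by linarith [hTS ω]

theorem Sec.continuous_norm {T : Om → Op (GG ℝ)} (hT : Sec T) : Continuous fun ω => ‖T ω‖ := by
  rw [continuous_iff_continuousAt]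
  intro ω0
  rw [Metric.continuousAt_iff']
  intro ε hε
  obtain ⟨z, hz⟩ := hT ω0 (ε / 3) (by positivity)
  have h0 := hz.self_of_nhds
  filter_upwards [hz, eventually_norm_lq ω0 z] with ω h1 h2
  have a1 : |‖T ω‖ - ‖lq ω z‖| ≤ ε / 3 := (abs_norm_sub_norm_le _ _).trans h1
  have a2 : |‖T ω0‖ - ‖lq ω0 z‖| ≤ ε / 3 := (abs_norm_sub_norm_le _ _).trans h0
  rw [Real.dist_eq]
  rw [abs_le] at a1 a2
  rw [abs_lt]
  constructor <;> linarith [h2]

theorem Sec.mem_Cr {T : Om → Op (GG ℝ)} (hT : Sec T) (ω : Om) : T ω ∈ Cr (GG ℝ) := by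
  unfold Cr
  rw [Metric.mem_closure_iff]
  intro ε hε
  obtain ⟨z, hz⟩ := hT ω (ε / 2) (by positivity)
  refine ⟨lq ω z, ⟨_, (lq_eq ω z).symm⟩, ?_⟩
  rw [dist_eq_norm]
  linarith [hz.self_of_nhds]

end

end Pool.Agent.helper39
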