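import Mathlib

set_option autoImplicit false

namespace Pool.Agent.helper39

open scoped TensorProduct InnerProductSpace
open TensorProduct

noncomputable section

universe u v

variable (H : Type u) (K : Type v) [NormedAddCommGroup H] [InnerProductSpace ℂ H]
  [NormedAddCommGroup K] [InnerProductSpace ℂ K]

/-- The Hilbert space tensor product: completion of the algebraic tensor product for the inner
product `⟪x ⊗ y, x' ⊗ y'⟫ = ⟪x, x'⟫ ⟪y, y'⟫`. -/
def HilbertTensor : Type (max u v) := UniformSpace.Completion (H ⊗[ℂ] K)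

instance : NormedAddCommGroup (HilbertTensor H K) :=
  inferInstanceAs (NormedAddCommGroup (UniformSpace.Completion (H ⊗[ℂ] K)))

instance : InnerProductSpace ℂ (HilbertTensor H K) :=
  inferInstanceAs (InnerProductSpace ℂ (UniformSpace.Completion (H ⊗[ℂ] K)))

instance : CompleteSpace (HilbertTensor H K) :=
  inferInstanceAs (CompleteSpace (UniformSpace.Completion (H ⊗[ℂ] K)))

variable {H K}

/-- the canonical map of the algebraic tensor product into its completion -/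
def toHT : (H ⊗[ℂ] K) →ₗᵢ[ℂ] HilbertTensor H K :=
  (UniformSpace.Completion.toComplₗᵢ : (H ⊗[ℂ] K) →ₗᵢ[ℂ] UniformSpace.Completion (H ⊗[ℂ] K))

theorem denseRange_toHT : DenseRange (toHT : (H ⊗[ℂ] K) → HilbertTensor H K) :=
  UniformSpace.Completion.denseRange_coe

/-- elementary tensors in the Hilbert space tensor product -/
def tm (x : H) (y : K) : HilbertTensor H K := toHT (x ⊗ₜ[ℂ] y)

/-- The operator `a ⊗ b` on the Hilbert space tensor product: the continuous extension of the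
algebraic `a ⊗ b`. -/
def opTensor (a : H →L[ℂ] H) (b : K →L[ℂ] K) : HilbertTensor H K →L[ℂ] HilbertTensor H K :=
  ((toHT (H := H) (K := K)).toLinearMap ∘ₗ
    TensorProduct.map (a : H →ₗ[ℂ] H) (b : K →ₗ[ℂ] K)).extendOfNorm
      (toHT (H := H) (K := K)).toLinearMap

variable [CompleteSpace H] [CompleteSpace K]

theorem inner_map_left (a : H →L[ℂ] H) (b : K →L[ℂ] K) (s t : H ⊗[ℂ] K) :
    ⟪TensorProduct.map (a : H →ₗ[ℂ] H) (b : K →ₗ[ℂ] K) s, t⟫_ℂ =
      ⟪s, TensorProduct.map ((star a : H →L[ℂ] H) : H →ₗ[ℂ] H) ((star b : K →L[ℂ] K) : K →ₗ[ℂ] K) t⟫_ℂ := by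
  induction s using TensorProduct.induction_on with
  | zero => simp
  | add s s' hs hs' => rw [map_add, inner_add_left, inner_add_left, hs, hs']
  | tmul x y =>
    induction t using TensorProduct.induction_on with
    | zero => simp
    | add t t' ht ht' => rw [map_add, inner_add_right, inner_add_right, ht, ht']
    | tmul x' y' =>
      simp only [TensorProduct.map_tmul, TensorProduct.inner_tmul, ContinuousLinearMap.coe_coe,
        ContinuousLinearMap.star_eq_adjoint, ContinuousLinearMap.adjoint_inner_right]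

theorem exists_star_mul (a : H →L[ℂ] H) : ∃ c : H →L[ℂ] H,
    star c * c = algebraMap ℝ (H →L[ℂ] H) (‖a‖ ^ 2) - star a * a := by
  have h := CStarAlgebra.star_mul_le_algebraMap_norm_sq (a := a)
  rw [← sub_nonneg] at h
  obtain ⟨c, hc⟩ := CStarAlgebra.nonneg_iff_eq_star_mul_self.1 h
  exact ⟨c, hc.symm⟩

omit [CompleteSpace H] [CompleteSpace K] in
theorem inner_map_scalar (r : ℝ) (s t : H ⊗[ℂ] K) :
    ⟪s, TensorProduct.map ((algebraMap ℝ (H →L[ℂ] H) r : H →L[ℂ] H) : H →ₗ[ℂ] H)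
      ((1 : K →L[ℂ] K) : K →ₗ[ℂ] K) t⟫_ℂ = (r : ℂ) * ⟪s, t⟫_ℂ := by
  induction s using TensorProduct.induction_on with
  | zero => simp
  | add s s' hs hs' => rw [inner_add_left, inner_add_left, hs, hs', mul_add]
  | tmul x y =>
    induction t using TensorProduct.induction_on with
    | zero => simp
    | add t t' ht ht' => rw [map_add, inner_add_right, inner_add_right, ht, ht', mul_add]
    | tmul x' y' =>
      rw [TensorProduct.map_tmul, TensorProduct.inner_tmul, TensorProduct.inner_tmul]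
      have e : ((algebraMap ℝ (H →L[ℂ] H) r : H →L[ℂ] H) : H →ₗ[ℂ] H) x' = (r : ℂ) • x' := by
        simp [Algebra.algebraMap_eq_smul_one]
      rw [e, inner_smul_right, mul_assoc]
      rfl

omit [CompleteSpace H] [CompleteSpace K] in
theorem map_sub_left' (f g : H →L[ℂ] H) (s : H ⊗[ℂ] K) :
    TensorProduct.map ((f - g : H →L[ℂ] H) : H →ₗ[ℂ] H) ((1 : K →L[ℂ] K) : K →ₗ[ℂ] K) s =
      TensorProduct.map (f : H →ₗ[ℂ] H) ((1 : K →L[ℂ] K) : K →ₗ[ℂ] K) s -
      TensorProduct.map (g : H →ₗ[ℂ] H) ((1 : K →L[ℂ] K) : K →ₗ[ℂ] K) s := by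
  induction s using TensorProduct.induction_on with
  | zero => simp
  | add t t' ht ht' => rw [map_add, ht, ht', map_add, map_add]; abel
  | tmul x y =>
    simp only [TensorProduct.map_tmul, ContinuousLinearMap.coe_coe, _root_.sub_apply, TensorProduct.sub_tmul]

theorem norm_map_left_le (a : H →L[ℂ] H) (t : H ⊗[ℂ] K) :
    ‖TensorProduct.map (a : H →ₗ[ℂ] H) ((1 : K →L[ℂ] K) : K →ₗ[ℂ] K) t‖ ≤ ‖a‖ * ‖t‖ := by
  obtain ⟨c, hc⟩ := exists_star_mul a
  have key : ∀ d : H →L[ℂ] H, (‖TensorProduct.map (d : H →ₗ[ℂ] H) ((1 : K →L[ℂ] K) : K →ₗ[ℂ] K) t‖) ^ 2 =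
      RCLike.re ⟪t, TensorProduct.map ((star d * d : H →L[ℂ] H) : H →ₗ[ℂ] H) ((1 : K →L[ℂ] K) : K →ₗ[ℂ] K) t⟫_ℂ := by
    intro d
    rw [← inner_self_eq_norm_sq (𝕜 := ℂ), inner_map_left]
    congr 2
    rw [← LinearMap.comp_apply, ← TensorProduct.map_comp, star_one]
    rfl
  have h1 := key c
  have h4 : RCLike.re (((‖a‖ ^ 2 : ℝ) : ℂ) * ⟪t, t⟫_ℂ) = ‖a‖ ^ 2 * ‖t‖ ^ 2 := by
    rw [← inner_self_eq_norm_sq (𝕜 := ℂ) t]
    exact Complex.re_ofReal_mul _ _
  rw [hc, map_sub_left', inner_sub_right, inner_map_scalar, map_sub, ← key a, h4] at h1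
  apply le_of_sq_le_sq _ (by positivity)
  rw [mul_pow]
  nlinarith [sq_nonneg ‖TensorProduct.map (c : H →ₗ[ℂ] H) ((1 : K →L[ℂ] K) : K →ₗ[ℂ] K) t‖]

theorem norm_map_right_le (b : K →L[ℂ] K) (t : H ⊗[ℂ] K) :
    ‖TensorProduct.map ((1 : H →L[ℂ] H) : H →ₗ[ℂ] H) (b : K →ₗ[ℂ] K) t‖ ≤ ‖b‖ * ‖t‖ := by
  have h := norm_map_left_le (K := H) b (TensorProduct.comm ℂ H K t)
  have e : TensorProduct.map (b : K →ₗ[ℂ] K) ((1 : H →L[ℂ] H) : H →ₗ[ℂ] H) (TensorProduct.comm ℂ H K t) =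
      TensorProduct.comm ℂ H K (TensorProduct.map ((1 : H →L[ℂ] H) : H →ₗ[ℂ] H) (b : K →ₗ[ℂ] K) t) := by
    rw [TensorProduct.map_comm]
  rw [e, TensorProduct.norm_comm, TensorProduct.norm_comm] at h
  exact h

theorem norm_map_le (a : H →L[ℂ] H) (b : K →L[ℂ] K) (t : H ⊗[ℂ] K) :
    ‖TensorProduct.map (a : H →ₗ[ℂ] H) (b : K →ₗ[ℂ] K) t‖ ≤ ‖a‖ * ‖b‖ * ‖t‖ := by
  have e : TensorProduct.map (a : H →ₗ[ℂ] H) (b : K →ₗ[ℂ] K) t =
      TensorProduct.map (a : H →ₗ[ℂ] H) ((1 : K →L[ℂ] K) : K →ₗ[ℂ] K)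
        (TensorProduct.map ((1 : H →L[ℂ] H) : H →ₗ[ℂ] H) (b : K →ₗ[ℂ] K) t) := by
    rw [← LinearMap.comp_apply, ← TensorProduct.map_comp]
    rfl
  rw [e]
  calc _ ≤ ‖a‖ * ‖TensorProduct.map ((1 : H →L[ℂ] H) : H →ₗ[ℂ] H) (b : K →ₗ[ℂ] K) t‖ := norm_map_left_le a _
    _ ≤ ‖a‖ * (‖b‖ * ‖t‖) := by gcongr; exact norm_map_right_le b t
    _ = _ := by ring

theorem opTensor_toHT (a : H →L[ℂ] H) (b : K →L[ℂ] K) (t : H ⊗[ℂ] K) :
    opTensor a b (toHT t) = toHT (TensorProduct.map (a : H →ₗ[ℂ] H) (b : K →ₗ[ℂ] K) t) := by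
  have := LinearMap.extendOfNorm_eq (f := (toHT (H := H) (K := K)).toLinearMap ∘ₗ
    TensorProduct.map (a : H →ₗ[ℂ] H) (b : K →ₗ[ℂ] K)) (e := (toHT (H := H) (K := K)).toLinearMap)
    denseRange_toHT ⟨‖a‖ * ‖b‖, fun x => by
      simp only [LinearMap.comp_apply, LinearIsometry.coe_toLinearMap, LinearIsometry.norm_map]
      exact norm_map_le a b x⟩ t
  exact this

/-- `a ⊗ b` acts on elementary tensors as expected. -/
theorem opTensor_tm (a : H →L[ℂ] H) (b : K →L[ℂ] K) (x : H) (y : K) :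
    opTensor a b (tm x y) = tm (a x) (b y) := by
  unfold tm
  rw [opTensor_toHT, TensorProduct.map_tmul]
  rfl

theorem norm_opTensor_le (a : H →L[ℂ] H) (b : K →L[ℂ] K) : ‖opTensor a b‖ ≤ ‖a‖ * ‖b‖ := by
  apply LinearMap.opNorm_extendOfNorm_le denseRange_toHT (by positivity)
  intro x
  simp only [LinearMap.comp_apply, LinearIsometry.coe_toLinearMap, LinearIsometry.norm_map]
  exact norm_map_le a b x

/-- The minimal (spatial) tensor product of two unital C*-algebras of operators: the C*-algebra of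
operators on the Hilbert space tensor product generated by all `a ⊗ b`. -/
def minTensor (A : StarSubalgebra ℂ (H →L[ℂ] H)) (B : StarSubalgebra ℂ (K →L[ℂ] K)) :
    StarSubalgebra ℂ (HilbertTensor H K →L[ℂ] HilbertTensor H K) :=
  (StarAlgebra.adjoin ℂ {T | ∃ a ∈ A, ∃ b ∈ B, T = opTensor a b}).topologicalClosure

end

end Pool.Agent.helper39
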