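import Pool.Agent.helper39.MTDefs
import Pool.Agent.helper39.Example

set_option autoImplicit false

namespace Pool.Agent.helper39

open FreeGroup Filter Topology
open scoped InnerProductSpace

noncomputable section

universe u v w z

/-- the bundled form of an action -/
def bundle {B : Type v} {X : Type w} [NonUnitalNormedRing B] [NormedSpace ℂ B] [NormedAddCommGroup X]
    [NormedSpace ℂ X] (act : B → X → X) (h : MT.IsBanachModule act) : B →L[ℂ] X →L[ℂ] X :=
  LinearMap.mkContinuous₂ (LinearMap.mk₂ ℂ act h.add_left h.smul_left h.add_right h.smul_right)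
    (Classical.choose h.bounded) (fun a x => Classical.choose_spec h.bounded a x)

theorem bundle_apply {B : Type v} {X : Type w} [NonUnitalNormedRing B] [NormedSpace ℂ B]
    [NormedAddCommGroup X] [NormedSpace ℂ X] (act : B → X → X) (h : MT.IsBanachModule act) (b : B) (x : X) :
    bundle act h b x = act b x := rfl

theorem isHereditary_MT (B : Type v) [NonUnitalNormedRing B] [NormedSpace ℂ B] [IsScalarTower ℂ B B]
    [SMulCommClass ℂ B B] (h : IsHereditary.{z} B) : MT.IsHereditary.{z} B := by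
  intro I hIc hI X Y _ _ _ _ _ _ actX actY hX hY σ hσ hsurj hρ φ hφ
  obtain ⟨ψ, h1, h2⟩ := h I hI hIc X Y (bundle actX hX) (bundle actY hY)
    (fun a b x => hX.mul_left a b x) (fun a b x => hY.mul_left a b x) σ
    (fun b x => hσ b x) hsurj hρ φ (fun b x => hφ b x)
  exact ⟨ψ, fun b x => h1 b x, h2⟩

section tensor

variable {H : Type u} {K : Type v} {L : Type w} [NormedAddCommGroup H] [InnerProductSpace ℂ H]
  [NormedAddCommGroup K] [InnerProductSpace ℂ K] [NormedAddCommGroup L] [InnerProductSpace ℂ L]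
  {t : H → K → L} (ht : MT.IsHilbertTensor t)

include ht

theorem t_add_left (x x' : H) (y : K) : t (x + x') y = t x y + t x' y := by
  rw [← sub_eq_zero, ← inner_self_eq_zero (𝕜 := ℂ)]
  simp only [inner_sub_left, inner_sub_right, inner_add_left, inner_add_right, ht.1]
  ring

theorem t_add_right (x : H) (y y' : K) : t x (y + y') = t x y + t x y' := by
  rw [← sub_eq_zero, ← inner_self_eq_zero (𝕜 := ℂ)]
  simp only [inner_sub_left, inner_sub_right, inner_add_left, inner_add_right, ht.1]
  ring

theorem t_smul_left (c : ℂ) (x : H) (y : K) : t (c • x) y = c • t x y := by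
  rw [← sub_eq_zero, ← inner_self_eq_zero (𝕜 := ℂ)]
  simp only [inner_sub_left, inner_sub_right, inner_smul_left, inner_smul_right, ht.1]
  ring

theorem t_smul_right (c : ℂ) (x : H) (y : K) : t x (c • y) = c • t x y := by
  rw [← sub_eq_zero, ← inner_self_eq_zero (𝕜 := ℂ)]
  simp only [inner_sub_left, inner_sub_right, inner_smul_left, inner_smul_right, ht.1]
  ring

theorem norm_t (x : H) (y : K) : ‖t x y‖ = ‖x‖ * ‖y‖ := by
  have h := ht.1 x x y y
  rw [inner_self_eq_norm_sq_to_K, inner_self_eq_norm_sq_to_K, inner_self_eq_norm_sq_to_K] at h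
  have h2 : ‖t x y‖ ^ 2 = (‖x‖ * ‖y‖) ^ 2 := by
    rw [mul_pow]
    exact_mod_cast h
  exact (pow_left_inj₀ (norm_nonneg _) (by positivity) two_ne_zero).1 h2

/-- `x ↦ x ⊗ y` as a bounded linear map -/
def tLm (y : K) : H →L[ℂ] L :=
  LinearMap.mkContinuous
    { toFun := fun x => t x y
      map_add' := fun x x' => t_add_left ht x x' y
      map_smul' := fun c x => t_smul_left ht c x y } ‖y‖ (fun x => by
        simp only [LinearMap.coe_mk, AddHom.coe_mk]
        rw [norm_t ht, mul_comm])

theorem tLm_apply (y : K) (x : H) : tLm ht y x = t x y := rfl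

/-- `y ↦ x ⊗ y` as a bounded linear map -/
def tRm (x : H) : K →L[ℂ] L :=
  LinearMap.mkContinuous
    { toFun := fun y => t x y
      map_add' := fun y y' => t_add_right ht x y y'
      map_smul' := fun c y => t_smul_right ht c x y } ‖x‖ (fun y => by
        simp only [LinearMap.coe_mk, AddHom.coe_mk]
        rw [norm_t ht])

theorem tRm_apply (x : H) (y : K) : tRm ht x y = t x y := rfl

end tensor

section basis

variable {X Y : Type*} {L : Type w} [NormedAddCommGroup L] [InnerProductSpace ℂ L]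
  {t : E X → E Y → L} (ht : MT.IsHilbertTensor t)

include ht

open Classical in
theorem orthonormal_t : Orthonormal ℂ (fun p : X × Y => t (dl p.1) (dl p.2)) := by
  rw [orthonormal_iff_ite]
  rintro ⟨x, y⟩ ⟨x', y'⟩
  rw [ht.1, inner_dl_left, inner_dl_left]
  simp only
  by_cases hx : x = x'
  · by_cases hy : y = y'
    · subst hx; subst hy; simp
    · rw [dl_ne (x := y') (y := y) hy]
      simp [hy]
  · rw [dl_ne (x := x') (y := x) hx]
    simp [hx]

theorem dense_t : (⊤ : Submodule ℂ L) ≤
    (Submodule.span ℂ (Set.range fun p : X × Y => t (dl p.1) (dl p.2))).topologicalClosure := by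
  set S := (Submodule.span ℂ (Set.range fun p : X × Y => t (dl p.1) (dl p.2))).topologicalClosure with hS
  have hcl : IsClosed (S : Set L) := Submodule.isClosed_topologicalClosure _
  have h1 : ∀ x y, t (dl x) (dl y) ∈ S := fun x y =>
    Submodule.le_topologicalClosure _ (Submodule.subset_span ⟨(x, y), rfl⟩)
  have h2 : ∀ (ξ : E X) (y : Y), t ξ (dl y) ∈ S := by
    intro ξ y
    have hs := (hasSum_dl ξ).mapL (tLm ht (dl y : E Y))
    refine hcl.mem_of_tendsto hs (Filter.Eventually.of_forall fun s => ?_)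
    refine S.sum_mem fun x _ => ?_
    rw [_root_.map_smul, tLm_apply]
    exact S.smul_mem _ (h1 x y)
  have h3 : ∀ (ξ : E X) (η : E Y), t ξ η ∈ S := by
    intro ξ η
    have hs := (hasSum_dl η).mapL (tRm ht ξ)
    refine hcl.mem_of_tendsto hs (Filter.Eventually.of_forall fun s => ?_)
    refine S.sum_mem fun y _ => ?_
    rw [_root_.map_smul, tRm_apply]
    exact S.smul_mem _ (h2 ξ y)
  intro s _
  have h4 : (Submodule.span ℂ {s | ∃ x y, s = t x y} : Submodule ℂ L) ≤ S := by
    rw [Submodule.span_le]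
    rintro _ ⟨x, y, rfl⟩
    exact h3 x y
  exact closure_minimal h4 hcl (ht.2 s)

variable [CompleteSpace L]

/-- the basis of elementary tensors -/
def basisT : HilbertBasis (X × Y) ℂ L := HilbertBasis.mk (orthonormal_t ht) (dense_t ht)

/-- the unitary onto the sequence space of the product -/
def eT : L ≃ₗᵢ[ℂ] E (X × Y) := (basisT ht).repr

theorem eT_t (x : X) (y : Y) : eT ht (t (dl x) (dl y)) = dl (x, y) := by
  classical
  have h1 : basisT ht (x, y) = t (dl x) (dl y) := by
    unfold basisT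
    rw [HilbertBasis.coe_mk]
  have h2 := (basisT ht).repr_self (x, y)
  rw [h1] at h2
  unfold eT
  rw [h2]
  apply E_ext
  intro p
  rw [dl_apply, lp.single_apply, Pi.single_apply]

/-- the unitary onto the concrete tensor product -/
def WW : L ≃ₗᵢ[ℂ] HilbertTensor (E X) (E Y) := (eT ht).trans (eHT X Y).symm

theorem WW_dl (x : X) (y : Y) : WW ht (t (dl x) (dl y)) = tm (dl x) (dl y) := by
  unfold WW
  rw [LinearIsometryEquiv.trans_apply, eT_t, eHT_symm_dl]

theorem WW_t (ξ : E X) (η : E Y) : WW ht (t ξ η) = tm ξ η := by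
  have h1 : ∀ (y : Y) (ξ : E X), WW ht (t ξ (dl y)) = tm ξ (dl y) := by
    intro y
    have e : ((WW ht).toContinuousLinearEquiv : L →L[ℂ] HilbertTensor (E X) (E Y)).comp (tLm ht (dl y)) =
        tmL (H := E X) (dl y : E Y) := by
      apply op_ext
      intro x
      exact WW_dl ht x y
    intro ξ
    exact DFunLike.congr_fun e ξ
  have e : ((WW ht).toContinuousLinearEquiv : L →L[ℂ] HilbertTensor (E X) (E Y)).comp (tRm ht ξ) =
      tmR (K := E Y) ξ := by
    apply op_ext
    intro y
    exact h1 y ξ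
  exact DFunLike.congr_fun e η

theorem WW_symm_tm (ξ : E X) (η : E Y) : (WW ht).symm (tm ξ η) = t ξ η := by
  rw [LinearIsometryEquiv.symm_apply_eq, WW_t]

end basis

section transport

variable {L : Type w} [NormedAddCommGroup L] [InnerProductSpace ℂ L] [CompleteSpace L]
  {t : E XX → E XX → L} (ht : MT.IsHilbertTensor t)

/-- conjugation with the unitary -/
def PhiT : (L →L[ℂ] L) ≃⋆ₐ[ℂ] (KK →L[ℂ] KK) := (WW ht).conjStarAlgEquiv

theorem PhiT_apply (T : L →L[ℂ] L) (ξ : KK) : PhiT ht T ξ = WW ht (T ((WW ht).symm ξ)) := rfl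

theorem PhiT_tensor {T : L →L[ℂ] L} {a b : Op XX} (hT : ∀ x y, T (t x y) = t (a x) (b y)) :
    PhiT ht T = opTensor a b := by
  apply HT_ext
  intro x y
  rw [PhiT_apply, WW_symm_tm, hT, WW_t, opTensor_tm]

theorem norm_le_PhiT (T : L →L[ℂ] L) : ‖T‖ ≤ ‖PhiT ht T‖ := by
  apply ContinuousLinearMap.opNorm_le_bound _ (norm_nonneg _)
  intro ξ
  have h : T ξ = (WW ht).symm (PhiT ht T (WW ht ξ)) := by
    rw [PhiT_apply, LinearIsometryEquiv.symm_apply_apply, LinearIsometryEquiv.symm_apply_apply]
  rw [h, LinearIsometryEquiv.norm_map]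
  refine (ContinuousLinearMap.le_opNorm _ _).trans ?_
  rw [LinearIsometryEquiv.norm_map]

theorem norm_PhiT_le (T : L →L[ℂ] L) : ‖PhiT ht T‖ ≤ ‖T‖ := by
  apply ContinuousLinearMap.opNorm_le_bound _ (norm_nonneg _)
  intro ξ
  rw [PhiT_apply, LinearIsometryEquiv.norm_map]
  refine (ContinuousLinearMap.le_opNorm _ _).trans ?_
  rw [LinearIsometryEquiv.norm_map]

theorem continuous_PhiT : Continuous (PhiT ht) := by
  have : LipschitzWith 1 (PhiT ht) := by
    apply LipschitzWith.of_dist_le_mul
    intro a a'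
    rw [dist_eq_norm, dist_eq_norm, ← _root_.map_sub, NNReal.coe_one, one_mul]
    exact norm_PhiT_le ht _
  exact this.continuous

theorem PhiT_mem {T : L →L[ℂ] L} (hT : T ∈ MT.minTensor t AA AA) : PhiT ht T ∈ BP := by
  have h : MT.minTensor t AA AA ≤ BP.comap (PhiT ht : (L →L[ℂ] L) →⋆ₐ[ℂ] (KK →L[ℂ] KK)) := by
    apply StarSubalgebra.topologicalClosure_minimal
    · apply StarAlgebra.adjoin_le
      rintro T ⟨a, ha, b, hb, hT⟩
      show PhiT ht T ∈ BP
      rw [PhiT_tensor ht hT, opTensor_eq]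
      exact mul_mem (opL_mem_BP ha) (opR_mem_BP hb)
    · exact isClosed_BP.preimage (continuous_PhiT ht)
  exact h hT

/-- the fibre maps -/
def ThT (ω : Om) : MT.minTensor t AA AA →⋆ₐ[ℂ] Op (GG ℝ) where
  toFun T := scn (PhiT ht T) (PhiT_mem ht T.2) ω
  map_one' := by
    have e : PhiT ht ((1 : MT.minTensor t AA AA) : L →L[ℂ] L) = 1 := _root_.map_one (PhiT ht)
    rw [scn_congr e _ (one_mem _)]
    exact scn_one _ _
  map_mul' a b := by
    have e : PhiT ht ((a * b : MT.minTensor t AA AA) : L →L[ℂ] L) = PhiT ht a * PhiT ht b :=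
      _root_.map_mul (PhiT ht) _ _
    rw [scn_congr e _ (mul_mem (PhiT_mem ht a.2) (PhiT_mem ht b.2))]
    exact scn_mul _ _ _ _
  map_zero' := by
    have e : PhiT ht ((0 : MT.minTensor t AA AA) : L →L[ℂ] L) = 0 := _root_.map_zero (PhiT ht)
    rw [scn_congr e _ (zero_mem _)]
    exact scn_zero _ _
  map_add' a b := by
    have e : PhiT ht ((a + b : MT.minTensor t AA AA) : L →L[ℂ] L) = PhiT ht a + PhiT ht b :=
      _root_.map_add (PhiT ht) _ _
    rw [scn_congr e _ (add_mem (PhiT_mem ht a.2) (PhiT_mem ht b.2))]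
    exact scn_add _ _ _ _
  commutes' c := by
    have e : PhiT ht ((algebraMap ℂ (MT.minTensor t AA AA) c : MT.minTensor t AA AA) : L →L[ℂ] L) =
        algebraMap ℂ (KK →L[ℂ] KK) c :=
      AlgHomClass.commutes (PhiT ht) c
    rw [scn_congr e _ (algebraMap_mem BP c)]
    exact scn_algMap _ _ _
  map_star' a := by
    have e : PhiT ht ((star a : MT.minTensor t AA AA) : L →L[ℂ] L) = star (PhiT ht a) :=
      map_star (PhiT ht) _
    rw [scn_congr e _ (star_mem (PhiT_mem ht a.2))]
    exact scn_star _ _ _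

theorem ThT_apply (ω : Om) (T : MT.minTensor t AA AA) : ThT ht ω T = scn (PhiT ht T) (PhiT_mem ht T.2) ω := rfl

include ht in
theorem HL_minTensor [hB : IsClosed (MT.minTensor t AA AA : Set (L →L[ℂ] L))] :
    HL (MT.minTensor t AA AA) := by
  apply HL_of_fibres (Ω := Om) (α := ℝ) (fun ω => ThT ht ω)
  · intro ω a
    exact (scn_sec _ (PhiT_mem ht a.2)).mem_Cr ω
  · intro a
    exact (scn_sec _ (PhiT_mem ht a.2)).continuous_norm
  · intro a ε hε hω
    exact (norm_le_PhiT ht a).trans ((scn_rel _ (PhiT_mem ht a.2)).norm_le hε fun i => hω (om i))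

include ht in
theorem isHereditaryMinTensor : MT.IsHereditaryMinTensor.{0, 0, w, z} t AA AA := by
  have hc : IsClosed (MT.minTensor t AA AA : Set (L →L[ℂ] L)) :=
    StarSubalgebra.isClosed_topologicalClosure _
  exact isHereditary_MT _ (isHereditary_of_HL _ (HL_minTensor ht))

end transport

theorem isNonSeparable : MT.IsNonSeparableWithHereditarySquare.{0, w, z} AA := by
  refine ⟨isClosed_AA, ?_, ?_⟩
  · intro h
    apply not_isSeparable_AA
    have h2 := TopologicalSpace.isSeparable_range (continuous_subtype_val (p := fun x => x ∈ AA))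
    rwa [Subtype.range_coe_subtype] at h2
  · intro L _ _ _ t ht
    exact isHereditaryMinTensor ht

end

end Pool.Agent.helper39
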