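import Pool.Agent.helper39.PingPong

set_option autoImplicit false

namespace Pool.Agent.helper39

noncomputable section

variable {α : Type*}

/-- words in the letters `α` and their inverses -/
abbrev Wd (α : Type*) : Type _ := List (α × Bool)

open Classical in
/-- length of the longest initial segment with letters in `T` -/
def pLen (T : Set α) (w : Wd α) : ℕ := (w.takeWhile fun l => decide (l.1 ∈ T)).length

open Classical in
/-- drop the longest initial segment with letters in `R` -/
def tw (R : Set α) (w : Wd α) : Wd α := w.dropWhile fun l => decide (l.1 ∈ R)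

open Classical in
/-- the longest initial segment with letters in `R` -/
def hw (R : Set α) (w : Wd α) : Wd α := w.takeWhile fun l => decide (l.1 ∈ R)

/-- the points of the path attached to a word -/
def pt (T : Set α) (w : Wd α) (i : ℕ) : Wd α × ℕ := (w.drop (min i (pLen T w)), i - pLen T w)

theorem length_takeWhile_le' {β : Type*} (p : β → Bool) (l : List β) :
    (l.takeWhile p).length ≤ l.length := (List.takeWhile_prefix p).length_le

theorem pLen_le (T : Set α) (w : Wd α) : pLen T w ≤ w.length := length_takeWhile_le' _ _

theorem pt_inj {T : Set α} {w : Wd α} {i j : ℕ} (h : pt T w i = pt T w j) : i = j := by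
  have h1 := congrArg (fun p => p.1.length) h
  have h2 := congrArg Prod.snd h
  simp only [pt, List.length_drop] at h1 h2
  have := pLen_le T w
  omega

theorem pLen_cons {T : Set α} {x : α × Bool} (hx : x.1 ∈ T) (w : Wd α) :
    pLen T (x :: w) = pLen T w + 1 := by
  simp [pLen, hx]

theorem pt_cons_succ {T : Set α} {x : α × Bool} (hx : x.1 ∈ T) (w : Wd α) (i : ℕ) :
    pt T (x :: w) (i + 1) = pt T w i := by
  simp only [pt, pLen_cons hx]
  have h1 : min (i + 1) (pLen T w + 1) = min i (pLen T w) + 1 := by omega
  have h2 : i + 1 - (pLen T w + 1) = i - pLen T w := by omega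
  rw [h1, h2, List.drop_succ_cons]

theorem tw_cons {R : Set α} {x : α × Bool} (hx : x.1 ∈ R) (w : Wd α) : tw R (x :: w) = tw R w := by
  simp [tw, hx]

theorem tw_append {R : Set α} (r t : Wd α) (hr : ∀ l ∈ r, l.1 ∈ R) : tw R (r ++ t) = tw R t := by
  unfold tw
  rw [List.dropWhile_append_of_pos]
  intro a ha
  simpa using hr a ha

theorem hw_append_tw (R : Set α) (w : Wd α) : hw R w ++ tw R w = w := by
  unfold hw tw
  exact List.takeWhile_append_dropWhile

theorem mem_hw {R : Set α} {w : Wd α} {l : α × Bool} (hl : l ∈ hw R w) : l.1 ∈ R := by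
  classical
  unfold hw at hl
  have := List.mem_takeWhile_imp hl
  simpa using this

theorem tw_tw (R : Set α) (w : Wd α) : tw R (tw R w) = tw R w := by
  classical
  induction w with
  | nil => simp [tw]
  | cons x w ih =>
    by_cases hx : x.1 ∈ R
    · rw [tw_cons hx, ih]
    · simp [tw, hx]

theorem tw_length_le (R : Set α) (w : Wd α) : (tw R w).length ≤ w.length := by
  have h := congrArg List.length (hw_append_tw R w)
  rw [List.length_append] at h
  omega

theorem take_pLen_mem {T : Set α} {w : Wd α} {k : ℕ} (hk : k ≤ pLen T w) {l : α × Bool}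
    (hl : l ∈ w.take k) : l.1 ∈ T := by
  classical
  have h1 : hw T w ++ tw T w = w := hw_append_tw T w
  have h2 : w.take k = (hw T w).take k := by
    conv_lhs => rw [← h1]
    rw [List.take_append_of_le_length]
    exact hk
  rw [h2] at hl
  exact mem_hw (List.mem_of_mem_take hl)

open Classical in
/-- number of indices below `N` with a property -/
def cnt (N : ℕ) (Q : ℕ → Prop) : ℕ := ((Finset.range N).filter Q).card

theorem cnt_le (N : ℕ) (Q : ℕ → Prop) : cnt N Q ≤ N := by
  classical
  unfold cnt
  exact (Finset.card_filter_le _ _).trans (by simp)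

theorem cnt_succ_shift (N : ℕ) (Q : ℕ → Prop) :
    cnt N (fun i => Q (i + 1)) ≤ cnt N Q + 1 ∧ cnt N Q ≤ cnt N (fun i => Q (i + 1)) + 1 := by
  classical
  induction N with
  | zero => simp [cnt]
  | succ N ih =>
    clear ih
    have h0 : ∀ (M : ℕ) (P : ℕ → Prop), cnt (M + 1) P = cnt M P + if P M then 1 else 0 := by
      intro M P
      unfold cnt
      rw [Finset.range_add_one, Finset.filter_insert]
      split_ifs with h
      · rw [Finset.card_insert_of_notMem (by simp)]
      · rfl
    have h1 : ∀ (M : ℕ) (P : ℕ → Prop), cnt (M + 1) P = cnt M (fun i => P (i + 1)) + if P 0 then 1 else 0 := by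
      intro M P
      induction M with
      | zero =>
        rw [h0]
        simp [cnt]
      | succ M ih => rw [h0 (M + 1) P, ih, h0 M (fun i => P (i + 1))]; omega
    have h2 := h1 (N + 1) Q
    have h3 := h0 (N + 1) Q
    have a : (if Q 0 then 1 else 0 : ℕ) ≤ 1 := by split_ifs <;> omega
    have b : (if Q (N + 1) then 1 else 0 : ℕ) ≤ 1 := by split_ifs <;> omega
    omega

theorem cnt_congr {N : ℕ} {P Q : ℕ → Prop} (h : ∀ i < N, (P i ↔ Q i)) : cnt N P = cnt N Q := by
  classical
  unfold cnt
  congr 1
  apply Finset.filter_congr
  intro i hi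
  exact h i (Finset.mem_range.1 hi)

/-- first type of coincidence -/
def Q1 (T : Set α) (N : ℕ) (t : Wd α) (p : Wd α × ℕ) : Prop :=
  ∃ j, 1 ≤ j ∧ j < N ∧ 1 ≤ pLen T t ∧ p = pt T t j

/-- second type of coincidence -/
def Q2 (R : Set α) (t : Wd α) (p : Wd α × ℕ) : Prop := tw R p.1 = t

/-- the integer valued kernel -/
def kap (R T : Set α) (N : ℕ) (w v : Wd α) : ℕ :=
  cnt N (fun i => Q1 T N (tw R v) (pt T w i)) + cnt N (fun i => Q2 R (tw R v) (pt T w i))

theorem pLen_append {T : Set α} (r t : Wd α) (h : r.length < pLen T (r ++ t)) :
    pLen T (r ++ t) = r.length + pLen T t ∧ 1 ≤ pLen T t := by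
  classical
  unfold pLen at *
  rw [List.takeWhile_append] at h ⊢
  split_ifs at h ⊢ with hc
  · rw [List.length_append] at h ⊢
    exact ⟨rfl, by omega⟩
  · exact absurd h (by
      have := length_takeWhile_le' (fun l : α × Bool => decide (l.1 ∈ T)) r
      omega)

theorem kap_self (R T : Set α) (N : ℕ) (w : Wd α) : kap R T N w w = N := by
  classical
  set t := tw R w with ht
  set r := hw R w with hr
  have hw1 : r ++ t = w := hw_append_tw R w
  have hlen : w.length = r.length + t.length := by rw [← hw1, List.length_append]
  have hrR : ∀ l ∈ r, l.1 ∈ R := fun l hl => mem_hw hl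
  have htt : tw R t = t := tw_tw R w
  have hp := pLen_le T w
  -- exactly one of the two coincidences
  have key : ∀ i < N, (Q1 T N t (pt T w i) ↔ ¬ Q2 R t (pt T w i)) := by
    intro i hi
    by_cases hk : min i (pLen T w) ≤ r.length
    · -- Q2 holds
      have h2 : Q2 R t (pt T w i) := by
        unfold Q2 pt
        simp only
        rw [← hw1, List.drop_append_of_le_length (by rw [hw1]; exact hk), tw_append _ _ _, htt]
        intro l hl
        exact hrR l (List.mem_of_mem_drop hl)
      have h1 : ¬ Q1 T N t (pt T w i) := by
        rintro ⟨j, hj1, hj2, hj3, hj4⟩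
        have h3 := congrArg (fun p => p.1.length) hj4
        simp only [pt, List.length_drop] at h3
        have := pLen_le T t
        omega
      tauto
    · push Not at hk
      have hpl : r.length < pLen T (r ++ t) := by rw [hw1]; omega
      obtain ⟨ha, hb⟩ := pLen_append r t hpl
      rw [hw1] at ha
      have h1 : Q1 T N t (pt T w i) := by
        refine ⟨i - r.length, by omega, by omega, hb, ?_⟩
        unfold pt
        have e1 : i - pLen T w = i - r.length - pLen T t := by omega
        have e2 : w.drop (min i (pLen T w)) = t.drop (min (i - r.length) (pLen T t)) := by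
          conv_lhs => rw [← hw1]
          have e3 : min i (pLen T (r ++ t)) = r.length + min (i - r.length) (pLen T t) := by
            rw [hw1]; omega
          rw [e3, List.drop_append]
          have e4 : r.drop (r.length + min (i - r.length) (pLen T t)) = [] :=
            List.drop_eq_nil_of_le (by omega)
          rw [e4, List.nil_append]
          congr 1
          omega
        rw [e1, e2]
      have h2 : ¬ Q2 R t (pt T w i) := by
        intro h
        unfold Q2 pt at h
        simp only at h
        have h3 := tw_length_le R (w.drop (min i (pLen T w)))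
        rw [h, List.length_drop] at h3
        omega
      tauto
  have h1 : cnt N (fun i => Q1 T N t (pt T w i)) = cnt N (fun i => ¬ Q2 R t (pt T w i)) := cnt_congr key
  have h3 : cnt N (fun i => Q2 R t (pt T w i)) + cnt N (fun i => ¬ Q2 R t (pt T w i)) = N := by
    have := Finset.card_filter_add_card_filter_not (s := Finset.range N) (fun i => Q2 R t (pt T w i))
    rw [Finset.card_range] at this
    unfold cnt
    convert this
  unfold kap
  rw [← ht, h1]
  omega

theorem kap_cons {R T : Set α} {x : α × Bool} (hx : x.1 ∈ T) (N : ℕ) (w v : Wd α) :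
    kap R T N (x :: w) v ≤ kap R T N w v + 2 ∧ kap R T N w v ≤ kap R T N (x :: w) v + 2 := by
  have h1 := cnt_succ_shift N (fun i => Q1 T N (tw R v) (pt T (x :: w) i))
  have h2 := cnt_succ_shift N (fun i => Q2 R (tw R v) (pt T (x :: w) i))
  simp only [pt_cons_succ hx] at h1 h2
  unfold kap
  omega

end

end Pool.Agent.helper39
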